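import Pool.Agent.X154.HP.Defs

/-! # The distance of a conformal metric: basic facts -/

set_option autoImplicit false

open Filter Topology MeasureTheory Set
open scoped ContDiff

namespace Pool.Agent.X154.HP

variable {lam : ℂ → ℝ}

lemma IsMetric.cont (h : IsMetric lam) : Continuous lam := h.smooth.continuous

lemma IsMetric.contSqrt (h : IsMetric lam) : Continuous fun z => Real.sqrt (lam z) :=
  h.cont.sqrt

lemma IsMetric.sqrt_pos (h : IsMetric lam) (z : ℂ) : 0 < Real.sqrt (lam z) :=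
  Real.sqrt_pos.mpr (h.pos z)

lemma cont_deriv {γ : ℝ → ℂ} (hγ : ContDiff ℝ 1 γ) : Continuous (deriv γ) :=
  hγ.continuous_deriv le_rfl

lemma hasDeriv {γ : ℝ → ℂ} (hγ : ContDiff ℝ 1 γ) (t : ℝ) : HasDerivAt γ (deriv γ t) t :=
  ((hγ.differentiable one_ne_zero) t).hasDerivAt

lemma cont_speed (h : IsMetric lam) {γ : ℝ → ℂ} (hγ : ContDiff ℝ 1 γ) :
    Continuous fun t => Real.sqrt (lam (γ t)) * ‖deriv γ t‖ :=
  (h.contSqrt.comp hγ.continuous).mul (cont_deriv hγ).norm

lemma len_nonneg (γ : ℝ → ℂ) : 0 ≤ len lam γ := by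
  unfold len
  exact intervalIntegral.integral_nonneg zero_le_one fun t _ => by positivity

lemma contDiff_seg (z w : ℂ) : ContDiff ℝ 1 (fun t : ℝ => z + (t : ℂ) * (w - z)) := by
  have : ContDiff ℝ 1 (fun t : ℝ => (t : ℂ)) := Complex.ofRealCLM.contDiff
  fun_prop

lemma deriv_seg (z w : ℂ) (t : ℝ) : deriv (fun t : ℝ => z + (t : ℂ) * (w - z)) t = w - z := by
  have h1 : HasDerivAt (fun t : ℝ => (t : ℂ)) 1 t := Complex.ofRealCLM.hasDerivAt
  have h := (h1.mul_const (w - z)).const_add z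
  rw [h.deriv]
  ring

lemma set_nonempty (z w : ℂ) :
    {L : ℝ | ∃ γ : ℝ → ℂ, ContDiff ℝ 1 γ ∧ γ 0 = z ∧ γ 1 = w ∧ L = len lam γ}.Nonempty :=
  ⟨_, _, contDiff_seg z w, by simp, by simp, rfl⟩

lemma set_bdd (z w : ℂ) :
    BddBelow {L : ℝ | ∃ γ : ℝ → ℂ, ContDiff ℝ 1 γ ∧ γ 0 = z ∧ γ 1 = w ∧ L = len lam γ} :=
  ⟨0, by rintro L ⟨γ, -, -, -, rfl⟩; exact len_nonneg γ⟩

lemma gdist_nonneg (z w : ℂ) : 0 ≤ gdist lam z w :=
  le_csInf (set_nonempty z w) (by rintro L ⟨γ, -, -, -, rfl⟩; exact len_nonneg γ)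

lemma gdist_le_len {γ : ℝ → ℂ} (hγ : ContDiff ℝ 1 γ) : gdist lam (γ 0) (γ 1) ≤ len lam γ :=
  csInf_le (set_bdd _ _) ⟨γ, hγ, rfl, rfl, rfl⟩

lemma le_gdist {z w : ℂ} {c : ℝ}
    (h : ∀ γ : ℝ → ℂ, ContDiff ℝ 1 γ → γ 0 = z → γ 1 = w → c ≤ len lam γ) : c ≤ gdist lam z w := by
  apply le_csInf (set_nonempty z w)
  rintro L ⟨γ, h1, h2, h3, rfl⟩
  exact h γ h1 h2 h3

lemma exists_curve (z w : ℂ) {c : ℝ} (h : gdist lam z w < c) :
    ∃ γ : ℝ → ℂ, ContDiff ℝ 1 γ ∧ γ 0 = z ∧ γ 1 = w ∧ len lam γ < c := by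
  obtain ⟨L, ⟨γ, h1, h2, h3, rfl⟩, hL⟩ := exists_lt_of_csInf_lt (set_nonempty z w) h
  exact ⟨γ, h1, h2, h3, hL⟩

lemma gdist_self (z : ℂ) : gdist lam z z = 0 := by
  refine le_antisymm ?_ (gdist_nonneg z z)
  have h := gdist_le_len (lam := lam) (contDiff_seg z z)
  have h0 : len lam (fun t : ℝ => z + (t : ℂ) * (z - z)) = 0 := by
    unfold len
    simp only [deriv_seg]
    simp
  rw [h0] at h
  simpa using h

lemma gdist_comm (z w : ℂ) : gdist lam z w = gdist lam w z := by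
  have key : ∀ z w : ℂ, gdist lam z w ≤ gdist lam w z := by
    intro z w
    apply le_gdist
    intro γ hγ h0 h1
    have hr : ContDiff ℝ 1 (fun t : ℝ => γ (1 - t)) := hγ.comp (by fun_prop)
    have h := gdist_le_len (lam := lam) hr
    simp only [sub_zero, sub_self, h0, h1] at h
    refine h.trans (le_of_eq ?_)
    unfold len
    have hd : ∀ t : ℝ, deriv (fun t : ℝ => γ (1 - t)) t = - deriv γ (1 - t) := by
      intro t
      have h2 : HasDerivAt (fun t : ℝ => 1 - t) (-1) t := by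
        simpa using (hasDerivAt_id t).const_sub 1
      have h3 := (hasDeriv hγ (1 - t)).scomp t h2
      simpa [Function.comp_def] using h3.deriv
    simp only [hd, norm_neg]
    have := intervalIntegral.integral_comp_sub_left (a := 0) (b := 1)
      (fun s : ℝ => Real.sqrt (lam (γ s)) * ‖deriv γ s‖) (1 : ℝ)
    simpa using this
  exact le_antisymm (key z w) (key w z)

/-- gluing of two `C¹` curves -/
lemma glue {g₁ g₂ : ℝ → ℂ} (h₁ : ContDiff ℝ 1 g₁) (h₂ : ContDiff ℝ 1 g₂) {c : ℝ}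
    (hv : g₁ c = g₂ c) (hd : deriv g₁ c = deriv g₂ c) :
    ContDiff ℝ 1 (fun t => if t ≤ c then g₁ t else g₂ t) ∧
      ∀ t, deriv (fun t => if t ≤ c then g₁ t else g₂ t) t =
        if t ≤ c then deriv g₁ t else deriv g₂ t := by
  have key : ∀ t, HasDerivAt (fun t => if t ≤ c then g₁ t else g₂ t)
      (if t ≤ c then deriv g₁ t else deriv g₂ t) t := by
    intro t
    rcases lt_trichotomy t c with h | h | h
    · rw [if_pos h.le]
      refine (hasDeriv h₁ t).congr_of_eventuallyEq ?_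
      filter_upwards [eventually_lt_nhds h] with s hs
      rw [if_pos hs.le]
    · subst h
      rw [if_pos le_rfl]
      have a1 : HasDerivWithinAt (fun s => if s ≤ t then g₁ s else g₂ s) (deriv g₁ t) (Iic t) t := by
        refine (hasDeriv h₁ t).hasDerivWithinAt.congr (fun s hs => if_pos hs) (if_pos le_rfl)
      have a2 : HasDerivWithinAt (fun s => if s ≤ t then g₁ s else g₂ s) (deriv g₁ t) (Ici t) t := by
        rw [hd]
        refine (hasDeriv h₂ t).hasDerivWithinAt.congr (fun s hs => ?_) ?_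
        · rcases eq_or_lt_of_le (mem_Ici.mp hs) with h | h
          · rw [← h, if_pos le_rfl, hv]
          · rw [if_neg (not_le.mpr h)]
        · rw [if_pos le_rfl, hv]
      have := a1.union a2
      rw [Iic_union_Ici] at this
      exact this.hasDerivAt univ_mem
    · rw [if_neg (not_le.mpr h)]
      refine (hasDeriv h₂ t).congr_of_eventuallyEq ?_
      filter_upwards [eventually_gt_nhds h] with s hs
      rw [if_neg (not_le.mpr hs)]
  have hdv : deriv (fun t => if t ≤ c then g₁ t else g₂ t) =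
      fun t => if t ≤ c then deriv g₁ t else deriv g₂ t := funext fun t => (key t).deriv
  refine ⟨?_, fun t => (key t).deriv⟩
  rw [contDiff_one_iff_deriv]
  refine ⟨fun t => (key t).differentiableAt, ?_⟩
  rw [hdv]
  refine Continuous.if_le (cont_deriv h₁) (cont_deriv h₂) continuous_id continuous_const ?_
  intro x hx
  rw [hx, hd]

/-- the smooth step `3t² - 2t³` -/
def stp (t : ℝ) : ℝ := 3 * t ^ 2 - 2 * t ^ 3

lemma stp_deriv (t : ℝ) : HasDerivAt stp (6 * t - 6 * t ^ 2) t := by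
  unfold stp
  have h1 := (hasDerivAt_pow 2 t).const_mul (3 : ℝ)
  have h2 := (hasDerivAt_pow 3 t).const_mul (2 : ℝ)
  convert! h1.sub h2 using 1
  norm_num
  ring

lemma stp_contDiff : ContDiff ℝ 1 stp := by unfold stp; fun_prop

lemma len_comp (h : IsMetric lam) {γ : ℝ → ℂ} (hγ : ContDiff ℝ 1 γ) {φ φ' : ℝ → ℝ} {a b : ℝ}
    (hab : a ≤ b) (hφ : ∀ t, HasDerivAt φ (φ' t) t) (hφc : Continuous φ')
    (hpos : ∀ t ∈ Icc a b, 0 ≤ φ' t) (ha : φ a = 0) (hb : φ b = 1) :
    ∫ t in a..b, Real.sqrt (lam (γ (φ t))) * ‖deriv (fun s => γ (φ s)) t‖ = len lam γ := by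
  have hd : ∀ t, deriv (fun s => γ (φ s)) t = φ' t • deriv γ (φ t) := fun t =>
    ((hasDeriv hγ (φ t)).scomp t (hφ t)).deriv
  have e1 : ∫ t in a..b, Real.sqrt (lam (γ (φ t))) * ‖deriv (fun s => γ (φ s)) t‖ =
      ∫ t in a..b, ((fun s => Real.sqrt (lam (γ s)) * ‖deriv γ s‖) ∘ φ) t * φ' t := by
    refine intervalIntegral.integral_congr fun t ht => ?_
    rw [uIcc_of_le hab] at ht
    simp only [hd, norm_smul, Real.norm_eq_abs, abs_of_nonneg (hpos t ht), Function.comp]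
    ring
  rw [e1, intervalIntegral.integral_comp_mul_deriv (fun t _ => hφ t) hφc.continuousOn
    (cont_speed h hγ), ha, hb]
  rfl

lemma gdist_triangle (h : IsMetric lam) (x y z : ℂ) :
    gdist lam x z ≤ gdist lam x y + gdist lam y z := by
  refine le_of_forall_pos_le_add fun ε hε => ?_
  obtain ⟨γ₁, c₁, a₁, b₁, l₁⟩ := exists_curve (lam := lam) x y
    (show gdist lam x y < gdist lam x y + ε / 2 by linarith)
  obtain ⟨γ₂, c₂, a₂, b₂, l₂⟩ := exists_curve (lam := lam) y z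
    (show gdist lam y z < gdist lam y z + ε / 2 by linarith)
  set φ₁ : ℝ → ℝ := fun t => stp (2 * t) with hφ₁
  set φ₂ : ℝ → ℝ := fun t => stp (2 * t - 1) with hφ₂
  have d₁ : ∀ t, HasDerivAt φ₁ (12 * (2 * t) - 12 * (2 * t) ^ 2) t := by
    intro t
    have h2 : HasDerivAt (fun t : ℝ => 2 * t) 2 t := by
      simpa using (hasDerivAt_id t).const_mul 2
    convert! (stp_deriv (2 * t)).comp t h2 using 1
    ring
  have d₂ : ∀ t, HasDerivAt φ₂ (12 * (2 * t - 1) - 12 * (2 * t - 1) ^ 2) t := by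
    intro t
    have h2 : HasDerivAt (fun t : ℝ => 2 * t - 1) 2 t := by
      simpa using ((hasDerivAt_id t).const_mul 2).sub_const 1
    convert! (stp_deriv (2 * t - 1)).comp t h2 using 1
    ring
  have C₁ : ContDiff ℝ 1 (fun t => γ₁ (φ₁ t)) :=
    c₁.comp (stp_contDiff.comp (by fun_prop))
  have C₂ : ContDiff ℝ 1 (fun t => γ₂ (φ₂ t)) :=
    c₂.comp (stp_contDiff.comp (by fun_prop))
  have D₁ : ∀ t, deriv (fun t => γ₁ (φ₁ t)) t =
      (12 * (2 * t) - 12 * (2 * t) ^ 2) • deriv γ₁ (φ₁ t) :=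
    fun t => ((hasDeriv c₁ (φ₁ t)).scomp t (d₁ t)).deriv
  have D₂ : ∀ t, deriv (fun t => γ₂ (φ₂ t)) t =
      (12 * (2 * t - 1) - 12 * (2 * t - 1) ^ 2) • deriv γ₂ (φ₂ t) :=
    fun t => ((hasDeriv c₂ (φ₂ t)).scomp t (d₂ t)).deriv
  have e₁ : φ₁ (1 / 2) = 1 := by simp only [hφ₁, stp]; norm_num
  have e₂ : φ₂ (1 / 2) = 0 := by simp only [hφ₂, stp]; norm_num
  obtain ⟨G, GD⟩ := glue C₁ C₂ (c := 1 / 2)
    (by simp only [e₁, e₂]; rw [b₁, a₂])
    (by rw [D₁, D₂]; norm_num)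
  set g : ℝ → ℂ := fun t => if t ≤ 1 / 2 then γ₁ (φ₁ t) else γ₂ (φ₂ t) with hg
  have g0 : g 0 = x := by
    simp only [hg]
    rw [if_pos (by norm_num)]
    simp only [hφ₁, stp]
    simpa using a₁
  have g1 : g 1 = z := by
    simp only [hg]
    rw [if_neg (by norm_num)]
    simp only [hφ₂, stp]
    have : (3 * (2 * 1 - 1) ^ 2 - 2 * (2 * 1 - 1) ^ 3 : ℝ) = 1 := by norm_num
    rw [this]
    exact b₂
  have hle := gdist_le_len (lam := lam) G
  have hle' : gdist lam x z ≤ len lam g := by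
    have e0 : g 0 = x := g0
    have e1 : g 1 = z := g1
    calc gdist lam x z = gdist lam (g 0) (g 1) := by rw [e0, e1]
      _ ≤ _ := hle
  have hI : ∀ a b : ℝ, IntervalIntegrable (fun t => Real.sqrt (lam (g t)) * ‖deriv g t‖)
      volume a b := fun a b => (cont_speed h G).intervalIntegrable a b
  have hs : len lam g = len lam γ₁ + len lam γ₂ := by
    rw [show len lam g = _ from
      (intervalIntegral.integral_add_adjacent_intervals (hI 0 (1 / 2)) (hI (1 / 2) 1)).symm]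
    congr 1
    · rw [← len_comp h c₁ (a := 0) (b := 1 / 2) (by norm_num) d₁ (by fun_prop)
        (fun t ht => by nlinarith [ht.1, ht.2]) (by simp [hφ₁, stp]) e₁]
      refine intervalIntegral.integral_congr fun t ht => ?_
      rw [uIcc_of_le (by norm_num)] at ht
      rw [GD t, if_pos ht.2]
      simp only [hg]
      rw [if_pos ht.2]
    · rw [← len_comp h c₂ (a := 1 / 2) (b := 1) (by norm_num) d₂ (by fun_prop)
        (fun t ht => by nlinarith [ht.1, ht.2]) e₂
        (by simp only [hφ₂, stp]; norm_num)]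
      refine intervalIntegral.integral_congr_ae ?_
      refine (ae_of_all _ fun t ht => ?_)
      rw [uIoc_of_le (by norm_num)] at ht
      have hn : ¬ t ≤ 1 / 2 := not_le.mpr ht.1
      rw [GD t, if_neg hn]
      simp only [hg]
      rw [if_neg hn]
  rw [hs] at hle'
  linarith

/-- upper bound of the distance by the segment -/
lemma gdist_le_seg (h : IsMetric lam) {z w : ℂ} {M : ℝ}
    (hM : ∀ t ∈ Icc (0 : ℝ) 1, Real.sqrt (lam (z + (t : ℂ) * (w - z))) ≤ M) :
    gdist lam z w ≤ M * ‖w - z‖ := by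
  have h1 := gdist_le_len (lam := lam) (contDiff_seg z w)
  simp only [Complex.ofReal_zero, zero_mul, add_zero, Complex.ofReal_one, one_mul,
    add_sub_cancel] at h1
  refine h1.trans ?_
  unfold len
  simp only [deriv_seg]
  calc ∫ t in (0 : ℝ)..1, Real.sqrt (lam (z + (t : ℂ) * (w - z))) * ‖w - z‖
      ≤ ∫ t in (0 : ℝ)..1, M * ‖w - z‖ := by
        refine intervalIntegral.integral_mono_on zero_le_one ?_ ?_ ?_
        · have : Continuous fun t : ℝ => z + (t : ℂ) * (w - z) := (contDiff_seg z w).continuous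
          exact ((h.contSqrt.comp this).mul continuous_const).intervalIntegrable _ _
        · exact intervalIntegrable_const
        · intro t ht
          exact mul_le_mul_of_nonneg_right (hM t ht) (norm_nonneg _)
    _ = M * ‖w - z‖ := by simp

/-- lower bound of the length of a curve that starts at `z` -/
lemma len_ge (h : IsMetric lam) {z : ℂ} {ρ m : ℝ} (hm : 0 ≤ m)
    (hb : ∀ y, ‖y - z‖ ≤ ρ → m ≤ Real.sqrt (lam y)) {γ : ℝ → ℂ} (hγ : ContDiff ℝ 1 γ)
    (h0 : γ 0 = z) : m * min ρ ‖γ 1 - z‖ ≤ len lam γ := by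
  have main : ∀ t₁ ∈ Icc (0 : ℝ) 1, (∀ t ∈ Ico 0 t₁, ‖γ t - z‖ ≤ ρ) →
      m * ‖γ t₁ - z‖ ≤ len lam γ := by
    intro t₁ ht₁ hin
    have hc : IntervalIntegrable (deriv γ) volume 0 t₁ := (cont_deriv hγ).intervalIntegrable _ _
    have e : γ t₁ - z = ∫ t in (0 : ℝ)..t₁, deriv γ t := by
      rw [intervalIntegral.integral_eq_sub_of_hasDerivAt (fun t _ => hasDeriv hγ t) hc, h0]
    have hsp : ∀ a b : ℝ, IntervalIntegrable (fun t => Real.sqrt (lam (γ t)) * ‖deriv γ t‖)
      volume a b := fun a b => (cont_speed h hγ).intervalIntegrable a b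
    calc m * ‖γ t₁ - z‖ ≤ m * ∫ t in (0 : ℝ)..t₁, ‖deriv γ t‖ := by
          rw [e]
          exact mul_le_mul_of_nonneg_left
            (intervalIntegral.norm_integral_le_integral_norm ht₁.1) hm
      _ = ∫ t in (0 : ℝ)..t₁, m * ‖deriv γ t‖ := by
          rw [intervalIntegral.integral_const_mul]
      _ ≤ ∫ t in (0 : ℝ)..t₁, Real.sqrt (lam (γ t)) * ‖deriv γ t‖ := by
          refine intervalIntegral.integral_mono_on_of_le_Ioo ht₁.1
            (((cont_deriv hγ).norm.const_mul m).intervalIntegrable _ _) (hsp _ _) ?_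
          intro t ht
          exact mul_le_mul_of_nonneg_right (hb _ (hin t ⟨ht.1.le, ht.2⟩)) (norm_nonneg _)
      _ ≤ ∫ t in (0 : ℝ)..1, Real.sqrt (lam (γ t)) * ‖deriv γ t‖ := by
          rw [← intervalIntegral.integral_add_adjacent_intervals (hsp 0 t₁) (hsp t₁ 1)]
          have : 0 ≤ ∫ t in t₁..1, Real.sqrt (lam (γ t)) * ‖deriv γ t‖ :=
            intervalIntegral.integral_nonneg ht₁.2 fun t _ => by positivity
          linarith
  by_cases hall : ∀ t ∈ Ico (0 : ℝ) 1, ‖γ t - z‖ ≤ ρ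
  · exact (mul_le_mul_of_nonneg_left (min_le_right _ _) hm).trans
      (main 1 (right_mem_Icc.mpr zero_le_one) hall)
  · push Not at hall
    obtain ⟨s, hs, hs2⟩ := hall
    set S : Set ℝ := {t | t ∈ Icc (0 : ℝ) 1 ∧ ρ ≤ ‖γ t - z‖} with hS
    have hcl : IsCompact S := by
      have : S = Icc (0 : ℝ) 1 ∩ {t | ρ ≤ ‖γ t - z‖} := rfl
      rw [this]
      exact isCompact_Icc.inter_right (isClosed_le continuous_const
        (by have := hγ.continuous; fun_prop))
    obtain ⟨t₁, ht₁, hmin⟩ := hcl.exists_isLeast ⟨s, ⟨hs.1, hs.2.le⟩, hs2.le⟩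
    have h1 := main t₁ ht₁.1 (fun t ht => by
      by_contra hcon
      push Not at hcon
      have : t ∈ S := ⟨⟨ht.1, ht.2.le.trans ht₁.1.2⟩, hcon.le⟩
      exact absurd (hmin this) (not_le.mpr ht.2))
    refine (mul_le_mul_of_nonneg_left (min_le_left _ _) hm).trans ?_
    exact (mul_le_mul_of_nonneg_left ht₁.2 hm).trans h1

lemma gdist_ge (h : IsMetric lam) {z : ℂ} {ρ m : ℝ} (hm : 0 ≤ m)
    (hb : ∀ y, ‖y - z‖ ≤ ρ → m ≤ Real.sqrt (lam y)) (w : ℂ) :
    m * min ρ ‖w - z‖ ≤ gdist lam z w := by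
  apply le_gdist
  intro γ hγ h0 h1
  rw [← h1]
  exact len_ge h hm hb hγ h0

end Pool.Agent.X154.HP
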