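import Pool.Agent.X154.HP.Psi

/-! # The Schwarz lemma of Yau: `lam` is bounded below by the comparison density -/

set_option autoImplicit false

open Filter Topology MeasureTheory Set
open scoped ContDiff

namespace Pool.Agent.X154.HP

variable {lam : ℂ → ℝ}

lemma neg_log_le {X : ℝ} (hX : |X| ≤ 1 / 2) : -Real.log (1 - X) ≤ X + 2 * X ^ 2 := by
  have h1 : |X| < 1 := by linarith
  have h2 := Real.abs_log_sub_add_sum_range_le h1 1
  simp only [Finset.sum_range_one, Nat.cast_zero, zero_add, pow_one, div_one] at h2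
  have h3 : |X| ^ (1 + 1) / (1 - |X|) ≤ 2 * X ^ 2 := by
    rw [div_le_iff₀ (by linarith)]
    have e : |X| ^ (1 + 1) = X ^ 2 := by norm_num
    rw [e]
    nlinarith [sq_nonneg X]
  have h4 := (abs_le.mp (h2.trans h3)).1
  linarith

lemma cut_bound {d1 δ s1 sw η : ℝ} (hs1 : s1 = max 0 (2 * d1 - 1))
    (hsw : sw = max 0 (2 * (d1 + δ) - 1)) (h1 : s1 ≤ 1) (hw1 : sw ≤ 1) (hη : η = 1 - s1 ^ 2)
    (hη0 : 0 < η) (hδ : 4 * |δ| ≤ η / 2) :
    -Real.log ((1 - sw ^ 2) / η) ≤ (4 * s1 * δ + 4 * δ ^ 2) / η + 32 * δ ^ 2 / η ^ 2 := by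
  have hs0 : 0 ≤ s1 := by rw [hs1]; exact le_max_left _ _
  have hw0 : 0 ≤ sw := by rw [hsw]; exact le_max_left _ _
  set X := (sw ^ 2 - s1 ^ 2) / η with hX
  have e : (1 - sw ^ 2) / η = 1 - X := by
    rw [hX]
    field_simp
    rw [hη]; ring
  have hdiff : |sw - s1| ≤ 2 * |δ| := by
    rw [hsw, hs1]
    have := abs_max_sub_max_le_abs 0 (2 * (d1 + δ) - 1) 0
    have h2 : |max 0 (2 * (d1 + δ) - 1) - max 0 (2 * d1 - 1)| ≤
        |(2 * (d1 + δ) - 1) - (2 * d1 - 1)| := by
      rw [max_comm 0, max_comm 0]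
      exact abs_max_sub_max_le_abs _ _ _
    refine h2.trans (le_of_eq ?_)
    rw [show (2 * (d1 + δ) - 1) - (2 * d1 - 1) = 2 * δ by ring, abs_mul, abs_two]
  have hnum : |sw ^ 2 - s1 ^ 2| ≤ 4 * |δ| := by
    have : sw ^ 2 - s1 ^ 2 = (sw - s1) * (sw + s1) := by ring
    rw [this, abs_mul, abs_of_nonneg (by linarith : 0 ≤ sw + s1)]
    calc |sw - s1| * (sw + s1) ≤ (2 * |δ|) * 2 :=
          mul_le_mul hdiff (by linarith) (by linarith) (by positivity)
      _ = 4 * |δ| := by ring
  have hXabs : |X| ≤ 4 * |δ| / η := by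
    rw [hX, abs_div, abs_of_pos hη0]
    gcongr
  have hX12 : |X| ≤ 1 / 2 := by
    refine hXabs.trans ?_
    rw [div_le_iff₀ hη0]; linarith
  have hXup : X ≤ (4 * s1 * δ + 4 * δ ^ 2) / η := by
    rw [hX]
    apply div_le_div_of_nonneg_right _ hη0.le
    have h5 : sw ≤ max 0 (s1 + 2 * δ) := by
      rw [hsw]
      apply max_le_max le_rfl
      have : 2 * d1 - 1 ≤ s1 := by rw [hs1]; exact le_max_right _ _
      linarith
    have h6 : sw ^ 2 ≤ (s1 + 2 * δ) ^ 2 := by
      calc sw ^ 2 ≤ (max 0 (s1 + 2 * δ)) ^ 2 := pow_le_pow_left₀ hw0 h5 2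
        _ ≤ (s1 + 2 * δ) ^ 2 := by
          rcases le_total 0 (s1 + 2 * δ) with h | h
          · rw [max_eq_right h]
          · rw [max_eq_left h]; nlinarith [sq_nonneg (s1 + 2 * δ)]
    nlinarith
  have hXsq : X ^ 2 ≤ 16 * δ ^ 2 / η ^ 2 := by
    have h7 : |X| ^ 2 ≤ (4 * |δ| / η) ^ 2 := pow_le_pow_left₀ (abs_nonneg _) hXabs 2
    rw [sq_abs] at h7
    refine h7.trans (le_of_eq ?_)
    rw [div_pow, mul_pow, sq_abs]; norm_num
  rw [e]
  have := neg_log_le hX12
  have e2 : 32 * δ ^ 2 / η ^ 2 = 2 * (16 * δ ^ 2 / η ^ 2) := by ring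
  rw [e2]
  linarith

theorem ys (h : IsMetric lam) (hC : Complete lam) {c : ℝ} (hc : 0 ≤ c)
    (hK : ∀ z, lap (U lam) z ≤ 2 * c * lam z) {z0 : ℂ}
    (hball : ∀ z, gdist lam z0 z ≤ 1 → 1 ≤ ‖z‖) :
    Real.exp (psi z0) ≤ (160 + 5 * c) * lam z0 := by
  set K : Set ℂ := {z | gdist lam z0 z ≤ 1} with hKdef
  have hdc := continuous_gdist h z0
  have hKcl : IsClosed K := isClosed_le hdc continuous_const
  obtain ⟨ρ, hρ⟩ := bounded_ball h hC z0 1
  have hKc : IsCompact K := by
    apply (isCompact_closedBall (0 : ℂ) ρ).of_isClosed_subset hKcl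
    intro z hz
    exact mem_closedBall_zero_iff.mpr (hρ z hz)
  set sf : ℂ → ℝ := fun z => max 0 (2 * gdist lam z0 z - 1) with hsf
  have hsfc : Continuous sf := continuous_const.max ((continuous_const.mul hdc).sub continuous_const)
  set g : ℂ → ℝ := fun z => Real.exp (psi z) / lam z * (1 - sf z ^ 2) ^ 2 with hg
  have hpsic : ContinuousOn psi K := by
    intro z hz
    have hz1 : 1 ≤ ‖z‖ := hball z hz
    have hz0 : ‖z‖ ≠ 0 := by linarith
    apply ContinuousAt.continuousWithinAt
    unfold psi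
    have h1 : ContinuousAt (fun z : ℂ => ‖z‖) z := continuous_norm.continuousAt
    exact ((continuousAt_const.sub (continuousAt_const.mul (h1.log hz0))).add
      (continuousAt_const.div (h1.pow 2) (pow_ne_zero 2 hz0)))
  have hgc : ContinuousOn g K := by
    have h1 : ContinuousOn (fun z => Real.exp (psi z)) K := Real.continuous_exp.comp_continuousOn hpsic
    have h2 : ContinuousOn (fun z => Real.exp (psi z) / lam z) K :=
      h1.div h.cont.continuousOn fun z _ => (h.pos z).ne'
    exact h2.mul ((continuous_const.sub (hsfc.pow 2)).pow 2).continuousOn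
  have hz0K : z0 ∈ K := by
    rw [hKdef]
    change gdist lam z0 z0 ≤ 1
    rw [gdist_self]; norm_num
  obtain ⟨z1, hz1K, hmax⟩ := hKc.exists_isMaxOn ⟨z0, hz0K⟩ hgc
  have hsf0 : sf z0 = 0 := by
    simp only [hsf]; rw [gdist_self]; norm_num
  have hgz0 : g z0 = Real.exp (psi z0) / lam z0 := by
    simp only [hg]; rw [hsf0]; norm_num
  have hg01 : g z0 ≤ g z1 := hmax hz0K
  have hg0pos : 0 < g z0 := by
    rw [hgz0]; have := h.pos z0; positivity
  set d1 := gdist lam z0 z1 with hd1
  have hd10 : 0 ≤ d1 := gdist_nonneg _ _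
  set s1 := sf z1 with hs1
  have hs1def : s1 = max 0 (2 * d1 - 1) := rfl
  have hs10 : 0 ≤ s1 := le_max_left _ _
  have hs11 : s1 ≤ 1 := by
    rw [hs1def]; apply max_le zero_le_one
    have : d1 ≤ 1 := hz1K
    linarith
  have hs1lt : s1 < 1 := by
    rcases hs11.lt_or_eq with h1 | h1
    · exact h1
    · exfalso
      have : g z1 = 0 := by
        simp only [hg]; rw [← hs1, h1]; norm_num
      linarith
  have hd1lt : d1 < 1 := by
    have : 2 * d1 - 1 ≤ s1 := le_max_right _ _
    linarith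
  set η := 1 - s1 ^ 2 with hη
  have hη0 : 0 < η := by rw [hη]; nlinarith
  have hη1 : η ≤ 1 := by rw [hη]; nlinarith
  have hl1 := h.pos z1
  have hz1n : 1 ≤ ‖z1‖ := hball z1 hz1K
  -- the main estimate
  have main : ∀ ε > 0, Real.exp (psi z1) * η ^ 2 ≤ lam z1 * (160 + 5 * c) + 149 * ε := by
    intro ε hε
    obtain ⟨r1, hr1, hr1'⟩ := Metric.continuous_iff.mp h.cont z1 ε hε
    have hr : ∀ y, ‖y - z1‖ ≤ r1 / 2 → Real.sqrt (lam y) ≤ Real.sqrt (lam z1 + ε) := by
      intro y hy
      apply Real.sqrt_le_sqrt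
      have h2 := hr1' y (by rw [dist_eq_norm]; linarith)
      rw [Real.dist_eq] at h2
      have := (abs_lt.mp h2).2
      linarith
    set M := Real.sqrt (lam z1 + ε) with hM
    have hM0 : 0 < M := Real.sqrt_pos.mpr (by linarith)
    have hMsq : M ^ 2 = lam z1 + ε := Real.sq_sqrt (by linarith)
    obtain ⟨T, hT0, hT⟩ := U_four h z1
    have hsv : ∃ s0 > 0, ∀ s : ℝ, 0 < s → s < s0 →
        s1 * ((gdist lam z0 (z1 + (s : ℂ)) - d1) + (gdist lam z0 (z1 + Complex.I * s) - d1) +
        (gdist lam z0 (z1 + -(s : ℂ)) - d1) + (gdist lam z0 (z1 + -(Complex.I * s)) - d1)) ≤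
        s ^ 2 * (lam z1 * (4 + c) + ε) := by
      by_cases hs1z : s1 = 0
      · refine ⟨1, one_pos, fun s hs _ => ?_⟩
        rw [hs1z, zero_mul]
        positivity
      · have hs1p : 0 < s1 := lt_of_le_of_ne hs10 (Ne.symm hs1z)
        have hd12 : 1 / 2 < d1 := by
          rw [hs1def] at hs1p
          rcases lt_max_iff.mp hs1p with h3 | h3
          · exact absurd h3 (lt_irrefl _)
          · linarith
        have hne : z0 ≠ z1 := by
          intro he
          have : d1 = 0 := by rw [hd1, ← he, gdist_self]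
          linarith
        obtain ⟨s0, hs0, hs0'⟩ := sv h hC hc hK hne hε
        refine ⟨s0, hs0, fun s hs hss => ?_⟩
        have h4 := hs0' s hs hss
        rw [← hd1] at h4
        have h5 : lam z1 * (2 / d1 + c * d1) ≤ lam z1 * (4 + c) := by
          apply mul_le_mul_of_nonneg_left _ hl1.le
          have h6 : 2 / d1 ≤ 4 := by rw [div_le_iff₀ (by linarith)]; linarith
          have h7 : c * d1 ≤ c * 1 := mul_le_mul_of_nonneg_left hd1lt.le hc
          linarith
        have h8 : s ^ 2 * (lam z1 * (2 / d1 + c * d1) + ε) ≤ s ^ 2 * (lam z1 * (4 + c) + ε) := by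
          apply mul_le_mul_of_nonneg_left _ (by positivity); linarith
        have h9 : 0 ≤ s ^ 2 * (lam z1 * (4 + c) + ε) := by positivity
        calc s1 * _ ≤ s1 * (s ^ 2 * (lam z1 * (4 + c) + ε)) :=
              mul_le_mul_of_nonneg_left (by linarith) hs10
          _ ≤ 1 * (s ^ 2 * (lam z1 * (4 + c) + ε)) := mul_le_mul_of_nonneg_right hs11 h9
          _ = _ := one_mul _
    obtain ⟨s0, hs0, hsv'⟩ := hsv
    -- choice of s
    set s := min (1 / 4) (min (r1 / 2) (min (s0 / 2) (min ((1 - d1) / (2 * M))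
      (min (η / (8 * M)) (ε / (T + 1)))))) with hs
    have h1d : 0 < 1 - d1 := by linarith
    have hspos : 0 < s := by positivity
    have b1 : s ≤ 1 / 4 := min_le_left _ _
    have b2 : s ≤ r1 / 2 := (min_le_right _ _).trans (min_le_left _ _)
    have b3 : s ≤ s0 / 2 := (min_le_right _ _).trans ((min_le_right _ _).trans (min_le_left _ _))
    have b4 : s ≤ (1 - d1) / (2 * M) := (min_le_right _ _).trans ((min_le_right _ _).trans
      ((min_le_right _ _).trans (min_le_left _ _)))
    have b5 : s ≤ η / (8 * M) := (min_le_right _ _).trans ((min_le_right _ _).trans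
      ((min_le_right _ _).trans ((min_le_right _ _).trans (min_le_left _ _))))
    have b6 : s ≤ ε / (T + 1) := (min_le_right _ _).trans ((min_le_right _ _).trans
      ((min_le_right _ _).trans ((min_le_right _ _).trans (min_le_right _ _))))
    have b4' : M * s < 1 - d1 := by
      rw [le_div_iff₀ (by positivity)] at b4
      linarith
    have b5' : 4 * (M * s) ≤ η / 2 := by
      rw [le_div_iff₀ (by positivity)] at b5
      linarith
    have b6' : T * s ≤ ε := by
      rw [le_div_iff₀ (by positivity)] at b6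
      linarith
    have hsne := hspos.ne'
    clear_value s
    -- one direction
    have one : ∀ w : ℂ, ‖w‖ = s →
        (psi (z1 + w) - U lam (z1 + w)) - (psi z1 - U lam z1) ≤
          8 * (s1 * (gdist lam z0 (z1 + w) - d1)) / η + 8 * (M ^ 2 * s ^ 2) / η +
            64 * (M ^ 2 * s ^ 2) / η ^ 2 := by
      intro w hw
      set δ := gdist lam z0 (z1 + w) - d1 with hδ
      have hdd : gdist lam z1 (z1 + w) ≤ M * s := by
        have := gdist_le_ball h hr (z := z1) (w := z1 + w) (by simp; positivity)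
          (by rw [add_sub_cancel_left, hw]; exact b2)
        rwa [add_sub_cancel_left, hw] at this
      have hδab : |δ| ≤ M * s := by
        rw [abs_le]
        have t1 := gdist_triangle h z0 z1 (z1 + w)
        have t2 := gdist_triangle h z0 (z1 + w) z1
        rw [gdist_comm (z1 + w) z1] at t2
        constructor <;> linarith
      have hdw : gdist lam z0 (z1 + w) = d1 + δ := by rw [hδ]; ring
      have hdwlt : gdist lam z0 (z1 + w) < 1 := by
        rw [hdw]
        have := (abs_le.mp hδab).2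
        linarith
      have hwK : z1 + w ∈ K := hdwlt.le
      have hmw : g (z1 + w) ≤ g z1 := hmax hwK
      set sw := sf (z1 + w) with hsw
      have hswdef : sw = max 0 (2 * (d1 + δ) - 1) := by
        rw [hsw, hsf]; simp only []; rw [hdw]
      have hsw0 : 0 ≤ sw := le_max_left _ _
      have hswlt : sw < 1 := by
        rw [hswdef]; apply max_lt one_pos
        rw [← hdw]; linarith
      have hcut := cut_bound hs1def hswdef hs11 hswlt.le hη hη0 (by linarith)
      have hlw := h.pos (z1 + w)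
      have hA : 0 < 1 - sw ^ 2 := by nlinarith
      -- take logarithms
      have hlog : Real.log (g (z1 + w)) ≤ Real.log (g z1) := by
        apply Real.log_le_log _ hmw
        simp only [hg]
        rw [← hsw]
        positivity
      have e1 : Real.log (g (z1 + w)) = psi (z1 + w) - U lam (z1 + w) +
          2 * Real.log (1 - sw ^ 2) := by
        simp only [hg]
        rw [← hsw, Real.log_mul (by positivity) (by positivity), Real.log_div (by positivity)
          hlw.ne', Real.log_exp, Real.log_pow]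
        unfold U
        norm_num
      have e2 : Real.log (g z1) = psi z1 - U lam z1 + 2 * Real.log η := by
        simp only [hg]
        rw [← hs1, ← hη, Real.log_mul (by positivity) (by positivity), Real.log_div (by positivity)
          hl1.ne', Real.log_exp, Real.log_pow]
        unfold U
        norm_num
      rw [e1, e2] at hlog
      rw [Real.log_div hA.ne' hη0.ne'] at hcut
      have hδsq : δ ^ 2 ≤ M ^ 2 * s ^ 2 := by
        rw [← sq_abs, ← mul_pow]
        exact pow_le_pow_left₀ (abs_nonneg _) hδab 2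
      have k1 : (4 * s1 * δ + 4 * δ ^ 2) / η ≤ (4 * s1 * δ + 4 * (M ^ 2 * s ^ 2)) / η := by
        apply div_le_div_of_nonneg_right _ hη0.le; linarith
      have k2 : 32 * δ ^ 2 / η ^ 2 ≤ 32 * (M ^ 2 * s ^ 2) / η ^ 2 := by
        apply div_le_div_of_nonneg_right _ (by positivity); linarith
      have k3 : 8 * (s1 * δ) / η + 8 * (M ^ 2 * s ^ 2) / η + 64 * (M ^ 2 * s ^ 2) / η ^ 2 =
          2 * ((4 * s1 * δ + 4 * (M ^ 2 * s ^ 2)) / η + 32 * (M ^ 2 * s ^ 2) / η ^ 2) := by ring
      rw [k3]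
      linarith
    have n0 : ‖(s : ℂ)‖ = s := by simp [abs_of_pos hspos]
    have n1 : ‖Complex.I * (s : ℂ)‖ = s := by simp [abs_of_pos hspos]
    have n2 : ‖-(s : ℂ)‖ = s := by simp [abs_of_pos hspos]
    have n3 : ‖-(Complex.I * (s : ℂ))‖ = s := by simp [abs_of_pos hspos]
    have o0 := one _ n0
    have o1 := one _ n1
    have o2 := one _ n2
    have o3 := one _ n3
    have hsvs := hsv' s hspos (by linarith)
    have hps := psi_four hz1n hspos b1
    have hUs := hT s hspos (by linarith)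
    have hKz := hK z1
    unfold four at hps hUs
    set D0 := gdist lam z0 (z1 + (s : ℂ)) - d1
    set D1 := gdist lam z0 (z1 + Complex.I * s) - d1
    set D2' := gdist lam z0 (z1 + -(s : ℂ)) - d1
    set D3 := gdist lam z0 (z1 + -(Complex.I * s)) - d1
    have hlapU : s ^ 2 * lap (U lam) z1 ≤ s ^ 2 * (2 * c * lam z1) := by gcongr
    have hTs : T * s ^ 3 ≤ s ^ 2 * ε := by
      calc T * s ^ 3 = s ^ 2 * (T * s) := by ring
        _ ≤ s ^ 2 * ε := by gcongr
    have hsumD : 8 * (s1 * D0) / η + 8 * (s1 * D1) / η + 8 * (s1 * D2') / η +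
        8 * (s1 * D3) / η ≤ 8 * (s ^ 2 * (lam z1 * (4 + c) + ε)) / η := by
      have : 8 * (s1 * D0) / η + 8 * (s1 * D1) / η + 8 * (s1 * D2') / η + 8 * (s1 * D3) / η =
          8 * (s1 * (D0 + D1 + D2' + D3)) / η := by ring
      rw [this]
      apply div_le_div_of_nonneg_right _ hη0.le
      linarith
    have tot : 2 * Real.exp (psi z1) * s ^ 2 ≤ s ^ 2 * (2 * c * lam z1) + s ^ 2 * ε +
        8 * (s ^ 2 * (lam z1 * (4 + c) + ε)) / η + 32 * (M ^ 2 * s ^ 2) / η +
          256 * (M ^ 2 * s ^ 2) / η ^ 2 := by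
      have q1 : 32 * (M ^ 2 * s ^ 2) / η = 4 * (8 * (M ^ 2 * s ^ 2) / η) := by ring
      have q2 : 256 * (M ^ 2 * s ^ 2) / η ^ 2 = 4 * (64 * (M ^ 2 * s ^ 2) / η ^ 2) := by ring
      rw [q1, q2]
      linarith
    have tot2 : 2 * Real.exp (psi z1) ≤ 2 * c * lam z1 + ε +
        8 * (lam z1 * (4 + c) + ε) / η + 32 * (lam z1 + ε) / η + 256 * (lam z1 + ε) / η ^ 2 := by
      have hs2 : 0 < s ^ 2 := by positivity
      have e3 : s ^ 2 * (2 * c * lam z1) + s ^ 2 * ε +
        8 * (s ^ 2 * (lam z1 * (4 + c) + ε)) / η + 32 * (M ^ 2 * s ^ 2) / η +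
          256 * (M ^ 2 * s ^ 2) / η ^ 2 = (2 * c * lam z1 + ε +
        8 * (lam z1 * (4 + c) + ε) / η + 32 * (lam z1 + ε) / η + 256 * (lam z1 + ε) / η ^ 2) *
          s ^ 2 := by rw [hMsq]; ring
      rw [e3] at tot
      exact le_of_mul_le_mul_right tot hs2
    -- multiply by η ^ 2
    have hη2 : 0 < η ^ 2 := by positivity
    have hη21 : η ^ 2 ≤ 1 := pow_le_one₀ hη0.le hη1
    have m1 := mul_le_mul_of_nonneg_right tot2 hη2.le
    have e4 : (2 * c * lam z1 + ε + 8 * (lam z1 * (4 + c) + ε) / η + 32 * (lam z1 + ε) / η +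
        256 * (lam z1 + ε) / η ^ 2) * η ^ 2 = (2 * c * lam z1 + ε) * η ^ 2 +
        (8 * (lam z1 * (4 + c) + ε) + 32 * (lam z1 + ε)) * η + 256 * (lam z1 + ε) := by
      field_simp
      ring
    rw [e4] at m1
    have hle : 0 ≤ lam z1 + ε := by linarith
    have m2 : (2 * c * lam z1 + ε) * η ^ 2 ≤ (2 * c * lam z1 + ε) * 1 := by
      apply mul_le_mul_of_nonneg_left hη21; positivity
    have m3 : (8 * (lam z1 * (4 + c) + ε) + 32 * (lam z1 + ε)) * η ≤
        (8 * (lam z1 * (4 + c) + ε) + 32 * (lam z1 + ε)) * 1 := by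
      apply mul_le_mul_of_nonneg_left hη1; positivity
    nlinarith
  have main2 : Real.exp (psi z1) * η ^ 2 ≤ lam z1 * (160 + 5 * c) := by
    apply le_of_forall_pos_le_add
    intro ε hε
    have := main (ε / 149) (by positivity)
    linarith
  have hgz1 : g z1 ≤ 160 + 5 * c := by
    simp only [hg]
    rw [← hs1, ← hη, div_mul_eq_mul_div, div_le_iff₀ hl1]
    linarith
  have := hg01.trans hgz1
  rw [hgz0, div_le_iff₀ (h.pos z0)] at this
  exact this

end Pool.Agent.X154.HP
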