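import Pool.Agent.X154.HP.Ode
import Pool.Agent.X154.HP.YS

/-! # The Carleman type argument in logarithmic coordinates -/

set_option autoImplicit false

open Filter Topology MeasureTheory Set
open scoped ContDiff

namespace Pool.Agent.X154.HP

variable {lam : ℂ → ℝ}

lemma U_two (h : IsMetric lam) : ContDiff ℝ 2 (U lam) := (U_smooth h).of_le (by norm_cast)

/-- minus half of the logarithm of the density in logarithmic coordinates -/
noncomputable def Y (lam : ℂ → ℝ) (ζ : ℂ) : ℝ := -(1 / 2) * U lam (Complex.exp ζ) - ζ.re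

noncomputable def dY (lam : ℂ → ℝ) (ζ a : ℂ) : ℝ :=
  -(1 / 2) * fderiv ℝ (U lam) (Complex.exp ζ) (a * Complex.exp ζ) - a.re

noncomputable def ddY (lam : ℂ → ℝ) (ζ a : ℂ) : ℝ :=
  -(1 / 2) * (D2 (U lam) (Complex.exp ζ) (a * Complex.exp ζ) (a * Complex.exp ζ) +
    fderiv ℝ (U lam) (Complex.exp ζ) (a * (a * Complex.exp ζ)))

lemma Y_along (h : IsMetric lam) {g : ℝ → ℂ} {a : ℂ} {s : ℝ} (hg : HasDerivAt g a s) :
    HasDerivAt (fun s => Y lam (g s)) (dY lam (g s) a) s := by
  have h1 := along1 (U_two h) hg.cexp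
  have h2 : HasDerivAt (fun s => (g s).re) a.re s :=
    Complex.reCLM.hasFDerivAt.comp_hasDerivAt s hg
  have h3 := (h1.const_mul (-(1 / 2))).sub h2
  unfold Y dY
  rw [mul_comm a]
  exact h3

lemma dY_along (h : IsMetric lam) {g : ℝ → ℂ} {a : ℂ} {s : ℝ} (hg : HasDerivAt g a s) :
    HasDerivAt (fun s => dY lam (g s) a) (ddY lam (g s) a) s := by
  have h1 := along2 (U_two h) hg.cexp (hg.cexp.const_mul a)
  have h3 := (h1.const_mul (-(1 / 2))).sub_const a.re
  unfold dY ddY
  rw [mul_comm (Complex.exp (g s)) a] at h3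
  exact h3

lemma Y_smooth (h : IsMetric lam) : ContDiff ℝ 2 (Y lam) := by
  have h1 : ContDiff ℝ 2 (fun ζ => U lam (Complex.exp ζ)) := (U_two h).comp Complex.contDiff_exp
  have h2 : ContDiff ℝ 2 (fun ζ : ℂ => ζ.re) := Complex.reCLM.contDiff
  exact (contDiff_const.mul h1).sub h2

lemma Y_periodic (ζ : ℂ) : Y lam (ζ + 2 * Real.pi * Complex.I) = Y lam ζ := by
  unfold Y
  rw [Complex.exp_periodic]
  simp

lemma dY_periodic (ζ a : ℂ) : dY lam (ζ + 2 * Real.pi * Complex.I) a = dY lam ζ a := by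
  unfold dY
  rw [Complex.exp_periodic]

lemma cont_dY (h : IsMetric lam) (a : ℂ) : Continuous fun ζ => dY lam ζ a := by
  unfold dY
  exact (continuous_const.mul (cont_E1 (U_two h) Complex.continuous_exp
    (continuous_const.mul Complex.continuous_exp))).sub continuous_const

lemma cont_ddY (h : IsMetric lam) (a : ℂ) : Continuous fun ζ => ddY lam ζ a := by
  unfold ddY
  have h1 : Continuous fun ζ : ℂ => a * Complex.exp ζ := continuous_const.mul Complex.continuous_exp
  exact continuous_const.mul ((cont_E2 (U_two h) Complex.continuous_exp h1 h1).add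
    (cont_E1 (U_two h) Complex.continuous_exp (continuous_const.mul h1)))

lemma exp_neg_two_Y (h : IsMetric lam) (ζ : ℂ) :
    Real.exp (-2 * Y lam ζ) = Real.exp (2 * ζ.re) * lam (Complex.exp ζ) := by
  unfold Y U
  have e : -2 * (-(1 / 2) * Real.log (lam (Complex.exp ζ)) - ζ.re) =
      2 * ζ.re + Real.log (lam (Complex.exp ζ)) := by ring
  rw [e, Real.exp_add, Real.exp_log (h.pos _)]

lemma lapY (h : IsMetric lam) (ζ : ℂ) :
    ddY lam ζ 1 + ddY lam ζ Complex.I =
      -(1 / 2) * (Real.exp (2 * ζ.re) * lap (U lam) (Complex.exp ζ)) := by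
  have hr := lap_rot2 (U_two h) (Complex.exp ζ) (Complex.exp ζ)
  rw [Complex.norm_exp] at hr
  have hee : Real.exp ζ.re ^ 2 = Real.exp (2 * ζ.re) := by
    rw [← Real.exp_nat_mul]; norm_num
  rw [hee] at hr
  unfold ddY
  have e1 : Complex.I * (Complex.I * Complex.exp ζ) = -Complex.exp ζ := by
    rw [← mul_assoc, Complex.I_mul_I]; ring
  rw [e1, map_neg, one_mul, one_mul, ← hr]
  ring

/-- the test function -/
noncomputable def VV (lam : ℂ → ℝ) (M : ℝ) (ζ : ℂ) : ℝ := phi (Y lam ζ - M)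

noncomputable def V1 (lam : ℂ → ℝ) (M : ℝ) (ζ a : ℂ) : ℝ :=
  4 * (max (Y lam ζ - M) 0) ^ 3 * dY lam ζ a

noncomputable def V2 (lam : ℂ → ℝ) (M : ℝ) (ζ a : ℂ) : ℝ :=
  12 * (max (Y lam ζ - M) 0) ^ 2 * dY lam ζ a ^ 2 + 4 * (max (Y lam ζ - M) 0) ^ 3 * ddY lam ζ a

lemma V_along (h : IsMetric lam) (M : ℝ) {g : ℝ → ℂ} {a : ℂ} {s : ℝ} (hg : HasDerivAt g a s) :
    HasDerivAt (fun s => VV lam M (g s)) (V1 lam M (g s) a) s := by
  have h1 := (Y_along h hg).sub_const M
  exact (phi_d (Y lam (g s) - M)).comp s h1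

lemma V1_along (h : IsMetric lam) (M : ℝ) {g : ℝ → ℂ} {a : ℂ} {s : ℝ} (hg : HasDerivAt g a s) :
    HasDerivAt (fun s => V1 lam M (g s) a) (V2 lam M (g s) a) s := by
  have h1 := (Y_along h hg).sub_const M
  have h2 : HasDerivAt (fun s => 4 * (max (Y lam (g s) - M) 0) ^ 3)
      (12 * (max (Y lam (g s) - M) 0) ^ 2 * dY lam (g s) a) s :=
    HasDerivAt.comp (h₂ := fun t : ℝ => 4 * (max t 0) ^ 3) s (phi_dd (Y lam (g s) - M)) h1
  have h3 := h2.mul (dY_along h hg)
  unfold V1 V2
  convert! h3 using 1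
  ring

lemma VV_smooth (h : IsMetric lam) (M : ℝ) : ContDiff ℝ 2 (VV lam M) :=
  phi_contDiff.comp ((Y_smooth h).sub contDiff_const)

lemma VV_nonneg (M : ℝ) (ζ : ℂ) : 0 ≤ VV lam M ζ := by
  unfold VV phi; positivity

lemma VV_periodic (M : ℝ) (ζ : ℂ) : VV lam M (ζ + 2 * Real.pi * Complex.I) = VV lam M ζ := by
  unfold VV; rw [Y_periodic]

lemma V1_periodic (M : ℝ) (ζ a : ℂ) :
    V1 lam M (ζ + 2 * Real.pi * Complex.I) a = V1 lam M ζ a := by
  unfold V1; rw [Y_periodic, dY_periodic]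

lemma cont_V1 (h : IsMetric lam) (M : ℝ) (a : ℂ) : Continuous fun ζ => V1 lam M ζ a := by
  have hY := (Y_smooth h).continuous
  have hd := cont_dY h a
  unfold V1; fun_prop

lemma cont_V2 (h : IsMetric lam) (M : ℝ) (a : ℂ) : Continuous fun ζ => V2 lam M ζ a := by
  have hY := (Y_smooth h).continuous
  have hd := cont_dY h a
  have hdd := cont_ddY h a
  unfold V2; fun_prop

lemma D2_VV (h : IsMetric lam) (M : ℝ) (z a : ℂ) : D2 (VV lam M) z a a = V2 lam M z a := by
  have hg : ∀ s : ℝ, HasDerivAt (fun s : ℝ => z + s * a) a s := by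
    intro s
    have := ((Complex.ofRealCLM.hasDerivAt (x := s)).mul_const a).const_add z
    simpa using this
  have h1 : ∀ s : ℝ, fderiv ℝ (VV lam M) (z + s * a) a = V1 lam M (z + s * a) a := fun s =>
    (along1 (VV_smooth h M) (hg s)).unique (V_along h M (hg s))
  have h2 := along2 (VV_smooth h M) (hg 0) (hasDerivAt_const 0 a)
  have h3 := V1_along h M (hg 0)
  have h4 : (fun s : ℝ => fderiv ℝ (VV lam M) (z + s * a) a) =
      fun s : ℝ => V1 lam M (z + s * a) a := funext h1
  rw [h4] at h2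
  have h5 := h2.unique h3
  simpa using h5

/-- the lower bound of the Laplacian -/
lemma V2_lower (h : IsMetric lam) {c : ℝ} (hc : 0 ≤ c) (hK : ∀ z, lap (U lam) z ≤ 2 * c * lam z)
    {M : ℝ} (hM : 0 ≤ M) (ζ : ℂ) :
    -(4 * c) + 12 * (max (Y lam ζ - M) 0) ^ 2 * dY lam ζ Complex.I ^ 2 ≤
      V2 lam M ζ 1 + V2 lam M ζ Complex.I := by
  set t := max (Y lam ζ - M) 0 with ht
  have ht0 : 0 ≤ t := le_max_right _ _
  have h1 : -(c * Real.exp (-2 * Y lam ζ)) ≤ ddY lam ζ 1 + ddY lam ζ Complex.I := by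
    rw [lapY h, exp_neg_two_Y h]
    have h2 := mul_le_mul_of_nonneg_left (hK (Complex.exp ζ)) (Real.exp_pos (2 * ζ.re)).le
    nlinarith
  have h3 : t ^ 3 * Real.exp (-2 * Y lam ζ) ≤ 1 := by
    rcases le_total (Y lam ζ - M) 0 with h4 | h4
    · have : t = 0 := max_eq_right h4
      rw [this]; norm_num
    · have h5 : t = Y lam ζ - M := max_eq_left h4
      have h6 : t ≤ Y lam ζ := by linarith
      have h7 : Real.exp (-2 * Y lam ζ) ≤ Real.exp (-(2 * t)) :=
        Real.exp_le_exp.mpr (by linarith)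
      have h8 : t ^ 3 ≤ Real.exp (2 * t) := by
        have := Real.pow_div_factorial_le_exp (2 * t) (by positivity) 3
        have h9 : (2 * t) ^ 3 / (Nat.factorial 3 : ℝ) = 4 / 3 * t ^ 3 := by
          norm_num [Nat.factorial]; ring
        rw [h9] at this
        have : 0 ≤ t ^ 3 := by positivity
        linarith
      calc t ^ 3 * Real.exp (-2 * Y lam ζ) ≤ Real.exp (2 * t) * Real.exp (-(2 * t)) :=
            mul_le_mul h8 h7 (Real.exp_pos _).le (Real.exp_pos _).le
        _ = 1 := by rw [← Real.exp_add]; simp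
  have h10 : V2 lam M ζ 1 + V2 lam M ζ Complex.I = 12 * t ^ 2 * dY lam ζ 1 ^ 2 +
      12 * t ^ 2 * dY lam ζ Complex.I ^ 2 + 4 * t ^ 3 * (ddY lam ζ 1 + ddY lam ζ Complex.I) := by
    unfold V2
    rw [← ht]; ring
  rw [h10]
  have h11 : 0 ≤ 12 * t ^ 2 * dY lam ζ 1 ^ 2 := by positivity
  have h12 : 4 * t ^ 3 * (-(c * Real.exp (-2 * Y lam ζ))) ≤
      4 * t ^ 3 * (ddY lam ζ 1 + ddY lam ζ Complex.I) :=
    mul_le_mul_of_nonneg_left h1 (by positivity)
  have h13 : c * (t ^ 3 * Real.exp (-2 * Y lam ζ)) ≤ c * 1 := mul_le_mul_of_nonneg_left h3 hc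
  nlinarith

lemma lapVV (h : IsMetric lam) {c : ℝ} (hc : 0 ≤ c) (hK : ∀ z, lap (U lam) z ≤ 2 * c * lam z)
    {M : ℝ} (hM : 0 ≤ M) (ζ : ℂ) : -(4 * c) ≤ lap (VV lam M) ζ := by
  unfold lap
  rw [D2_VV h, D2_VV h]
  have h1 := V2_lower h hc hK hM ζ
  have h2 : 0 ≤ 12 * (max (Y lam ζ - M) 0) ^ 2 * dY lam ζ Complex.I ^ 2 := by positivity
  linarith

/-- every circle around the origin has a point where `log lam` is at least its value at `0` -/
lemma exists_circle (h : IsMetric lam) (hK0 : ∀ z, 0 ≤ lap (U lam) z) (x : ℝ) :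
    ∃ y ∈ Icc (0 : ℝ) (2 * Real.pi), U lam 0 ≤ U lam (Complex.exp ((x : ℂ) + y * Complex.I)) := by
  have hpi := Real.pi_pos
  have hs := submean (U_two h) (δ := 0) (fun z => by simpa using hK0 z) 0 x
  simp only [zero_add, mul_zero, zero_mul, add_zero] at hs
  have hc : Continuous fun y : ℝ => U lam (Complex.exp ((x : ℂ) + y * Complex.I)) :=
    (U_two h).continuous.comp (by fun_prop)
  obtain ⟨y, hy, hmax⟩ := (isCompact_Icc (a := (0 : ℝ)) (b := 2 * Real.pi)).exists_isMaxOn
    ⟨0, by constructor <;> positivity⟩ hc.continuousOn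
  refine ⟨y, hy, ?_⟩
  have h1 : ∫ y in (0 : ℝ)..(2 * Real.pi), U lam (Complex.exp ((x : ℂ) + y * Complex.I)) ≤
      ∫ _ in (0 : ℝ)..(2 * Real.pi), U lam (Complex.exp ((x : ℂ) + y * Complex.I)) :=
    intervalIntegral.integral_mono_on (by positivity) (hc.intervalIntegrable _ _)
      intervalIntegrable_const fun s hs => hmax hs
  rw [intervalIntegral.integral_const, smul_eq_mul, sub_zero] at h1
  have h2 : 2 * Real.pi * U lam 0 ≤ 2 * Real.pi * U lam (Complex.exp ((x : ℂ) + y * Complex.I)) :=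
    hs.trans h1
  exact le_of_mul_le_mul_left h2 (by positivity)

lemma cont_slice {F : ℝ → ℝ → ℝ} (hF : Continuous (Function.uncurry F)) (x : ℝ) :
    Continuous (F x) := hF.comp (by fun_prop : Continuous fun y => (x, y))

theorem Y_bdd (h : IsMetric lam) {c : ℝ} (hc : 0 ≤ c) (hK0 : ∀ z, 0 ≤ lap (U lam) z)
    (hK : ∀ z, lap (U lam) z ≤ 2 * c * lam z) {L : ℝ} (hL : 0 ≤ L)
    (hgrow : ∀ ζ : ℂ, 0 ≤ ζ.re → Y lam ζ ≤ ζ.re + L) :
    ∃ M2 : ℝ, ∀ ζ : ℂ, 1 ≤ ζ.re → Y lam ζ ≤ M2 := by
  have hpi := Real.pi_pos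
  obtain ⟨C1, hC1⟩ := (isCompact_closedBall (0 : ℂ) 1).exists_bound_of_continuousOn
    (U_two h).continuous.continuousOn
  have hC10 : 0 ≤ C1 := (norm_nonneg _).trans (hC1 0 (by simp))
  set M := C1 / 2 with hMdef
  have hM : 0 ≤ M := by positivity
  -- the mean function
  set F : ℝ → ℝ → ℝ := fun x y => VV lam M ((x : ℂ) + y * Complex.I) with hF
  set F1 : ℝ → ℝ → ℝ := fun x y => V1 lam M ((x : ℂ) + y * Complex.I) 1 with hF1
  set F11 : ℝ → ℝ → ℝ := fun x y => V2 lam M ((x : ℂ) + y * Complex.I) 1 with hF11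
  set F2 : ℝ → ℝ → ℝ := fun x y => V1 lam M ((x : ℂ) + y * Complex.I) Complex.I with hF2
  set F22 : ℝ → ℝ → ℝ := fun x y => V2 lam M ((x : ℂ) + y * Complex.I) Complex.I with hF22
  have hcc : Continuous fun q : ℝ × ℝ => (q.1 : ℂ) + q.2 * Complex.I := by fun_prop
  have gx : ∀ x y : ℝ, HasDerivAt (fun x : ℝ => (x : ℂ) + y * Complex.I) 1 x := fun x y =>
    (Complex.ofRealCLM.hasDerivAt (x := x)).add_const (y * Complex.I : ℂ)
  have gy : ∀ x y : ℝ, HasDerivAt (fun y : ℝ => (x : ℂ) + y * Complex.I) Complex.I y := by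
    intro x y
    have := ((Complex.ofRealCLM.hasDerivAt (x := y)).mul_const Complex.I).const_add (x : ℂ)
    simpa using this
  have cF : Continuous (Function.uncurry F) := (VV_smooth h M).continuous.comp hcc
  have cF1 : Continuous (Function.uncurry F1) := (cont_V1 h M 1).comp hcc
  have cF11 : Continuous (Function.uncurry F11) := (cont_V2 h M 1).comp hcc
  have cF22 : Continuous (Function.uncurry F22) := (cont_V2 h M Complex.I).comp hcc
  have dF : ∀ x y, HasDerivAt (fun x => F x y) (F1 x y) x := fun x y => V_along h M (gx x y)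
  have dF1 : ∀ x y, HasDerivAt (fun x => F1 x y) (F11 x y) x := fun x y => V1_along h M (gx x y)
  have dF2 : ∀ x y, HasDerivAt (fun y => F2 x y) (F22 x y) y := fun x y => V1_along h M (gy x y)
  have hper2 : ∀ x : ℝ, (x : ℂ) + ((2 * Real.pi : ℝ) : ℂ) * Complex.I =
      ((x : ℂ) + ((0 : ℝ) : ℂ) * Complex.I) + 2 * Real.pi * Complex.I := by
    intro x; push_cast; ring
  have int22 : ∀ x, ∫ y in (0 : ℝ)..(2 * Real.pi), F22 x y = 0 := by
    intro x
    have hc : Continuous (F22 x) := cont_slice cF22 x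
    rw [intervalIntegral.integral_eq_sub_of_hasDerivAt (fun y _ => dF2 x y)
      (hc.intervalIntegrable _ _)]
    simp only [hF2]
    rw [hper2, V1_periodic]; ring
  set a : ℝ → ℝ := fun x => ∫ y in (0 : ℝ)..(2 * Real.pi), F x y with ha
  have ha1 : ∀ x, HasDerivAt a (∫ y in (0 : ℝ)..(2 * Real.pi), F1 x y) x := fun x =>
    param_deriv cF cF1 dF 0 _ x
  have ha2 : ∀ x, HasDerivAt (fun x => ∫ y in (0 : ℝ)..(2 * Real.pi), F1 x y)
      (∫ y in (0 : ℝ)..(2 * Real.pi), F11 x y) x := fun x => param_deriv cF1 cF11 dF1 0 _ x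
  set μ : ℝ := 3 / (2 * Real.pi) ^ 2 with hμ
  have hμ0 : 0 < μ := by positivity
  have hcirc : ∀ x : ℝ, 0 ≤ x → ∃ y ∈ Icc (0 : ℝ) (2 * Real.pi),
      Y lam ((x : ℂ) + y * Complex.I) ≤ M := by
    intro x hx
    obtain ⟨y, hy, hy2⟩ := exists_circle h hK0 x
    refine ⟨y, hy, ?_⟩
    unfold Y
    have h1 := hC1 0 (by simp)
    rw [Real.norm_eq_abs] at h1
    have h2 := (abs_le.mp h1).1
    simp only [Complex.add_re, Complex.ofReal_re, Complex.mul_re, Complex.I_re, mul_zero,
      Complex.ofReal_im, Complex.I_im, mul_one, sub_self, add_zero]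
    linarith
  have ha3 : ∀ x, 0 ≤ x → μ * a x - 8 * Real.pi * c ≤ ∫ y in (0 : ℝ)..(2 * Real.pi), F11 x y := by
    intro x hx
    have c0 : Continuous (F x) := cont_slice cF x
    have c11 : Continuous (F11 x) := cont_slice cF11 x
    have c22 : Continuous (F22 x) := cont_slice cF22 x
    have e : ∫ y in (0 : ℝ)..(2 * Real.pi), F11 x y =
        ∫ y in (0 : ℝ)..(2 * Real.pi), (F11 x y + F22 x y) := by
      rw [intervalIntegral.integral_add (c11.intervalIntegrable _ _) (c22.intervalIntegrable _ _),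
        int22, add_zero]
    rw [e]
    obtain ⟨y0, hy0, hy0M⟩ := hcirc x hx
    -- the function w
    set w : ℝ → ℝ := fun y => (max (Y lam ((x : ℂ) + y * Complex.I) - M) 0) ^ 2 with hw
    set w' : ℝ → ℝ := fun y => 2 * (max (Y lam ((x : ℂ) + y * Complex.I) - M) 0) *
      dY lam ((x : ℂ) + y * Complex.I) Complex.I with hw'
    have hwd : ∀ y, HasDerivAt w (w' y) y := by
      intro y
      have h1 := (Y_along h (gy x y)).sub_const M
      exact HasDerivAt.comp (h₂ := fun t : ℝ => (max t 0) ^ 2) y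
        (sq_d (Y lam ((x : ℂ) + y * Complex.I) - M)) h1
    have hYc := (Y_smooth h).continuous
    have hdYc := cont_dY h Complex.I
    have hcy : Continuous fun y : ℝ => (x : ℂ) + y * Complex.I := by fun_prop
    have hw'c : Continuous w' :=
      (continuous_const.mul (((hYc.comp hcy).sub continuous_const).max continuous_const)).mul
        (hdYc.comp hcy)
    have hw0 : w y0 = 0 := by
      simp only [hw]
      rw [max_eq_right (by linarith)]; norm_num
    have hP := poincare (L := 2 * Real.pi) (by positivity) hwd hw'c hy0 hw0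
    have e2 : ∀ y, w y ^ 2 = F x y := by
      intro y
      simp only [hw, hF, VV, phi]
      ring
    simp_rw [e2] at hP
    have hP2 : μ * a x ≤ 3 * ∫ y in (0 : ℝ)..(2 * Real.pi), w' y ^ 2 := by
      have h5 : μ * a x ≤ μ * ((2 * Real.pi) ^ 2 * ∫ y in (0 : ℝ)..(2 * Real.pi), w' y ^ 2) :=
        mul_le_mul_of_nonneg_left hP hμ0.le
      have h6 : μ * (2 * Real.pi) ^ 2 = 3 := by rw [hμ]; field_simp
      calc μ * a x ≤ (μ * (2 * Real.pi) ^ 2) * ∫ y in (0 : ℝ)..(2 * Real.pi), w' y ^ 2 := by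
            linarith
        _ = _ := by rw [h6]
    have iw : IntervalIntegrable (fun y => 3 * w' y ^ 2) volume 0 (2 * Real.pi) := by
      apply Continuous.intervalIntegrable; fun_prop
    have iw2 : IntervalIntegrable (fun y => -(4 * c) + 3 * w' y ^ 2) volume 0 (2 * Real.pi) := by
      apply Continuous.intervalIntegrable; fun_prop
    have i12 : IntervalIntegrable (fun y => F11 x y + F22 x y) volume 0 (2 * Real.pi) :=
      (c11.add c22).intervalIntegrable _ _
    have hmono : ∫ y in (0 : ℝ)..(2 * Real.pi), (-(4 * c) + 3 * w' y ^ 2) ≤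
        ∫ y in (0 : ℝ)..(2 * Real.pi), (F11 x y + F22 x y) := by
      apply intervalIntegral.integral_mono_on (by positivity) iw2 i12
      intro y _
      have h7 := V2_lower h hc hK hM ((x : ℂ) + y * Complex.I)
      simp only [hF11, hF22, hw']
      refine le_trans (le_of_eq ?_) h7
      ring
    have hcalc : ∫ y in (0 : ℝ)..(2 * Real.pi), (-(4 * c) + 3 * w' y ^ 2) =
        -(8 * Real.pi * c) + 3 * ∫ y in (0 : ℝ)..(2 * Real.pi), w' y ^ 2 := by
      rw [intervalIntegral.integral_add intervalIntegrable_const iw,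
        intervalIntegral.integral_const, intervalIntegral.integral_const_mul]
      simp only [smul_eq_mul, sub_zero]
      ring
    rw [hcalc] at hmono
    linarith
  have ha0 : a 0 ≤ 0 := by
    simp only [ha]
    have : ∀ y : ℝ, F 0 y = 0 := by
      intro y
      simp only [hF, VV, phi]
      have h1 : Y lam (((0 : ℝ) : ℂ) + y * Complex.I) ≤ M := by
        unfold Y
        have h2 := hC1 (Complex.exp (((0 : ℝ) : ℂ) + y * Complex.I)) (by
          rw [mem_closedBall_zero_iff, norm_expc, Real.exp_zero])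
        rw [Real.norm_eq_abs] at h2
        have h3 := (abs_le.mp h2).1
        simp only [Complex.add_re, Complex.ofReal_re, Complex.mul_re, Complex.I_re, mul_zero,
          Complex.ofReal_im, Complex.I_im, mul_one, sub_self, add_zero]
        linarith
      rw [max_eq_right (by linarith)]; norm_num
    simp_rw [this]
    simp
  have hag : ∀ x, 0 ≤ x → a x ≤ (2 * Real.pi) * (x + L) ^ 4 := by
    intro x hx
    have c0 : Continuous (F x) := cont_slice cF x
    calc a x ≤ ∫ _ in (0 : ℝ)..(2 * Real.pi), (x + L) ^ 4 := by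
          apply intervalIntegral.integral_mono_on (by positivity) (c0.intervalIntegrable _ _)
            intervalIntegrable_const
          intro y _
          simp only [hF, VV, phi]
          have h1 := hgrow ((x : ℂ) + y * Complex.I) (by simpa using hx)
          simp only [Complex.add_re, Complex.ofReal_re, Complex.mul_re, Complex.I_re, mul_zero,
            Complex.ofReal_im, Complex.I_im, mul_one, sub_self, add_zero] at h1
          have h2 : max (Y lam ((x : ℂ) + y * Complex.I) - M) 0 ≤ x + L := by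
            apply max_le <;> linarith
          exact pow_le_pow_left₀ (le_max_right _ _) h2 4
      _ = (2 * Real.pi) * (x + L) ^ 4 := by
          rw [intervalIntegral.integral_const, smul_eq_mul, sub_zero]
  have hab := ode_bound ha1 ha2 hμ0 (by positivity : 0 ≤ 8 * Real.pi * c)
    (by positivity : 0 < 2 * Real.pi) ha3 ha0 hag
  set A := 8 * Real.pi * c / μ with hA
  have hA0 : 0 ≤ A := by positivity
  refine ⟨M + 1 + (2 * A + Real.pi * (4 * c) / 8) / Real.pi, fun ζ hζ => ?_⟩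
  have hdisc := disc_bound (VV_smooth h M) (VV_nonneg M) (by positivity : 0 ≤ 4 * c)
    (lapVV h hc hK hM) (VV_periodic M) ζ (A := A)
    (fun x hx => hab x (by linarith [hx.1]))
  have h1 : VV lam M ζ ≤ (2 * A + Real.pi * (4 * c) / 8) / Real.pi := by
    rw [le_div_iff₀ hpi]; linarith
  set C3 := (2 * A + Real.pi * (4 * c) / 8) / Real.pi with hC3
  have hC30 : 0 ≤ C3 := by positivity
  unfold VV phi at h1
  set t := max (Y lam ζ - M) 0 with ht
  have ht0 : 0 ≤ t := le_max_right _ _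
  have h2 : t ≤ 1 + C3 := by
    by_contra hneg
    push Not at hneg
    have h3 : 1 ≤ t := by linarith
    have h4 : t ≤ t ^ 4 := le_self_pow₀ h3 (by norm_num)
    linarith
  have h5 : Y lam ζ - M ≤ t := le_max_left _ _
  linarith

end Pool.Agent.X154.HP
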