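import Pool.Agent.X154.HP.Taylor

/-! # Sub-mean value inequality for `C²` functions, through logarithmic coordinates -/

set_option autoImplicit false

open Filter Topology MeasureTheory Set
open scoped ContDiff

namespace Pool.Agent.X154.HP

section C2

variable {v : ℂ → ℝ}

lemma cd_fderiv (hv : ContDiff ℝ 2 v) : ContDiff ℝ 1 (fderiv ℝ v) :=
  hv.fderiv_right (by norm_num)

lemma cd_D2 (hv : ContDiff ℝ 2 v) : ContDiff ℝ 0 (fderiv ℝ (fderiv ℝ v)) :=
  (cd_fderiv hv).fderiv_right (by norm_num)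

lemma hasE1 (hv : ContDiff ℝ 2 v) (z : ℂ) : HasFDerivAt v (fderiv ℝ v z) z :=
  (hv.differentiable (by norm_num)).differentiableAt.hasFDerivAt

lemma hasE2 (hv : ContDiff ℝ 2 v) (z : ℂ) :
    HasFDerivAt (fderiv ℝ v) (fderiv ℝ (fderiv ℝ v) z) z :=
  ((cd_fderiv hv).differentiable (by norm_num)).differentiableAt.hasFDerivAt

lemma E2_symm (hv : ContDiff ℝ 2 v) (z a b : ℂ) : D2 v z a b = D2 v z b a := by
  have h1 : ∀ᶠ y in 𝓝 z, HasFDerivAt v (fderiv ℝ v y) y := Eventually.of_forall fun y => hasE1 hv y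
  exact second_derivative_symmetric_of_eventually h1 (hasE2 hv z) a b

lemma lap_rot2 (hv : ContDiff ℝ 2 v) (z a : ℂ) :
    D2 v z a a + D2 v z (Complex.I * a) (Complex.I * a) = ‖a‖ ^ 2 * lap v z := by
  have e1 : a = a.re • (1 : ℂ) + a.im • Complex.I := by
    apply Complex.ext <;> simp
  have e2 : Complex.I * a = (-a.im) • (1 : ℂ) + a.re • Complex.I := by
    apply Complex.ext <;> simp
  have n : ‖a‖ ^ 2 = a.re ^ 2 + a.im ^ 2 := by
    rw [← Complex.normSq_eq_norm_sq, Complex.normSq_apply]; ring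
  have s := E2_symm hv z Complex.I 1
  have key : ∀ x y : ℝ, D2 v z (x • (1 : ℂ) + y • Complex.I) (x • (1 : ℂ) + y • Complex.I) =
      x ^ 2 * D2 v z 1 1 + 2 * x * y * D2 v z 1 Complex.I + y ^ 2 * D2 v z Complex.I Complex.I := by
    intro x y
    simp only [D2] at s ⊢
    simp only [map_add, map_smul, add_apply, smul_apply, smul_eq_mul]
    rw [s]
    ring
  have k1 := key a.re a.im
  rw [← e1] at k1
  have k2 := key (-a.im) a.re
  rw [← e2] at k2
  rw [k1, k2, n]
  unfold lap
  ring

lemma cont_E1 (hv : ContDiff ℝ 2 v) {X : Type*} [TopologicalSpace X] {g k : X → ℂ}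
    (hg : Continuous g) (hk : Continuous k) : Continuous fun x => fderiv ℝ v (g x) (k x) := by
  have h1 : Continuous fun p : ℂ × ℂ => fderiv ℝ v p.1 p.2 := by
    have : ContDiff ℝ 0 fun p : ℂ × ℂ => fderiv ℝ v p.1 p.2 :=
      (((cd_fderiv hv).of_le (by norm_num : (0 : WithTop ℕ∞) ≤ 1)).comp contDiff_fst).clm_apply
        contDiff_snd
    exact this.continuous
  exact h1.comp (hg.prodMk hk)

lemma cont_E2 (hv : ContDiff ℝ 2 v) {X : Type*} [TopologicalSpace X] {g k l : X → ℂ}
    (hg : Continuous g) (hk : Continuous k) (hl : Continuous l) :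
    Continuous fun x => D2 v (g x) (k x) (l x) := by
  have h1 : Continuous fun p : ℂ × ℂ × ℂ => D2 v p.1 p.2.1 p.2.2 := by
    have h2 : ContDiff ℝ 0 fun p : ℂ × ℂ × ℂ => fderiv ℝ (fderiv ℝ v) p.1 p.2.1 :=
      ((cd_D2 hv).comp contDiff_fst).clm_apply (contDiff_fst.comp contDiff_snd)
    have : ContDiff ℝ 0 fun p : ℂ × ℂ × ℂ => D2 v p.1 p.2.1 p.2.2 :=
      h2.clm_apply (contDiff_snd.comp contDiff_snd)
    exact this.continuous
  exact h1.comp (hg.prodMk (hk.prodMk hl))

/-- derivative along a curve -/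
lemma along1 (hv : ContDiff ℝ 2 v) {g : ℝ → ℂ} {g' : ℂ} {t : ℝ} (hg : HasDerivAt g g' t) :
    HasDerivAt (fun s => v (g s)) (fderiv ℝ v (g t) g') t :=
  (hasE1 hv (g t)).comp_hasDerivAt t hg

lemma along2 (hv : ContDiff ℝ 2 v) {g k : ℝ → ℂ} {g' k' : ℂ} {t : ℝ} (hg : HasDerivAt g g' t)
    (hk : HasDerivAt k k' t) :
    HasDerivAt (fun s => fderiv ℝ v (g s) (k s)) (D2 v (g t) g' (k t) + fderiv ℝ v (g t) k') t := by
  have h1 : HasDerivAt (fun s => fderiv ℝ v (g s)) (fderiv ℝ (fderiv ℝ v) (g t) g') t :=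
    (hasE2 hv (g t)).comp_hasDerivAt t hg
  exact h1.clm_apply hk

end C2

/-- differentiation under the integral sign -/
lemma param_deriv {F F' : ℝ → ℝ → ℝ} (hF : Continuous (Function.uncurry F))
    (hF' : Continuous (Function.uncurry F')) (hd : ∀ x y, HasDerivAt (fun x => F x y) (F' x y) x)
    (a b x0 : ℝ) :
    HasDerivAt (fun x => ∫ y in a..b, F x y) (∫ y in a..b, F' x0 y) x0 := by
  obtain ⟨C, hC⟩ := ((isCompact_Icc (a := x0 - 1) (b := x0 + 1)).prod
    (isCompact_uIcc (a := a) (b := b))).exists_bound_of_continuousOn hF'.continuousOn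
  have hFx : ∀ x, Continuous (F x) := fun x => hF.comp (by fun_prop : Continuous fun y => (x, y))
  have hF'x : ∀ x, Continuous (F' x) := fun x => hF'.comp (by fun_prop : Continuous fun y => (x, y))
  refine (intervalIntegral.hasDerivAt_integral_of_dominated_loc_of_deriv_le (F := F) (F' := F')
    (s := Icc (x0 - 1) (x0 + 1)) (bound := fun _ => C) (μ := volume)
    (Icc_mem_nhds (by linarith) (by linarith)) ?_ ?_ ?_ ?_ ?_ ?_).2
  · exact Eventually.of_forall fun x => (hFx x).aestronglyMeasurable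
  · exact (hFx x0).intervalIntegrable _ _
  · exact (hF'x x0).aestronglyMeasurable
  · refine Eventually.of_forall fun t ht x hx => ?_
    exact hC (x, t) ⟨hx, uIoc_subset_uIcc ht⟩
  · exact intervalIntegrable_const
  · exact Eventually.of_forall fun t _ x _ => hd x t

lemma mono_of_convex_bdd {A A' A'' : ℝ → ℝ} (h1 : ∀ x, HasDerivAt A (A' x) x)
    (h2 : ∀ x, HasDerivAt A' (A'' x) x) (h3 : ∀ x, 0 ≤ A'' x) {B : ℝ} (hB : ∀ x ≤ 0, A x ≤ B) :
    Monotone A := by
  have hm : Monotone A' := monotone_of_hasDerivAt_nonneg h2 h3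
  refine monotone_of_hasDerivAt_nonneg h1 fun x0 => ?_
  change (0 : ℝ) ≤ A' x0
  by_contra hneg
  push Not at hneg
  have hn : 0 < -A' x0 := by linarith
  set K := (|B - A x0| + 1) / (-A' x0) with hK
  have hK0 : 0 < K := by positivity
  set x := min 0 x0 - K with hx
  have hx0 : x ≤ 0 := by have := min_le_left 0 x0; linarith
  have hxx : x < x0 := by have := min_le_right 0 x0; linarith
  obtain ⟨ξ, hξ, he⟩ := exists_hasDerivAt_eq_slope A A' hxx
    (fun y _ => (h1 y).continuousAt.continuousWithinAt) (fun y _ => h1 y)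
  have h4 : A' ξ ≤ A' x0 := hm hξ.2.le
  have hpos : 0 < x0 - x := by linarith
  rw [he, div_le_iff₀ hpos] at h4
  have h5 : K ≤ x0 - x := by have := min_le_right 0 x0; linarith
  have h6 : (-A' x0) * K = |B - A x0| + 1 := by
    rw [hK, ← mul_div_assoc, mul_div_cancel_left₀ _ hn.ne']
  have h7 : (-A' x0) * K ≤ (-A' x0) * (x0 - x) := mul_le_mul_of_nonneg_left h5 hn.le
  have h8 := hB x hx0
  have h9 := le_abs_self (B - A x0)
  linarith

lemma norm_expc (x y : ℝ) : ‖Complex.exp ((x : ℂ) + y * Complex.I)‖ = Real.exp x := by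
  rw [Complex.norm_exp]; simp

lemma expc_dx (x y : ℝ) : HasDerivAt (fun x : ℝ => Complex.exp ((x : ℂ) + y * Complex.I))
    (Complex.exp ((x : ℂ) + y * Complex.I)) x := by
  have h1 : HasDerivAt (fun x : ℝ => (x : ℂ) + y * Complex.I) 1 x :=
    (Complex.ofRealCLM.hasDerivAt (x := x)).add_const (y * Complex.I : ℂ)
  simpa using h1.cexp

lemma expc_dy (x y : ℝ) : HasDerivAt (fun y : ℝ => Complex.exp ((x : ℂ) + y * Complex.I))
    (Complex.I * Complex.exp ((x : ℂ) + y * Complex.I)) y := by
  have h1 : HasDerivAt (fun y : ℝ => (x : ℂ) + y * Complex.I) Complex.I y := by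
    have := ((Complex.ofRealCLM.hasDerivAt (x := y)).mul_const Complex.I).const_add (x : ℂ)
    simpa using this
  have := h1.cexp
  rwa [mul_comm] at this

lemma cont_expc : Continuous fun q : ℝ × ℝ => Complex.exp ((q.1 : ℂ) + q.2 * Complex.I) := by
  fun_prop

theorem submean {v : ℂ → ℝ} (hv : ContDiff ℝ 2 v) {δ : ℝ} (hlap : ∀ z, -δ ≤ lap v z) (p : ℂ)
    (x : ℝ) : 2 * Real.pi * v p ≤
      (∫ y in (0 : ℝ)..(2 * Real.pi), v (p + Complex.exp ((x : ℂ) + y * Complex.I))) +
        Real.pi / 2 * δ * Real.exp (2 * x) := by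
  have hpi := Real.pi_pos
  set E : ℝ → ℝ → ℂ := fun x y => Complex.exp ((x : ℂ) + y * Complex.I) with hE
  have hEc : Continuous (Function.uncurry E) := cont_expc
  have hEper : ∀ x, E x (2 * Real.pi) = E x 0 := by
    intro x
    simp only [hE]
    have : (x : ℂ) + ((2 * Real.pi : ℝ) : ℂ) * Complex.I = (x : ℂ) + ((0 : ℝ) : ℂ) * Complex.I +
        2 * Real.pi * Complex.I := by push_cast; ring
    rw [this, Complex.exp_periodic]
  have hEn : ∀ x y, ‖E x y‖ = Real.exp x := norm_expc
  set F : ℝ → ℝ → ℝ := fun x y => v (p + E x y) + δ / 4 * Real.exp (2 * x) with hF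
  set F1 : ℝ → ℝ → ℝ := fun x y => fderiv ℝ v (p + E x y) (E x y) + δ / 2 * Real.exp (2 * x)
    with hF1
  set F11 : ℝ → ℝ → ℝ := fun x y => D2 v (p + E x y) (E x y) (E x y) +
    fderiv ℝ v (p + E x y) (E x y) + δ * Real.exp (2 * x) with hF11
  set F2 : ℝ → ℝ → ℝ := fun x y => fderiv ℝ v (p + E x y) (Complex.I * E x y) with hF2
  set F22 : ℝ → ℝ → ℝ := fun x y => D2 v (p + E x y) (Complex.I * E x y) (Complex.I * E x y) -
    fderiv ℝ v (p + E x y) (E x y) with hF22
  have hdx : ∀ x y, HasDerivAt (fun x => p + E x y) (E x y) x := fun x y =>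
    (expc_dx x y).const_add p
  have hdy : ∀ x y, HasDerivAt (fun y => p + E x y) (Complex.I * E x y) y := fun x y =>
    (expc_dy x y).const_add p
  have hpE : Continuous fun q : ℝ × ℝ => p + E q.1 q.2 := continuous_const.add hEc
  have hIE : Continuous fun q : ℝ × ℝ => Complex.I * E q.1 q.2 := continuous_const.mul hEc
  have hexpd : ∀ x : ℝ, HasDerivAt (fun x : ℝ => Real.exp (2 * x)) (2 * Real.exp (2 * x)) x := by
    intro x
    have h1 : HasDerivAt (fun x : ℝ => 2 * x) 2 x := by
      simpa using (hasDerivAt_id x).const_mul 2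
    have := h1.exp
    rwa [mul_comm] at this
  have hexpc : Continuous fun q : ℝ × ℝ => Real.exp (2 * q.1) := by fun_prop
  have cF : Continuous (Function.uncurry F) :=
    (hv.continuous.comp hpE).add (continuous_const.mul hexpc)
  have cF1 : Continuous (Function.uncurry F1) :=
    (cont_E1 hv hpE hEc).add (continuous_const.mul hexpc)
  have cF11 : Continuous (Function.uncurry F11) :=
    ((cont_E2 hv hpE hEc hEc).add (cont_E1 hv hpE hEc)).add (continuous_const.mul hexpc)
  have cF22 : Continuous (Function.uncurry F22) :=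
    (cont_E2 hv hpE hIE hIE).sub (cont_E1 hv hpE hEc)
  have dF : ∀ x y, HasDerivAt (fun x => F x y) (F1 x y) x := by
    intro x y
    have h1 := along1 hv (hdx x y)
    have h2 := (hexpd x).const_mul (δ / 4)
    have h3 := h1.add h2
    convert! h3 using 1
    simp only [hF1]; ring
  have dF1 : ∀ x y, HasDerivAt (fun x => F1 x y) (F11 x y) x := by
    intro x y
    have h1 := along2 hv (hdx x y) (expc_dx x y)
    have h2 := (hexpd x).const_mul (δ / 2)
    have h3 := h1.add h2
    convert! h3 using 1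
    simp only [hF11, hE]; ring
  have dF2 : ∀ x y, HasDerivAt (fun y => F2 x y) (F22 x y) y := by
    intro x y
    have h1 := along2 hv (hdy x y) ((expc_dy x y).const_mul Complex.I)
    convert! h1 using 1
    simp only [hF22]
    have e : Complex.I * (Complex.I * Complex.exp ((x : ℂ) + y * Complex.I)) = -(E x y) := by
      simp only [hE]
      rw [← mul_assoc, Complex.I_mul_I]; ring
    rw [e, map_neg]
    ring
  have int22 : ∀ x, ∫ y in (0 : ℝ)..(2 * Real.pi), F22 x y = 0 := by
    intro x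
    have hc : Continuous (F22 x) := cF22.comp (by fun_prop : Continuous fun y => (x, y))
    rw [intervalIntegral.integral_eq_sub_of_hasDerivAt (fun y _ => dF2 x y)
      (hc.intervalIntegrable _ _)]
    simp only [hF2]
    rw [hEper]; ring
  set A : ℝ → ℝ := fun x => ∫ y in (0 : ℝ)..(2 * Real.pi), F x y with hA
  have hA1 : ∀ x, HasDerivAt A (∫ y in (0 : ℝ)..(2 * Real.pi), F1 x y) x := fun x =>
    param_deriv cF cF1 dF 0 _ x
  have hA2 : ∀ x, HasDerivAt (fun x => ∫ y in (0 : ℝ)..(2 * Real.pi), F1 x y)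
      (∫ y in (0 : ℝ)..(2 * Real.pi), F11 x y) x := fun x => param_deriv cF1 cF11 dF1 0 _ x
  have hA3 : ∀ x, 0 ≤ ∫ y in (0 : ℝ)..(2 * Real.pi), F11 x y := by
    intro x
    have c11 : Continuous (F11 x) := cF11.comp (by fun_prop : Continuous fun y => (x, y))
    have c22 : Continuous (F22 x) := cF22.comp (by fun_prop : Continuous fun y => (x, y))
    have e : ∫ y in (0 : ℝ)..(2 * Real.pi), F11 x y =
        ∫ y in (0 : ℝ)..(2 * Real.pi), (F11 x y + F22 x y) := by
      rw [intervalIntegral.integral_add (c11.intervalIntegrable _ _) (c22.intervalIntegrable _ _),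
        int22, add_zero]
    rw [e]
    apply intervalIntegral.integral_nonneg (by positivity)
    intro y _
    simp only [hF11, hF22]
    have hr := lap_rot2 hv (p + E x y) (E x y)
    have hl := hlap (p + E x y)
    rw [hEn] at hr
    have hee : Real.exp x ^ 2 = Real.exp (2 * x) := by
      rw [← Real.exp_nat_mul]; norm_num
    rw [hee] at hr
    have : 0 ≤ Real.exp (2 * x) * (lap v (p + E x y) + δ) :=
      mul_nonneg (Real.exp_pos _).le (by linarith)
    nlinarith
  -- local behaviour at minus infinity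
  have hloc : ∀ ε > 0, ∃ x1 : ℝ, ∀ x ≤ x1, |A x - 2 * Real.pi * (v p)| ≤
      2 * Real.pi * (ε + |δ| / 4 * Real.exp (2 * x)) := by
    intro ε hε
    obtain ⟨r, hr, hr'⟩ := Metric.continuous_iff.mp hv.continuous p ε hε
    refine ⟨Real.log (r / 2), fun x hx => ?_⟩
    have hxr : Real.exp x < r := by
      have : Real.exp x ≤ r / 2 := by
        rw [← Real.exp_log (by positivity : 0 < r / 2)]
        exact Real.exp_le_exp.mpr hx
      linarith
    have cFx : Continuous (F x) := cF.comp (by fun_prop : Continuous fun y => (x, y))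
    have e : A x - 2 * Real.pi * v p = ∫ y in (0 : ℝ)..(2 * Real.pi), (F x y - v p) := by
      rw [intervalIntegral.integral_sub (cFx.intervalIntegrable _ _) intervalIntegrable_const,
        intervalIntegral.integral_const]
      simp only [smul_eq_mul, sub_zero, hA]
    rw [e, ← Real.norm_eq_abs]
    have h1 : ∀ y ∈ Set.uIoc 0 (2 * Real.pi), ‖F x y - v p‖ ≤ ε + |δ| / 4 * Real.exp (2 * x) := by
      intro y _
      simp only [hF]
      have h2 := hr' (p + E x y) (by
        rw [dist_eq_norm, add_sub_cancel_left, hEn]; exact hxr)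
      rw [dist_eq_norm] at h2
      calc ‖v (p + E x y) + δ / 4 * Real.exp (2 * x) - v p‖ =
          ‖(v (p + E x y) - v p) + δ / 4 * Real.exp (2 * x)‖ := by congr 1; ring
        _ ≤ ‖v (p + E x y) - v p‖ + ‖δ / 4 * Real.exp (2 * x)‖ := norm_add_le _ _
        _ ≤ ε + |δ| / 4 * Real.exp (2 * x) := by
            apply add_le_add h2.le
            rw [norm_mul, Real.norm_eq_abs, Real.norm_eq_abs, abs_div, Real.abs_exp]
            norm_num
    have h3 := intervalIntegral.norm_integral_le_of_norm_le_const h1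
    rw [sub_zero, abs_of_pos (by positivity : (0 : ℝ) < 2 * Real.pi)] at h3
    linarith
  -- bounded at minus infinity
  have hmonoA : Monotone A := by
    obtain ⟨x1, hx1⟩ := hloc 1 one_pos
    have hAc : Continuous A := continuous_iff_continuousAt.mpr fun x => (hA1 x).continuousAt
    obtain ⟨C, hC⟩ := (isCompact_Icc (a := min x1 0) (b := 0)).exists_bound_of_continuousOn
      hAc.continuousOn
    apply mono_of_convex_bdd hA1 hA2 hA3 (B := max C (2 * Real.pi * (v p) + 2 * Real.pi *
      (1 + |δ| / 4)))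
    intro x hx
    rcases le_total (min x1 0) x with h1 | h1
    · exact ((le_abs_self _).trans (hC x ⟨h1, hx⟩)).trans (le_max_left _ _)
    · refine le_trans ?_ (le_max_right _ _)
      have h2 := (abs_le.mp (hx1 x (h1.trans (min_le_left _ _)))).2
      have h3 : Real.exp (2 * x) ≤ 1 := by
        rw [← Real.exp_zero]; exact Real.exp_le_exp.mpr (by linarith)
      have h4 : |δ| / 4 * Real.exp (2 * x) ≤ |δ| / 4 * 1 := by gcongr
      have h5 : 2 * Real.pi * (1 + |δ| / 4 * Real.exp (2 * x)) ≤ 2 * Real.pi * (1 + |δ| / 4) := by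
        apply mul_le_mul_of_nonneg_left _ (by positivity); linarith
      linarith
  have hAx : 2 * Real.pi * v p ≤ A x := by
    apply le_of_forall_pos_le_add
    intro ε hε
    obtain ⟨x1, hx1⟩ := hloc (ε / (4 * Real.pi)) (by positivity)
    -- choose x2 very small
    set κ := ε / (4 * Real.pi) / (|δ| / 4 + 1) with hκ
    have hκ0 : 0 < κ := by positivity
    set x2 := min x (min x1 (Real.log κ / 2)) with hx2
    have h1 : x2 ≤ x1 := (min_le_right _ _).trans (min_le_left _ _)
    have h2 : x2 ≤ x := min_le_left _ _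
    have h3 : 2 * x2 ≤ Real.log κ := by
      have := (min_le_right x _).trans (min_le_right x1 (Real.log κ / 2))
      linarith
    have h4 : Real.exp (2 * x2) ≤ κ := by
      rw [← Real.exp_log hκ0]; exact Real.exp_le_exp.mpr h3
    have h5 := (abs_le.mp (hx1 x2 h1)).1
    have h6 : |δ| / 4 * Real.exp (2 * x2) ≤ ε / (4 * Real.pi) := by
      have h7 : |δ| / 4 * Real.exp (2 * x2) ≤ (|δ| / 4 + 1) * κ := by
        have : 0 ≤ |δ| / 4 := by positivity
        apply mul_le_mul (by linarith) h4 (Real.exp_pos _).le (by positivity)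
      have h8 : (|δ| / 4 + 1) * κ = ε / (4 * Real.pi) := by
        rw [hκ]; field_simp
      linarith
    have h9 : 2 * Real.pi * (ε / (4 * Real.pi) + |δ| / 4 * Real.exp (2 * x2)) ≤ ε := by
      calc 2 * Real.pi * (ε / (4 * Real.pi) + |δ| / 4 * Real.exp (2 * x2)) ≤
          2 * Real.pi * (ε / (4 * Real.pi) + ε / (4 * Real.pi)) := by gcongr
        _ = ε := by field_simp; norm_num
    have h10 := hmonoA h2
    linarith
  have e : A x = (∫ y in (0 : ℝ)..(2 * Real.pi), v (p + E x y)) +
      Real.pi / 2 * δ * Real.exp (2 * x) := by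
    simp only [hA, hF]
    have hc : Continuous fun y => v (p + E x y) :=
      (hv.continuous.comp hpE).comp (by fun_prop : Continuous fun y => (x, y))
    rw [intervalIntegral.integral_add (hc.intervalIntegrable _ _) intervalIntegrable_const,
      intervalIntegral.integral_const]
    simp only [smul_eq_mul]
    ring
  rw [← e]
  exact hAx

end Pool.Agent.X154.HP
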