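import Mathlib

/-!
# Conformal metrics `lam |dz|²` on the plane: definitions
-/

set_option autoImplicit false

open Filter Topology MeasureTheory Set
open scoped ContDiff Laplacian

namespace Pool.Agent.X154.HP

/-- `lam |dz|²` is a (smooth) Kähler metric on `ℂ`. -/
structure IsMetric (lam : ℂ → ℝ) : Prop where
  smooth : ContDiff ℝ ∞ lam
  pos : ∀ z, 0 < lam z

/-- The length of the curve `γ : [0,1] → ℂ` in the metric `lam |dz|²`. -/
noncomputable def len (lam : ℂ → ℝ) (γ : ℝ → ℂ) : ℝ :=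
  ∫ t in (0 : ℝ)..1, Real.sqrt (lam (γ t)) * ‖deriv γ t‖

/-- The Riemannian distance of the metric `lam |dz|²`: the infimum of the lengths of the `C¹` curves
from `z` to `w`. -/
noncomputable def gdist (lam : ℂ → ℝ) (z w : ℂ) : ℝ :=
  sInf {L : ℝ | ∃ γ : ℝ → ℂ, ContDiff ℝ 1 γ ∧ γ 0 = z ∧ γ 1 = w ∧ L = len lam γ}

/-- The Gauss curvature `K = - Δ log lam / (2 lam)`. -/
noncomputable def gaussK (lam : ℂ → ℝ) (z : ℂ) : ℝ :=
  -(Δ (fun w => Real.log (lam w)) z) / (2 * lam z)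

/-- The metric is complete: the metric space `(ℂ, gdist)` is complete. -/
def Complete (lam : ℂ → ℝ) : Prop :=
  ∀ p : ℕ → ℂ, (∀ ε > 0, ∃ N, ∀ m ≥ N, ∀ n ≥ N, gdist lam (p m) (p n) < ε) →
    ∃ z, Tendsto (fun n => gdist lam (p n) z) atTop (𝓝 0)

/-- The Hadamard order of `f` in the metric `lam |dz|²`:
`limsup (log log |f p|) / log d(p, 0)` as `p → ∞`, points with `|f p| ≤ 1` being ignored. -/
noncomputable def OrdH (lam : ℂ → ℝ) (f : ℂ → ℂ) : EReal :=
  limsup (fun p : ℂ => ((Real.log (Real.log ‖f p‖) / Real.log (gdist lam p 0) : ℝ) : EReal))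
    (cocompact ℂ ⊓ 𝓟 {p | 1 < ‖f p‖})

end Pool.Agent.X154.HP
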