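import Pool.Agent.X154.HP.Cyl

/-! # Pointwise bound from bounds of integrals over circles of a cylinder -/

set_option autoImplicit false

open Filter Topology MeasureTheory Set
open scoped ContDiff

namespace Pool.Agent.X154.HP

lemma per_shift {f : ℝ → ℝ} (hf : Function.Periodic f (2 * Real.pi)) (s : ℝ) :
    ∫ y in (s)..(s + 2 * Real.pi), f y = ∫ y in (0 : ℝ)..(2 * Real.pi), f y := by
  have := hf.intervalIntegral_add_eq s 0
  rwa [zero_add] at this

theorem disc_bound {v : ℂ → ℝ} (hv : ContDiff ℝ 2 v) (h0 : ∀ z, 0 ≤ v z) {δ : ℝ} (hδ : 0 ≤ δ)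
    (hlap : ∀ z, -δ ≤ lap v z) (hper : ∀ z : ℂ, v (z + 2 * Real.pi * Complex.I) = v z) (p : ℂ)
    {A : ℝ} (hA : ∀ x ∈ Icc (p.re - 1) (p.re + 1),
      ∫ y in (0 : ℝ)..(2 * Real.pi), v ((x : ℂ) + y * Complex.I) ≤ A) :
    Real.pi * v p ≤ 2 * A + Real.pi * δ / 8 := by
  have hpi := Real.pi_pos
  have hpi3 := Real.pi_gt_three
  set H : ℝ × ℝ → ℝ := fun q => v (p + ((q.1 : ℂ) + q.2 * Complex.I)) with hH
  have hHc : Continuous H := by
    apply hv.continuous.comp
    fun_prop
  have hH0 : ∀ q, 0 ≤ H q := fun q => h0 _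
  set D : Set (ℝ × ℝ) := {q | q.1 ^ 2 + q.2 ^ 2 < 1} with hD
  have hDm : MeasurableSet D := by
    apply IsOpen.measurableSet
    exact isOpen_lt (by fun_prop) continuous_const
  set f : ℝ × ℝ → ℝ := D.indicator H with hf
  have hpolar := integral_comp_polarCoord_symm f
  -- the right-hand side
  have hR : ∫ q, f q ≤ 2 * A := by
    rw [hf, integral_indicator hDm]
    set Q : Set (ℝ × ℝ) := Icc (-1) 1 ×ˢ Icc (-Real.pi) Real.pi with hQ
    have hDQ : D ⊆ Q := by
      intro q hq
      have hq' : q.1 ^ 2 + q.2 ^ 2 < 1 := hq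
      have a1 : |q.1| ≤ 1 := by
        apply abs_le_of_sq_le_sq _ zero_le_one
        nlinarith [sq_nonneg q.2]
      have a2 : |q.2| ≤ 1 := by
        apply abs_le_of_sq_le_sq _ zero_le_one
        nlinarith [sq_nonneg q.1]
      refine ⟨abs_le.mp a1, ?_⟩
      have := abs_le.mp a2
      constructor <;> linarith
    have hQc : IsCompact Q := isCompact_Icc.prod isCompact_Icc
    have hint : IntegrableOn H Q volume := hHc.continuousOn.integrableOn_compact hQc
    have h1 : ∫ q in D, H q ≤ ∫ q in Q, H q :=
      setIntegral_mono_set hint (Eventually.of_forall hH0) hDQ.eventuallyLE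
    refine h1.trans ?_
    have h2 : ∫ q in Q, H q = ∫ x in Icc (-1 : ℝ) 1, ∫ y in Icc (-Real.pi) Real.pi, H (x, y) :=
      setIntegral_prod H hint
    rw [h2]
    have h3 : ∀ x : ℝ, ∫ y in Icc (-Real.pi) Real.pi, H (x, y) =
        ∫ y in (0 : ℝ)..(2 * Real.pi), v (((p.re + x : ℝ) : ℂ) + y * Complex.I) := by
      intro x
      rw [integral_Icc_eq_integral_Ioc, ← intervalIntegral.integral_of_le (by linarith)]
      have e1 : ∀ y : ℝ, H (x, y) = (fun y : ℝ => v (((p.re + x : ℝ) : ℂ) + y * Complex.I))
          (y + p.im) := by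
        intro y
        simp only [hH]
        congr 1
        apply Complex.ext <;> simp
        ring
      simp_rw [e1]
      rw [intervalIntegral.integral_comp_add_right
        (fun y : ℝ => v (((p.re + x : ℝ) : ℂ) + y * Complex.I))]
      have hp : Function.Periodic (fun y : ℝ => v (((p.re + x : ℝ) : ℂ) + y * Complex.I))
          (2 * Real.pi) := by
        intro y
        have := hper (((p.re + x : ℝ) : ℂ) + y * Complex.I)
        change v (((p.re + x : ℝ) : ℂ) + ((y + 2 * Real.pi : ℝ) : ℂ) * Complex.I) =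
          v (((p.re + x : ℝ) : ℂ) + y * Complex.I)
        rw [← this]
        congr 1
        push_cast
        ring
      have := per_shift hp (-Real.pi + p.im)
      rw [show -Real.pi + p.im + 2 * Real.pi = Real.pi + p.im by ring] at this
      exact this
    simp_rw [h3]
    rw [integral_Icc_eq_integral_Ioc, ← intervalIntegral.integral_of_le (by norm_num)]
    have hcont : Continuous fun x : ℝ =>
        ∫ y in (0 : ℝ)..(2 * Real.pi), v (((p.re + x : ℝ) : ℂ) + y * Complex.I) := by
      apply intervalIntegral.continuous_parametric_intervalIntegral_of_continuous'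
      apply hv.continuous.comp
      fun_prop
    calc ∫ x in (-1 : ℝ)..1, ∫ y in (0 : ℝ)..(2 * Real.pi),
          v (((p.re + x : ℝ) : ℂ) + y * Complex.I) ≤ ∫ _ in (-1 : ℝ)..1, A := by
          apply intervalIntegral.integral_mono_on (by norm_num) (hcont.intervalIntegrable _ _)
            intervalIntegrable_const
          intro x hx
          exact hA _ ⟨by linarith [hx.1], by linarith [hx.2]⟩
      _ = 2 * A := by
          rw [intervalIntegral.integral_const]; norm_num
  -- the left-hand side
  set g : ℝ × ℝ → ℝ := fun q => q.1 * H (q.1 * Real.cos q.2, q.1 * Real.sin q.2) with hg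
  have hgc : Continuous g := by
    apply continuous_fst.mul
    exact hHc.comp (by fun_prop)
  have hL : ∫ q in polarCoord.target, q.1 • f (polarCoord.symm q) =
      ∫ r in (0 : ℝ)..1, ∫ θ in (-Real.pi)..Real.pi, g (r, θ) := by
    have htar : polarCoord.target = Ioi (0 : ℝ) ×ˢ Ioo (-Real.pi) Real.pi := rfl
    have hsub : Ioo (0 : ℝ) 1 ×ˢ Ioo (-Real.pi) Real.pi ⊆ polarCoord.target := by
      rw [htar]
      exact prod_mono (fun x hx => hx.1) subset_rfl
    have hmem : ∀ q : ℝ × ℝ, 0 < q.1 → (polarCoord.symm q ∈ D ↔ q.1 < 1) := by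
      intro q hq
      have e : (q.1 * Real.cos q.2) ^ 2 + (q.1 * Real.sin q.2) ^ 2 = q.1 ^ 2 := by
        have := Real.cos_sq_add_sin_sq q.2
        calc _ = q.1 ^ 2 * (Real.cos q.2 ^ 2 + Real.sin q.2 ^ 2) := by ring
          _ = q.1 ^ 2 := by rw [this, mul_one]
      have : polarCoord.symm q ∈ D ↔ (q.1 * Real.cos q.2) ^ 2 + (q.1 * Real.sin q.2) ^ 2 < 1 :=
        Iff.rfl
      rw [this, e]
      constructor
      · intro h; nlinarith
      · intro h; nlinarith
    rw [setIntegral_eq_of_subset_of_forall_diff_eq_zero polarCoord.open_target.measurableSet hsub]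
    · have hcongr : ∫ q in Ioo (0 : ℝ) 1 ×ˢ Ioo (-Real.pi) Real.pi, q.1 • f (polarCoord.symm q) =
          ∫ q in Ioo (0 : ℝ) 1 ×ˢ Ioo (-Real.pi) Real.pi, g q := by
        apply setIntegral_congr_fun (measurableSet_Ioo.prod measurableSet_Ioo)
        intro q hq
        have hq1 : 0 < q.1 := hq.1.1
        have hq2 : q.1 < 1 := hq.1.2
        simp only [hf, hg, smul_eq_mul]
        rw [indicator_of_mem ((hmem q hq1).mpr hq2)]
        rfl
      rw [hcongr]
      have hint : IntegrableOn g (Ioo (0 : ℝ) 1 ×ˢ Ioo (-Real.pi) Real.pi) volume := by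
        have : IntegrableOn g (Icc (0 : ℝ) 1 ×ˢ Icc (-Real.pi) Real.pi) volume :=
          hgc.continuousOn.integrableOn_compact (isCompact_Icc.prod isCompact_Icc)
        exact this.mono_set (prod_mono Ioo_subset_Icc_self Ioo_subset_Icc_self)
      have h2 : ∫ q in Ioo (0 : ℝ) 1 ×ˢ Ioo (-Real.pi) Real.pi, g q =
          ∫ x in Ioo (0 : ℝ) 1, ∫ y in Ioo (-Real.pi) Real.pi, g (x, y) :=
        setIntegral_prod g hint
      rw [h2, ← integral_Ioc_eq_integral_Ioo, ← intervalIntegral.integral_of_le zero_le_one]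
      congr 1
      funext r
      rw [← integral_Ioc_eq_integral_Ioo, ← intervalIntegral.integral_of_le (by linarith)]
    · intro q hq
      have hq1 : 0 < q.1 := by
        have := hq.1
        rw [htar] at this
        exact this.1
      have hq2 : ¬ q.1 < 1 := by
        intro h
        apply hq.2
        have := hq.1
        rw [htar] at this
        exact ⟨⟨hq1, h⟩, this.2⟩
      have : polarCoord.symm q ∉ D := fun h => hq2 ((hmem q hq1).mp h)
      simp only [hf]
      rw [indicator_of_notMem this, smul_zero]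
  rw [hL] at hpolar
  -- the lower bound
  have hlow : ∀ r ∈ Icc (0 : ℝ) 1, r * (2 * Real.pi * v p - Real.pi / 2 * δ * r ^ 2) ≤
      ∫ θ in (-Real.pi)..Real.pi, g (r, θ) := by
    intro r hr
    rcases hr.1.eq_or_lt with h | h
    · rw [← h]; simp [hg]
    · have h1 := submean hv hlap p (Real.log r)
      have e1 : Real.exp (2 * Real.log r) = r ^ 2 := by
        rw [mul_comm, Real.exp_mul, Real.exp_log h]; norm_num
      rw [e1] at h1
      have e2 : ∀ θ : ℝ, g (r, θ) = r * (fun θ : ℝ => v (p + Complex.exp ((Real.log r : ℝ) +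
          θ * Complex.I))) θ := by
        intro θ
        simp only [hg, hH]
        congr 2
        rw [Complex.exp_add, ← Complex.ofReal_exp, Real.exp_log h, Complex.exp_mul_I]
        push_cast
        ring
      simp_rw [e2]
      rw [intervalIntegral.integral_const_mul]
      apply mul_le_mul_of_nonneg_left _ h.le
      have hp : Function.Periodic (fun θ : ℝ => v (p + Complex.exp ((Real.log r : ℝ) +
          θ * Complex.I))) (2 * Real.pi) := by
        intro y
        simp only []
        congr 2
        rw [show ((Real.log r : ℝ) : ℂ) + ((y + 2 * Real.pi : ℝ) : ℂ) * Complex.I =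
          ((Real.log r : ℝ) + y * Complex.I) + 2 * Real.pi * Complex.I by push_cast; ring,
          Complex.exp_periodic]
      have := per_shift hp (-Real.pi)
      rw [show -Real.pi + 2 * Real.pi = Real.pi by ring] at this
      rw [this]
      linarith
  have hfin : ∫ r in (0 : ℝ)..1, r * (2 * Real.pi * v p - Real.pi / 2 * δ * r ^ 2) ≤
      ∫ r in (0 : ℝ)..1, ∫ θ in (-Real.pi)..Real.pi, g (r, θ) := by
    have hcont : Continuous fun r : ℝ => ∫ θ in (-Real.pi)..Real.pi, g (r, θ) := by
      apply intervalIntegral.continuous_parametric_intervalIntegral_of_continuous'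
      exact hgc
    apply intervalIntegral.integral_mono_on zero_le_one
      ((by fun_prop : Continuous fun r : ℝ => r * (2 * Real.pi * v p - Real.pi / 2 * δ * r ^ 2)
        ).intervalIntegrable _ _) (hcont.intervalIntegrable _ _) hlow
  have hcalc : ∫ r in (0 : ℝ)..1, r * (2 * Real.pi * v p - Real.pi / 2 * δ * r ^ 2) =
      Real.pi * v p - Real.pi * δ / 8 := by
    have hd : ∀ r ∈ uIcc (0 : ℝ) 1, HasDerivAt (fun r : ℝ => Real.pi * v p * r ^ 2 -
        Real.pi / 8 * δ * r ^ 4) (r * (2 * Real.pi * v p - Real.pi / 2 * δ * r ^ 2)) r := by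
      intro r _
      have h1 := (hasDerivAt_pow 2 r).const_mul (Real.pi * v p)
      have h2 := (hasDerivAt_pow 4 r).const_mul (Real.pi / 8 * δ)
      convert! h1.sub h2 using 1
      norm_num
      ring
    rw [intervalIntegral.integral_eq_sub_of_hasDerivAt hd
      ((by fun_prop : Continuous fun r : ℝ => r * (2 * Real.pi * v p - Real.pi / 2 * δ * r ^ 2)
        ).intervalIntegrable _ _)]
    ring
  rw [hcalc, hpolar] at hfin
  linarith

end Pool.Agent.X154.HP
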