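import Pool.Agent.X154.HP.Carl

/-! # The main theorem on complete metrics with bounded nonpositive curvature -/

set_option autoImplicit false

open Filter Topology MeasureTheory Set
open scoped ContDiff Laplacian

namespace Pool.Agent.X154.HP

variable {lam : ℂ → ℝ}

lemma laplacian_eq_lap (z : ℂ) : Δ (fun w => Real.log (lam w)) z = lap (U lam) z := by
  have h1 := congrFun (InnerProductSpace.laplacian_eq_iteratedFDeriv_complexPlane
    (fun w : ℂ => Real.log (lam w))) z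
  rw [h1, iteratedFDeriv_two_apply, iteratedFDeriv_two_apply]
  rfl

lemma quartic (h : IsMetric lam) (hC : Complete lam) {c : ℝ} (hc : 0 ≤ c)
    (hK : ∀ z, lap (U lam) z ≤ 2 * c * lam z) :
    ∃ R : ℝ, 1 ≤ R ∧ ∃ κ : ℝ, 0 < κ ∧ ∀ z : ℂ, R ≤ ‖z‖ → κ / ‖z‖ ^ 4 ≤ lam z := by
  obtain ⟨M, hM0, hM⟩ := exists_max h 0 1
  obtain ⟨ρ, hρ⟩ := bounded_ball h hC 0 (M + 1)
  refine ⟨max 1 ρ + 1, by linarith [le_max_left 1 ρ], Real.exp (-1) / (160 + 5 * c), by positivity,
    fun z0 hz0 => ?_⟩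
  have hz1 : 1 ≤ ‖z0‖ := by linarith [le_max_left 1 ρ]
  have hball : ∀ z, gdist lam z0 z ≤ 1 → 1 ≤ ‖z‖ := by
    intro z hz
    by_contra hneg
    push Not at hneg
    have h1 : gdist lam 0 z ≤ M := by
      have h2 := gdist_le_ball h hM (z := 0) (w := z) (by simp) (by simpa using hneg.le)
      have h3 : ‖z - 0‖ ≤ 1 := by simpa using hneg.le
      calc gdist lam 0 z ≤ M * ‖z - 0‖ := h2
        _ ≤ M * 1 := mul_le_mul_of_nonneg_left h3 hM0.le
        _ = M := mul_one M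
    have h4 := gdist_triangle h 0 z z0
    rw [gdist_comm z z0] at h4
    have h5 := hρ z0 (by linarith)
    linarith [le_max_right 1 ρ]
  have h6 := ys h hC hc hK hball
  have h7 := le_exp_psi hz1
  have h8 : Real.exp (-1) / ‖z0‖ ^ 4 ≤ (160 + 5 * c) * lam z0 := h7.trans h6
  have h9 : 0 < 160 + 5 * c := by positivity
  rw [div_right_comm, div_le_iff₀ h9]
  linarith

lemma growth (h : IsMetric lam) (hC : Complete lam) {c : ℝ} (hc : 0 ≤ c)
    (hK : ∀ z, lap (U lam) z ≤ 2 * c * lam z) :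
    ∃ L : ℝ, 0 ≤ L ∧ ∀ ζ : ℂ, 0 ≤ ζ.re → Y lam ζ ≤ ζ.re + L := by
  obtain ⟨R, hR, κ, hκ, hq⟩ := quartic h hC hc hK
  obtain ⟨C, hCb⟩ := (isCompact_closedBall (0 : ℂ) R).exists_bound_of_continuousOn
    (U_two h).continuous.continuousOn
  have hC0 : 0 ≤ C := (norm_nonneg _).trans (hCb 0 (by simp; linarith))
  refine ⟨|Real.log κ| + C, by positivity, fun ζ hζ => ?_⟩
  have hn : ‖Complex.exp ζ‖ = Real.exp ζ.re := Complex.norm_exp ζ
  rcases le_total R ‖Complex.exp ζ‖ with h1 | h1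
  · have h2 := hq _ h1
    have h3 : Real.log (κ / ‖Complex.exp ζ‖ ^ 4) ≤ U lam (Complex.exp ζ) := by
      unfold U
      apply Real.log_le_log _ h2
      rw [hn]; positivity
    rw [Real.log_div hκ.ne' (by rw [hn]; positivity), Real.log_pow, hn, Real.log_exp] at h3
    unfold Y
    push_cast at h3
    have h4 := neg_abs_le (Real.log κ)
    have h5 := abs_nonneg (Real.log κ)
    linarith
  · have h2 := hCb (Complex.exp ζ) (by simpa using h1)
    rw [Real.norm_eq_abs] at h2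
    have h3 := (abs_le.mp h2).1
    unfold Y
    have h5 := abs_nonneg (Real.log κ)
    linarith

/-- the density is at least `κ / (1 + |z|²)` -/
theorem lower (h : IsMetric lam) (hC : Complete lam) {c : ℝ} (hc : 0 ≤ c)
    (hK0 : ∀ z, 0 ≤ lap (U lam) z) (hK : ∀ z, lap (U lam) z ≤ 2 * c * lam z) :
    ∃ κ : ℝ, 0 < κ ∧ ∀ z : ℂ, κ / (1 + ‖z‖ ^ 2) ≤ lam z := by
  obtain ⟨L, hL, hg⟩ := growth h hC hc hK
  obtain ⟨M2, hM2⟩ := Y_bdd h hc hK0 hK hL hg
  obtain ⟨m, hm0, hm⟩ := exists_min h 0 (Real.exp 1)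
  refine ⟨min (m ^ 2) (Real.exp (-2 * M2)), by positivity, fun z => ?_⟩
  have h1z : (0 : ℝ) < 1 + ‖z‖ ^ 2 := by positivity
  rw [div_le_iff₀ h1z]
  have hlz := h.pos z
  rcases le_total ‖z‖ (Real.exp 1) with h1 | h1
  · have h2 : m ≤ Real.sqrt (lam z) := hm z (by simpa using h1)
    have h3 : m ^ 2 ≤ lam z := by
      calc m ^ 2 ≤ Real.sqrt (lam z) ^ 2 := pow_le_pow_left₀ hm0.le h2 2
        _ = lam z := Real.sq_sqrt hlz.le
    calc min (m ^ 2) (Real.exp (-2 * M2)) ≤ m ^ 2 := min_le_left _ _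
      _ ≤ lam z * 1 := by linarith
      _ ≤ lam z * (1 + ‖z‖ ^ 2) := by
          apply mul_le_mul_of_nonneg_left _ hlz.le
          have := sq_nonneg ‖z‖
          linarith
  · have hz0 : 0 < ‖z‖ := (Real.exp_pos 1).trans_le h1
    have hzne : z ≠ 0 := norm_pos_iff.mp hz0
    have h2 : 1 ≤ (Complex.log z).re := by
      rw [Complex.log_re, ← Real.log_exp 1]
      exact Real.log_le_log (Real.exp_pos 1) h1
    have h3 := hM2 (Complex.log z) h2
    have h4 := exp_neg_two_Y h (Complex.log z)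
    rw [Complex.exp_log hzne, Complex.log_re] at h4
    have h5 : Real.exp (2 * Real.log ‖z‖) = ‖z‖ ^ 2 := by
      rw [mul_comm, Real.exp_mul, Real.exp_log hz0]; norm_num
    rw [h5] at h4
    have h6 : Real.exp (-2 * M2) ≤ Real.exp (-2 * Y lam (Complex.log z)) :=
      Real.exp_le_exp.mpr (by linarith)
    calc min (m ^ 2) (Real.exp (-2 * M2)) ≤ Real.exp (-2 * M2) := min_le_right _ _
      _ ≤ ‖z‖ ^ 2 * lam z := by rw [← h4]; exact h6
      _ ≤ lam z * (1 + ‖z‖ ^ 2) := by nlinarith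

/-- lower bound for the distance -/
theorem log_le_gdist (h : IsMetric lam) {κ : ℝ} (hκ : 0 < κ)
    (hl : ∀ z : ℂ, κ / (1 + ‖z‖ ^ 2) ≤ lam z) (z : ℂ) :
    Real.sqrt κ / 2 * Real.log (1 + ‖z‖ ^ 2) ≤ gdist lam 0 z := by
  apply le_gdist
  intro γ hγ h0 h1
  have hd : ∀ t, HasDerivAt (fun t => Real.sqrt κ / 2 * Real.log (1 + ‖γ t‖ ^ 2))
      (Real.sqrt κ / 2 * (2 * inner ℝ (γ t) (deriv γ t) / (1 + ‖γ t‖ ^ 2))) t := by
    intro t
    have h2 := ((hasDeriv hγ t).norm_sq).const_add 1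
    have h3 := h2.log (by positivity)
    exact h3.const_mul _
  have hc : Continuous fun t => Real.sqrt κ / 2 * (2 * inner ℝ (γ t) (deriv γ t) /
      (1 + ‖γ t‖ ^ 2)) := by
    have h2 := cont_deriv hγ
    have h3 := hγ.continuous
    apply continuous_const.mul
    apply Continuous.div
    · exact continuous_const.mul (h3.inner h2)
    · fun_prop
    · intro t; positivity
  have hI := intervalIntegral.integral_eq_sub_of_hasDerivAt (a := 0) (b := 1)
    (fun t _ => hd t) (hc.intervalIntegrable _ _)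
  have e0 : Real.log (1 + ‖(0 : ℂ)‖ ^ 2) = 0 := by simp
  rw [h0, h1, e0, mul_zero, sub_zero] at hI
  rw [← hI]
  unfold len
  apply intervalIntegral.integral_mono_on zero_le_one (hc.intervalIntegrable _ _)
    ((cont_speed h hγ).intervalIntegrable _ _)
  intro t _
  set n := ‖γ t‖ with hn
  have hn0 : 0 ≤ n := norm_nonneg _
  have hS : 0 < 1 + n ^ 2 := by positivity
  set S := Real.sqrt (1 + n ^ 2) with hSdef
  have hS0 : 0 < S := Real.sqrt_pos.mpr hS
  have hS2 : S ^ 2 = 1 + n ^ 2 := Real.sq_sqrt hS.le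
  have hnS : n ≤ S := by
    rw [hSdef]; apply Real.le_sqrt_of_sq_le; linarith
  have h4 : inner ℝ (γ t) (deriv γ t) ≤ n * ‖deriv γ t‖ := real_inner_le_norm _ _
  have h5 : Real.sqrt κ / S ≤ Real.sqrt (lam (γ t)) := by
    rw [hSdef, ← Real.sqrt_div' κ hS.le]
    exact Real.sqrt_le_sqrt (hl (γ t))
  calc Real.sqrt κ / 2 * (2 * inner ℝ (γ t) (deriv γ t) / (1 + n ^ 2))
      ≤ Real.sqrt κ / 2 * (2 * (S * ‖deriv γ t‖) / (1 + n ^ 2)) := by
        have h6 : n * ‖deriv γ t‖ ≤ S * ‖deriv γ t‖ :=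
          mul_le_mul_of_nonneg_right hnS (norm_nonneg _)
        have h7 : inner ℝ (γ t) (deriv γ t) ≤ S * ‖deriv γ t‖ := h4.trans h6
        gcongr
    _ = Real.sqrt κ / S * ‖deriv γ t‖ := by
        rw [← hS2]; field_simp
    _ ≤ Real.sqrt (lam (γ t)) * ‖deriv γ t‖ := mul_le_mul_of_nonneg_right h5 (norm_nonneg _)

/-- the order of the identity -/
theorem ordH_id (C : ℝ) (hC : 0 < C)
    (hd : ∀ z : ℂ, Real.log (1 + ‖z‖ ^ 2) ≤ C * gdist lam z 0) :
    OrdH lam (fun z => z) ≤ 1 := by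
  unfold OrdH
  apply le_of_forall_gt
  intro b hb
  -- reduce to real b
  obtain ⟨r, hr1, hr2⟩ := EReal.lt_iff_exists_real_btwn.mp hb
  have hr1' : 1 < r := by exact_mod_cast hr1
  refine lt_of_le_of_lt ?_ hr2
  apply limsup_le_of_le
  · isBoundedDefault
  · apply Filter.Eventually.filter_mono inf_le_left
    set K := max 1 (|Real.log C| / (r - 1)) with hK
    have hK1 : 1 ≤ K := le_max_left _ _
    have hev : ∀ᶠ p : ℂ in cocompact ℂ, Real.exp (max 1 (C * Real.exp K)) ≤ ‖p‖ :=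
      (tendsto_norm_cocompact_atTop).eventually_ge_atTop _
    filter_upwards [hev] with p hp
    have hr0 : 0 < r - 1 := by linarith
    have hp0 : 0 < ‖p‖ := (Real.exp_pos _).trans_le hp
    have hlog : max 1 (C * Real.exp K) ≤ Real.log ‖p‖ := by
      rw [← Real.log_exp (max 1 (C * Real.exp K))]
      exact Real.log_le_log (Real.exp_pos _) hp
    have hl1 : 1 ≤ Real.log ‖p‖ := (le_max_left _ _).trans hlog
    have hl2 : C * Real.exp K ≤ Real.log ‖p‖ := (le_max_right _ _).trans hlog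
    have h1 : Real.log ‖p‖ ≤ C * gdist lam p 0 := by
      refine le_trans ?_ (hd p)
      apply Real.log_le_log hp0
      nlinarith [sq_nonneg (‖p‖ - 1)]
    set d := gdist lam p 0 with hdd
    have hdK : Real.exp K ≤ d := by
      have : C * Real.exp K ≤ C * d := hl2.trans h1
      exact le_of_mul_le_mul_left this hC
    have hd0 : 0 < d := (Real.exp_pos _).trans_le hdK
    have hlogd : K ≤ Real.log d := by
      rw [← Real.log_exp K]; exact Real.log_le_log (Real.exp_pos _) hdK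
    have hlogd0 : 0 < Real.log d := by linarith
    have h2 : Real.log (Real.log ‖p‖) ≤ Real.log C + Real.log d := by
      rw [← Real.log_mul hC.ne' hd0.ne']
      exact Real.log_le_log (by linarith) h1
    have h3 : Real.log C ≤ (r - 1) * Real.log d := by
      calc Real.log C ≤ |Real.log C| := le_abs_self _
        _ = (r - 1) * (|Real.log C| / (r - 1)) := by field_simp
        _ ≤ (r - 1) * Real.log d := by
            apply mul_le_mul_of_nonneg_left _ hr0.le
            exact (le_max_right _ _).trans hlogd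
    have h4 : Real.log (Real.log ‖p‖) / Real.log d ≤ r := by
      rw [div_le_iff₀ hlogd0]
      linarith
    exact_mod_cast h4

theorem main_theorem (h : IsMetric lam) (hC : Complete lam) {c : ℝ} (hc : 0 ≤ c)
    (hK : ∀ z, -c ≤ gaussK lam z ∧ gaussK lam z ≤ 0) :
    (∃ C : ℝ, 0 < C ∧ ∀ z : ℂ, Real.log (1 + ‖z‖ ^ 2) ≤ C * gdist lam z 0) ∧
      OrdH lam (fun z => z) ≤ 1 := by
  have hlap : ∀ z, gaussK lam z = -(lap (U lam) z) / (2 * lam z) := by
    intro z
    unfold gaussK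
    rw [laplacian_eq_lap]
  have hK0 : ∀ z, 0 ≤ lap (U lam) z := by
    intro z
    have h1 := (hK z).2
    have h2 := h.pos z
    rw [hlap, div_le_iff₀ (by positivity)] at h1
    linarith
  have hK1 : ∀ z, lap (U lam) z ≤ 2 * c * lam z := by
    intro z
    have h1 := (hK z).1
    have h2 := h.pos z
    rw [hlap, le_div_iff₀ (by positivity)] at h1
    linarith
  obtain ⟨κ, hκ, hl⟩ := lower h hC hc hK0 hK1
  have hd : ∀ z : ℂ, Real.log (1 + ‖z‖ ^ 2) ≤ 2 / Real.sqrt κ * gdist lam z 0 := by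
    intro z
    have h1 := log_le_gdist h hκ hl z
    have h2 : 0 < Real.sqrt κ := Real.sqrt_pos.mpr hκ
    rw [gdist_comm z 0]
    have h3 : Real.log (1 + ‖z‖ ^ 2) = 2 / Real.sqrt κ *
        (Real.sqrt κ / 2 * Real.log (1 + ‖z‖ ^ 2)) := by field_simp
    rw [h3]
    exact mul_le_mul_of_nonneg_left h1 (by positivity)
  have hCpos : 0 < 2 / Real.sqrt κ := by
    have h2 : 0 < Real.sqrt κ := Real.sqrt_pos.mpr hκ
    positivity
  exact ⟨⟨2 / Real.sqrt κ, hCpos, hd⟩, ordH_id _ hCpos hd⟩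

end Pool.Agent.X154.HP
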