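import Pool.Agent.X154.HP.Disc

/-! # One-dimensional lemmas: truncated powers, Poincaré, a differential inequality -/

set_option autoImplicit false

open Filter Topology MeasureTheory Set
open scoped ContDiff

namespace Pool.Agent.X154.HP

lemma tpow_deriv (n : ℕ) (hn : 1 ≤ n) (t : ℝ) :
    HasDerivAt (fun t : ℝ => (max t 0) ^ (n + 1)) ((n + 1) * (max t 0) ^ n) t := by
  rcases lt_trichotomy t 0 with h | h | h
  · have e : (fun t : ℝ => (max t 0) ^ (n + 1)) =ᶠ[𝓝 t] fun _ => 0 := by
      filter_upwards [Iio_mem_nhds h] with s hs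
      rw [max_eq_right (le_of_lt hs)]; simp
    have e2 : ((n : ℝ) + 1) * (max t 0) ^ n = 0 := by
      rw [max_eq_right h.le, zero_pow (by omega), mul_zero]
    rw [e2]
    exact (hasDerivAt_const t (0 : ℝ)).congr_of_eventuallyEq e
  · subst h
    have e2 : ((n : ℝ) + 1) * (max (0 : ℝ) 0) ^ n = 0 := by
      rw [max_self, zero_pow (by omega), mul_zero]
    rw [e2, hasDerivAt_iff_tendsto_slope_zero]
    have e3 : ∀ᶠ s : ℝ in 𝓝[≠] 0, (max s 0) ^ n =
        s⁻¹ • ((max (0 + s) 0) ^ (n + 1) - (max (0 : ℝ) 0) ^ (n + 1)) := by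
      filter_upwards [self_mem_nhdsWithin] with s hs
      have hs' : s ≠ 0 := hs
      rw [zero_add, max_self, zero_pow (by omega), sub_zero, smul_eq_mul]
      rcases le_total s 0 with h1 | h1
      · rw [max_eq_right h1, zero_pow (by omega), zero_pow (by omega), mul_zero]
      · rw [max_eq_left h1, pow_succ]
        field_simp
    refine Tendsto.congr' e3 ?_
    have hc : Continuous fun s : ℝ => (max s 0) ^ n := by fun_prop
    have := hc.tendsto 0
    rw [max_self, zero_pow (by omega)] at this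
    exact this.mono_left nhdsWithin_le_nhds
  · have e : (fun t : ℝ => (max t 0) ^ (n + 1)) =ᶠ[𝓝 t] fun t => t ^ (n + 1) := by
      filter_upwards [Ioi_mem_nhds h] with s hs
      rw [max_eq_left (le_of_lt hs)]
    rw [max_eq_left h.le]
    have := hasDerivAt_pow (n + 1) t
    simp only [Nat.add_sub_cancel] at this
    push_cast at this
    exact this.congr_of_eventuallyEq e

/-- the truncated fourth power -/
noncomputable def phi (t : ℝ) : ℝ := (max t 0) ^ 4

lemma phi_d (t : ℝ) : HasDerivAt phi (4 * (max t 0) ^ 3) t := by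
  have := tpow_deriv 3 (by norm_num) t
  norm_num at this
  exact this

lemma phi_dd (t : ℝ) : HasDerivAt (fun t : ℝ => 4 * (max t 0) ^ 3) (12 * (max t 0) ^ 2) t := by
  have := (tpow_deriv 2 (by norm_num) t).const_mul 4
  norm_num at this
  convert! this using 1
  ring

lemma sq_d (t : ℝ) : HasDerivAt (fun t : ℝ => (max t 0) ^ 2) (2 * (max t 0)) t := by
  have := tpow_deriv 1 (by norm_num) t
  norm_num at this
  exact this

lemma phi_contDiff : ContDiff ℝ 2 phi := by
  have h1 : deriv phi = fun t => 4 * (max t 0) ^ 3 := funext fun t => (phi_d t).deriv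
  have h2 : ContDiff ℝ 1 (fun t : ℝ => 4 * (max t 0) ^ 3) := by
    rw [contDiff_one_iff_deriv]
    refine ⟨fun t => (phi_dd t).differentiableAt, ?_⟩
    have : deriv (fun t : ℝ => 4 * (max t 0) ^ 3) = fun t => 12 * (max t 0) ^ 2 :=
      funext fun t => (phi_dd t).deriv
    rw [this]; fun_prop
  have h3 : ContDiff ℝ (1 + 1) phi := by
    rw [contDiff_succ_iff_deriv]
    refine ⟨fun t => (phi_d t).differentiableAt, by simp, ?_⟩
    rw [h1]; exact h2
  exact h3

/-- Poincaré inequality for a function with a zero -/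
lemma poincare {w w' : ℝ → ℝ} {L : ℝ} (hL : 0 < L) (hw : ∀ y, HasDerivAt w (w' y) y)
    (hc : Continuous w') {y0 : ℝ} (hy0 : y0 ∈ Icc 0 L) (h0 : w y0 = 0) :
    ∫ y in (0 : ℝ)..L, w y ^ 2 ≤ L ^ 2 * ∫ y in (0 : ℝ)..L, w' y ^ 2 := by
  set I1 := ∫ y in (0 : ℝ)..L, |w' y| with hI1
  set I2 := ∫ y in (0 : ℝ)..L, w' y ^ 2 with hI2
  have hwc : Continuous w := continuous_iff_continuousAt.mpr fun y => (hw y).continuousAt
  have hI10 : 0 ≤ I1 := intervalIntegral.integral_nonneg hL.le fun y _ => abs_nonneg _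
  have hcs : I1 ^ 2 ≤ L * I2 := by
    set m := I1 / L with hm
    have h1 : 0 ≤ ∫ y in (0 : ℝ)..L, (|w' y| - m) ^ 2 :=
      intervalIntegral.integral_nonneg hL.le fun y _ => sq_nonneg _
    have e : ∀ y, (|w' y| - m) ^ 2 = w' y ^ 2 - (2 * m) * |w' y| + m ^ 2 := by
      intro y
      rw [← sq_abs (w' y)]; ring
    simp_rw [e] at h1
    have i1 : IntervalIntegrable (fun y => w' y ^ 2) volume 0 L := (hc.pow 2).intervalIntegrable _ _
    have i2 : IntervalIntegrable (fun y => (2 * m) * |w' y|) volume 0 L :=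
      (continuous_const.mul hc.abs).intervalIntegrable _ _
    rw [intervalIntegral.integral_add (i1.sub i2) intervalIntegrable_const,
      intervalIntegral.integral_sub i1 i2, intervalIntegral.integral_const_mul,
      intervalIntegral.integral_const] at h1
    simp only [smul_eq_mul, sub_zero] at h1
    rw [← hI1, ← hI2] at h1
    have hmL : m * L = I1 := by rw [hm]; field_simp
    have h2 : I2 - 2 * m * I1 + L * m ^ 2 = I2 - m * I1 := by
      rw [← hmL]; ring
    rw [h2] at h1
    have h3 : 0 ≤ L * (I2 - m * I1) := mul_nonneg hL.le h1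
    have h4 : L * (m * I1) = I1 ^ 2 := by
      rw [← mul_assoc, mul_comm L m, hmL]; ring
    nlinarith
  have hpt : ∀ y ∈ Icc (0 : ℝ) L, w y ^ 2 ≤ L * I2 := by
    intro y hy
    have h1 : w y = ∫ s in y0..y, w' s := by
      rw [intervalIntegral.integral_eq_sub_of_hasDerivAt (fun s _ => hw s)
        (hc.intervalIntegrable _ _), h0, sub_zero]
    have h2 : |w y| ≤ I1 := by
      rw [h1]
      have h3 : |∫ s in y0..y, w' s| ≤ |∫ s in y0..y, (|w' s|)| := by
        have := intervalIntegral.norm_integral_le_abs_integral_norm (f := w') (a := y0) (b := y)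
          (μ := volume)
        simpa only [Real.norm_eq_abs] using this
      refine h3.trans ?_
      have hc2 : Continuous fun s => |w' s| := hc.abs
      rcases le_total y0 y with h4 | h4
      · rw [abs_of_nonneg (intervalIntegral.integral_nonneg h4 fun _ _ => abs_nonneg _)]
        exact intervalIntegral.integral_mono_interval hy0.1 h4 hy.2
          (Eventually.of_forall fun _ => abs_nonneg _) (hc2.intervalIntegrable _ _)
      · rw [intervalIntegral.integral_symm, abs_neg,
          abs_of_nonneg (intervalIntegral.integral_nonneg h4 fun _ _ => abs_nonneg _)]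
        exact intervalIntegral.integral_mono_interval hy.1 h4 hy0.2
          (Eventually.of_forall fun _ => abs_nonneg _) (hc2.intervalIntegrable _ _)
    calc w y ^ 2 = |w y| ^ 2 := (sq_abs _).symm
      _ ≤ I1 ^ 2 := pow_le_pow_left₀ (abs_nonneg _) h2 2
      _ ≤ L * I2 := hcs
  calc ∫ y in (0 : ℝ)..L, w y ^ 2 ≤ ∫ _ in (0 : ℝ)..L, L * I2 :=
        intervalIntegral.integral_mono_on hL.le ((hwc.pow 2).intervalIntegrable _ _)
          intervalIntegrable_const hpt
    _ = L ^ 2 * I2 := by
        rw [intervalIntegral.integral_const]; simp only [smul_eq_mul, sub_zero]; ring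

lemma no_max {D D' D'' : ℝ → ℝ} (h1 : ∀ x, HasDerivAt D (D' x) x)
    (h2 : ∀ x, HasDerivAt D' (D'' x) x) {x0 : ℝ} (hmax : IsLocalMax D x0) : D'' x0 ≤ 0 := by
  by_contra hpos
  push Not at hpos
  have e1 : deriv D = D' := funext fun x => (h1 x).deriv
  have e2 : deriv D' = D'' := funext fun x => (h2 x).deriv
  have hz : deriv D x0 = 0 := hmax.deriv_eq_zero
  have hmin : IsLocalMin D x0 := by
    apply isLocalMin_of_deriv_deriv_pos _ hz (h1 x0).continuousAt
    rw [e1, e2]; exact hpos
  have hconst : D =ᶠ[𝓝 x0] fun _ => D x0 := by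
    filter_upwards [hmax, hmin] with x ha hb
    exact le_antisymm ha hb
  have h3 : deriv D =ᶠ[𝓝 x0] deriv (fun _ => D x0) := hconst.deriv
  have h4 : deriv (deriv D) x0 = deriv (deriv fun _ : ℝ => D x0) x0 := h3.deriv_eq
  rw [e1, e2] at h4
  simp at h4
  linarith

/-- a growth dichotomy -/
lemma ode_bound {a a' a'' : ℝ → ℝ} (h1 : ∀ x, HasDerivAt a (a' x) x)
    (h2 : ∀ x, HasDerivAt a' (a'' x) x) {μ C K L : ℝ} (hμ : 0 < μ) (hC : 0 ≤ C) (hK : 0 < K)
    (h3 : ∀ x, 0 ≤ x → μ * a x - C ≤ a'' x) (h0 : a 0 ≤ 0)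
    (hg : ∀ x, 0 ≤ x → a x ≤ K * (x + L) ^ 4) : ∀ x, 0 ≤ x → a x ≤ C / μ := by
  intro x1 hx1
  by_contra hneg
  push Not at hneg
  set ν := Real.sqrt μ with hν
  have hν0 : 0 < ν := Real.sqrt_pos.mpr hμ
  have hν2 : ν ^ 2 = μ := Real.sq_sqrt hμ.le
  set κ := (a x1 - C / μ) / (2 * Real.exp (ν * x1)) with hκ
  have hκ0 : 0 < κ := by
    have : 0 < a x1 - C / μ := by linarith
    positivity
  set D : ℝ → ℝ := fun x => a x - C / μ - κ * Real.exp (ν * x) with hD
  set D' : ℝ → ℝ := fun x => a' x - κ * ν * Real.exp (ν * x) with hD'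
  set D'' : ℝ → ℝ := fun x => a'' x - κ * ν ^ 2 * Real.exp (ν * x) with hD''
  have hexp : ∀ x : ℝ, HasDerivAt (fun x : ℝ => Real.exp (ν * x)) (ν * Real.exp (ν * x)) x := by
    intro x
    have h4 : HasDerivAt (fun x : ℝ => ν * x) ν x := by
      simpa using (hasDerivAt_id x).const_mul ν
    have := h4.exp
    rwa [mul_comm] at this
  have hDd : ∀ x, HasDerivAt D (D' x) x := by
    intro x
    have := ((h1 x).sub_const (C / μ)).sub ((hexp x).const_mul κ)
    convert! this using 1
    simp only [hD']; ring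
  have hD'd : ∀ x, HasDerivAt D' (D'' x) x := by
    intro x
    have := (h2 x).sub ((hexp x).const_mul (κ * ν))
    convert! this using 1
    simp only [hD'']; ring
  have hDx1 : 0 < D x1 := by
    simp only [hD, hκ]
    have h5 := Real.exp_pos (ν * x1)
    have : (a x1 - C / μ) / (2 * Real.exp (ν * x1)) * Real.exp (ν * x1) = (a x1 - C / μ) / 2 := by
      field_simp
    rw [this]; linarith
  have hD0 : D 0 < 0 := by
    simp only [hD]
    have : 0 ≤ C / μ := by positivity
    rw [mul_zero, Real.exp_zero]; linarith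
  have hx1pos : 0 < x1 := by
    rcases hx1.eq_or_lt with h | h
    · rw [← h] at hDx1; linarith
    · exact h
  -- D is eventually negative
  obtain ⟨X, hX1, hX2⟩ : ∃ X, x1 < X ∧ D X < 0 := by
    have ht := Real.tendsto_pow_mul_exp_neg_atTop_nhds_zero 4
    have hlin : Tendsto (fun x : ℝ => ν * (x + L)) atTop atTop :=
      (tendsto_atTop_add_const_right _ L tendsto_id).const_mul_atTop hν0
    have ht2 := ht.comp hlin
    have hthr : 0 < κ * ν ^ 4 * Real.exp (-(ν * L)) / K := by positivity
    have hev := (ht2.eventually (gt_mem_nhds hthr)).and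
      ((eventually_gt_atTop x1).and (eventually_ge_atTop 0))
    obtain ⟨X, hXa, hXb, hXc⟩ := hev.exists
    refine ⟨X, hXb, ?_⟩
    simp only [Function.comp] at hXa
    rw [lt_div_iff₀ hK] at hXa
    have h6 := hg X hXc
    have h7 : K * (X + L) ^ 4 < κ * Real.exp (ν * X) := by
      have h8 : (ν * (X + L)) ^ 4 * Real.exp (-(ν * (X + L))) * K * Real.exp (ν * (X + L)) <
          κ * ν ^ 4 * Real.exp (-(ν * L)) * Real.exp (ν * (X + L)) :=
        mul_lt_mul_of_pos_right hXa (Real.exp_pos _)
      have h9 : (ν * (X + L)) ^ 4 * Real.exp (-(ν * (X + L))) * K * Real.exp (ν * (X + L)) =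
          ν ^ 4 * (K * (X + L) ^ 4) := by
        have : Real.exp (-(ν * (X + L))) * Real.exp (ν * (X + L)) = 1 := by
          rw [← Real.exp_add]; simp
        calc _ = (ν * (X + L)) ^ 4 * K * (Real.exp (-(ν * (X + L))) * Real.exp (ν * (X + L))) := by
              ring
          _ = _ := by rw [this]; ring
      have h10 : κ * ν ^ 4 * Real.exp (-(ν * L)) * Real.exp (ν * (X + L)) =
          ν ^ 4 * (κ * Real.exp (ν * X)) := by
        have : Real.exp (-(ν * L)) * Real.exp (ν * (X + L)) = Real.exp (ν * X) := by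
          rw [← Real.exp_add]; congr 1; ring
        calc _ = κ * ν ^ 4 * (Real.exp (-(ν * L)) * Real.exp (ν * (X + L))) := by ring
          _ = _ := by rw [this]; ring
      rw [h9, h10] at h8
      exact lt_of_mul_lt_mul_left h8 (by positivity)
    simp only [hD]
    have : 0 ≤ C / μ := by positivity
    linarith
  have hDc : Continuous D := continuous_iff_continuousAt.mpr fun x => (hDd x).continuousAt
  obtain ⟨xm, hxm, hmax⟩ := (isCompact_Icc (a := (0 : ℝ)) (b := X)).exists_isMaxOn
    ⟨0, by constructor <;> linarith⟩ hDc.continuousOn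
  have hDxm : 0 < D xm := hDx1.trans_le (hmax ⟨hx1, hX1.le⟩)
  have hxm0 : 0 < xm := by
    rcases hxm.1.eq_or_lt with h | h
    · rw [← h] at hDxm; linarith
    · exact h
  have hxmX : xm < X := by
    rcases hxm.2.eq_or_lt with h | h
    · rw [h] at hDxm; linarith
    · exact h
  have hloc : IsLocalMax D xm := by
    filter_upwards [Icc_mem_nhds hxm0 hxmX] with y hy
    exact hmax hy
  have h11 := no_max hDd hD'd hloc
  have h12 := h3 xm hxm0.le
  simp only [hD''] at h11
  simp only [hD] at hDxm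
  rw [hν2] at h11
  have h13 : 0 < μ * (a xm - C / μ - κ * Real.exp (ν * xm)) := mul_pos hμ hDxm
  have h14 : μ * (C / μ) = C := by field_simp
  nlinarith

end Pool.Agent.X154.HP
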