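import Pool.Agent.X154.HP.Taylor

/-! # The pointwise second variation inequality -/

set_option autoImplicit false

open Filter Topology MeasureTheory Set
open scoped ContDiff

namespace Pool.Agent.X154.HP

variable {lam : ℂ → ℝ}

/-- the function `log lam` -/
noncomputable def U (lam : ℂ → ℝ) (z : ℂ) : ℝ := Real.log (lam z)

lemma U_smooth (h : IsMetric lam) : ContDiff ℝ ∞ (U lam) :=
  h.smooth.log (fun z => (h.pos z).ne')

lemma sqrt_eq (h : IsMetric lam) (z : ℂ) : Real.sqrt (lam z) = Real.exp (U lam z / 2) := by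
  rw [Real.exp_half, U, Real.exp_log (h.pos z)]

lemma sqrt_ratio (h : IsMetric lam) (z y : ℂ) :
    Real.sqrt (lam y) = Real.sqrt (lam z) * Real.exp ((U lam y - U lam z) / 2) := by
  rw [sqrt_eq h, sqrt_eq h, ← Real.exp_add]; congr 1; ring

lemma pt_term (h : IsMetric lam) (z g' a q w : ℂ) {α : ℝ} {n : ℝ}
    (hα : D2 (U lam) z (a * w) (a * w) = n ^ 2 * α) :
    Real.sqrt (lam (z + a * w)) * ‖g' + (q * g' - G (U lam) z * g' * a) * w‖ =
    Real.sqrt (lam z) * ‖g'‖ * (‖1 + (q - G (U lam) z * a) * w‖ *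
      Real.exp ((2 * (G (U lam) z * a * w).re + n ^ 2 * α / 2 +
        (U lam (z + a * w) - U lam z - fderiv ℝ (U lam) z (a * w) -
          D2 (U lam) z (a * w) (a * w) / 2)) / 2)) := by
  have e1 : g' + (q * g' - G (U lam) z * g' * a) * w = g' * (1 + (q - G (U lam) z * a) * w) := by
    ring
  rw [e1, norm_mul, sqrt_ratio h z (z + a * w), fderiv_eq, hα]
  have e2 : (2 * (G (U lam) z * a * w).re + n ^ 2 * α / 2 +
        (U lam (z + a * w) - U lam z - 2 * (G (U lam) z * (a * w)).re -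
          n ^ 2 * α / 2)) / 2 = (U lam (z + a * w) - U lam z) / 2 := by
    rw [mul_assoc (G (U lam) z) a w]; ring
  rw [e2]
  ring

lemma pointwise (h : IsMetric lam) {z g' a q : ℂ} {ρ T B s : ℝ}
    (hT : ∀ z v : ℂ, ‖z‖ ≤ ρ → ‖v‖ ≤ 1 →
      |U lam (z + v) - U lam z - fderiv ℝ (U lam) z v - D2 (U lam) z v v / 2| ≤ T * ‖v‖ ^ 3)
    (hz : ‖z‖ ≤ ρ) (hB : 1 ≤ B) (hP : ‖q - G (U lam) z * a‖ ≤ B) (hA : ‖G (U lam) z * a‖ ≤ B)
    (hα : |D2 (U lam) z a a| ≤ B) (hβ : |D2 (U lam) z (Complex.I * a) (Complex.I * a)| ≤ B)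
    (hR : T * ‖a‖ ^ 3 ≤ B) (h0 : 0 < s) (h1 : 4 * B * s ≤ 1) (ha : ‖a‖ * s ≤ 1) :
    Real.sqrt (lam (z + a * (s : ℂ))) * ‖g' + (q * g' - G (U lam) z * g' * a) * (s : ℂ)‖ +
    Real.sqrt (lam (z + a * (Complex.I * s))) *
      ‖g' + (q * g' - G (U lam) z * g' * a) * (Complex.I * s)‖ +
    Real.sqrt (lam (z + a * (-(s : ℂ)))) *
      ‖g' + (q * g' - G (U lam) z * g' * a) * (-(s : ℂ))‖ +
    Real.sqrt (lam (z + a * (-(Complex.I * s)))) *
      ‖g' + (q * g' - G (U lam) z * g' * a) * (-(Complex.I * s))‖ ≤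
    Real.sqrt (lam z) * ‖g'‖ * (4 + 2 * s ^ 2 * ‖q‖ ^ 2 + s ^ 2 * (‖a‖ ^ 2 * lap (U lam) z) / 2 +
      800 * B ^ 3 * s ^ 3) := by
  have hu := U_smooth h
  have nn : ∀ w : ℂ, ‖w‖ = s → ‖a * w‖ ≤ 1 := by
    intro w hw; rw [norm_mul, hw]; exact ha
  have hRR : ∀ w : ℂ, ‖w‖ = s → |U lam (z + a * w) - U lam z - fderiv ℝ (U lam) z (a * w) -
          D2 (U lam) z (a * w) (a * w) / 2| ≤ B * s ^ 3 := by
    intro w hw
    refine (hT z (a * w) hz (nn w hw)).trans ?_
    rw [norm_mul, hw, mul_pow, ← mul_assoc]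
    exact mul_le_mul_of_nonneg_right hR (by positivity)
  have n0 : ‖(s : ℂ)‖ = s := by simp [abs_of_pos h0]
  have n1 : ‖Complex.I * (s : ℂ)‖ = s := by simp [abs_of_pos h0]
  have n2 : ‖-(s : ℂ)‖ = s := by simp [abs_of_pos h0]
  have n3 : ‖-(Complex.I * (s : ℂ))‖ = s := by simp [abs_of_pos h0]
  have d0 : D2 (U lam) z (a * (s : ℂ)) (a * (s : ℂ)) = s ^ 2 * D2 (U lam) z a a := by
    have e : a * (s : ℂ) = s • a := by rw [Complex.real_smul, mul_comm]
    rw [e]
    simp only [D2, map_smul, smul_apply, smul_eq_mul]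
    ring
  have d1 : D2 (U lam) z (a * (Complex.I * s)) (a * (Complex.I * s)) =
      s ^ 2 * D2 (U lam) z (Complex.I * a) (Complex.I * a) := by
    have e : a * (Complex.I * s) = s • (Complex.I * a) := by rw [Complex.real_smul]; ring
    rw [e]
    simp only [D2, map_smul, smul_apply, smul_eq_mul]
    ring
  have d2 : D2 (U lam) z (a * (-(s : ℂ))) (a * (-(s : ℂ))) = s ^ 2 * D2 (U lam) z a a := by
    have e : a * (-(s : ℂ)) = (-s) • a := by rw [Complex.real_smul]; push_cast; ring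
    rw [e]
    simp only [D2, map_smul, smul_apply, smul_eq_mul]
    ring
  have d3 : D2 (U lam) z (a * (-(Complex.I * s))) (a * (-(Complex.I * s))) =
      s ^ 2 * D2 (U lam) z (Complex.I * a) (Complex.I * a) := by
    have e : a * (-(Complex.I * s)) = (-s) • (Complex.I * a) := by
      rw [Complex.real_smul]; push_cast; ring
    rw [e]
    simp only [D2, map_smul, smul_apply, smul_eq_mul]
    ring
  rw [pt_term h z g' a q _ d0, pt_term h z g' a q _ d1, pt_term h z g' a q _ d2,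
    pt_term h z g' a q _ d3]
  have four := four_terms hB hP hA hα hβ h0 h1 (hRR _ n0) (hRR _ n1) (hRR _ n2) (hRR _ n3)
  have hlap := lap_rot hu z a
  have e3 : q - G (U lam) z * a + G (U lam) z * a = q := by ring
  rw [e3, hlap] at four
  have hs0 : 0 ≤ Real.sqrt (lam z) * ‖g'‖ := by positivity
  refine le_trans (le_of_eq ?_) (mul_le_mul_of_nonneg_left four hs0)
  ring

end Pool.Agent.X154.HP
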