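import Pool.Agent.X154.HP.Base

/-! # Completeness implies that the metric balls are bounded (Hopf-Rinow) -/

set_option autoImplicit false

open Filter Topology MeasureTheory Set
open scoped ContDiff

namespace Pool.Agent.X154.HP

variable {lam : ℂ → ℝ}

lemma exists_min (h : IsMetric lam) (z : ℂ) (ρ : ℝ) :
    ∃ m : ℝ, 0 < m ∧ ∀ y, ‖y - z‖ ≤ ρ → m ≤ Real.sqrt (lam y) := by
  by_cases hρ : 0 ≤ ρ
  · obtain ⟨x, -, hx⟩ := (isCompact_closedBall z ρ).exists_isMinOn
      (Metric.nonempty_closedBall.mpr hρ) h.contSqrt.continuousOn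
    refine ⟨Real.sqrt (lam x), h.sqrt_pos x, fun y hy => hx ?_⟩
    rw [Metric.mem_closedBall, dist_eq_norm]
    exact hy
  · exact ⟨1, one_pos, fun y hy => absurd ((norm_nonneg _).trans hy) hρ⟩

lemma exists_max (h : IsMetric lam) (z : ℂ) (ρ : ℝ) :
    ∃ M : ℝ, 0 < M ∧ ∀ y, ‖y - z‖ ≤ ρ → Real.sqrt (lam y) ≤ M := by
  by_cases hρ : 0 ≤ ρ
  · obtain ⟨x, -, hx⟩ := (isCompact_closedBall z ρ).exists_isMaxOn
      (Metric.nonempty_closedBall.mpr hρ) h.contSqrt.continuousOn
    refine ⟨Real.sqrt (lam x), h.sqrt_pos x, fun y hy => hx ?_⟩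
    rw [Metric.mem_closedBall, dist_eq_norm]
    exact hy
  · exact ⟨1, one_pos, fun y hy => absurd ((norm_nonneg _).trans hy) hρ⟩

lemma gdist_le_ball (h : IsMetric lam) {c : ℂ} {ρ M : ℝ}
    (hM : ∀ y, ‖y - c‖ ≤ ρ → Real.sqrt (lam y) ≤ M) {z w : ℂ} (hz : ‖z - c‖ ≤ ρ)
    (hw : ‖w - c‖ ≤ ρ) : gdist lam z w ≤ M * ‖w - z‖ := by
  refine gdist_le_seg h fun t ht => hM _ ?_
  have e : z + (t : ℂ) * (w - z) - c = (1 - t : ℝ) • (z - c) + (t : ℝ) • (w - c) := by
    simp only [Complex.real_smul]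
    push_cast
    ring
  rw [e]
  calc ‖(1 - t : ℝ) • (z - c) + (t : ℝ) • (w - c)‖
      ≤ ‖(1 - t : ℝ) • (z - c)‖ + ‖(t : ℝ) • (w - c)‖ := norm_add_le _ _
    _ = (1 - t) * ‖z - c‖ + t * ‖w - c‖ := by
        rw [norm_smul, norm_smul, Real.norm_eq_abs, Real.norm_eq_abs,
          abs_of_nonneg (by linarith [ht.2]), abs_of_nonneg ht.1]
    _ ≤ (1 - t) * ρ + t * ρ := by
        have := ht.1; have := ht.2
        gcongr
    _ = ρ := by ring

lemma loc_upper (h : IsMetric lam) (z : ℂ) {ε : ℝ} (hε : 0 < ε) :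
    ∃ δ > 0, ∀ w, ‖w - z‖ < δ → gdist lam z w < ε := by
  obtain ⟨M, hM0, hM⟩ := exists_max h z 1
  refine ⟨min 1 (ε / M), by positivity, fun w hw => ?_⟩
  have h1 : ‖w - z‖ ≤ 1 := (hw.trans_le (min_le_left _ _)).le
  have h2 : ‖w - z‖ < ε / M := hw.trans_le (min_le_right _ _)
  refine (gdist_le_ball h hM (z := z) (w := w) (by simp) h1).trans_lt ?_
  rw [lt_div_iff₀ hM0] at h2
  linarith

lemma loc_lower (h : IsMetric lam) (z : ℂ) {ε : ℝ} (hε : 0 < ε) :
    ∃ δ > 0, ∀ w, gdist lam z w < δ → ‖w - z‖ < ε := by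
  obtain ⟨m, hm0, hm⟩ := exists_min h z ε
  refine ⟨m * ε, by positivity, fun w hw => ?_⟩
  have h1 := (gdist_ge h hm0.le hm w).trans_lt hw
  have h2 : min ε ‖w - z‖ < ε := lt_of_mul_lt_mul_left h1 hm0.le
  rcases min_lt_iff.mp h2 with h3 | h3
  · exact absurd h3 (lt_irrefl _)
  · exact h3

lemma eq_of_gdist (h : IsMetric lam) {z w : ℂ} (h0 : gdist lam z w = 0) : z = w := by
  by_contra hne
  have hp : 0 < ‖w - z‖ := norm_pos_iff.mpr (sub_ne_zero.mpr (Ne.symm hne))
  obtain ⟨δ, hδ, hd⟩ := loc_lower h z hp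
  exact absurd (hd w (by rw [h0]; exact hδ)) (lt_irrefl _)

/-- the distance between two points of a curve -/
lemma gdist_le_part {γ : ℝ → ℂ} (hγ : ContDiff ℝ 1 γ) {a b : ℝ} (hab : a ≤ b) :
    gdist lam (γ a) (γ b) ≤ ∫ t in a..b, Real.sqrt (lam (γ t)) * ‖deriv γ t‖ := by
  rcases eq_or_lt_of_le hab with rfl | hlt
  · rw [gdist_self]; simp
  · have hc : ContDiff ℝ 1 (fun s : ℝ => γ ((b - a) * s + a)) := hγ.comp (by fun_prop)
    have hle := gdist_le_len (lam := lam) hc
    simp only [mul_zero, zero_add, mul_one, sub_add_cancel] at hle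
    refine hle.trans (le_of_eq ?_)
    unfold len
    have hd : ∀ s : ℝ, deriv (fun s : ℝ => γ ((b - a) * s + a)) s =
        (b - a) • deriv γ ((b - a) * s + a) := by
      intro s
      have h2 : HasDerivAt (fun s : ℝ => (b - a) * s + a) (b - a) s := by
        simpa using ((hasDerivAt_id s).const_mul (b - a)).add_const a
      exact ((hasDeriv hγ _).scomp s h2).deriv
    simp only [hd, norm_smul, Real.norm_eq_abs, abs_of_pos (sub_pos.mpr hlt)]
    have e := intervalIntegral.integral_comp_mul_add (a := 0) (b := 1)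
      (fun t : ℝ => Real.sqrt (lam (γ t)) * ‖deriv γ t‖) (c := b - a) (sub_pos.mpr hlt).ne' a
    simp only [mul_zero, zero_add, mul_one, sub_add_cancel, smul_eq_mul] at e
    have e2 : ∫ s in (0 : ℝ)..1, Real.sqrt (lam (γ ((b - a) * s + a))) *
        ((b - a) * ‖deriv γ ((b - a) * s + a)‖) =
        (b - a) * ∫ s in (0 : ℝ)..1, Real.sqrt (lam (γ ((b - a) * s + a))) *
          ‖deriv γ ((b - a) * s + a)‖ := by
      rw [← intervalIntegral.integral_const_mul]
      refine intervalIntegral.integral_congr fun s _ => ?_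
      ring
    rw [e2, e, ← mul_assoc, mul_inv_cancel₀ (sub_pos.mpr hlt).ne', one_mul]

/-- intermediate points -/
lemma mid (h : IsMetric lam) {x z : ℂ} {L s : ℝ} (hL : gdist lam x z < L) (hs : 0 ≤ s)
    (hsL : s ≤ L) : ∃ y, gdist lam x y ≤ s ∧ gdist lam y z ≤ L - s := by
  obtain ⟨γ, hγ, h0, h1, hl⟩ := exists_curve x z hL
  set φ : ℝ → ℝ := fun t => ∫ r in (0 : ℝ)..t, Real.sqrt (lam (γ r)) * ‖deriv γ r‖ with hφ
  have hI : ∀ a b : ℝ, IntervalIntegrable (fun r => Real.sqrt (lam (γ r)) * ‖deriv γ r‖)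
      volume a b := fun a b => (cont_speed h hγ).intervalIntegrable a b
  have hφc : Continuous φ := by
    rw [continuous_iff_continuousAt]
    intro t
    exact (intervalIntegral.integral_hasDerivAt_right (hI 0 t)
      ((cont_speed h hγ).stronglyMeasurableAtFilter _ _) (cont_speed h hγ).continuousAt).continuousAt
  have hφ0 : φ 0 = 0 := by simp [hφ]
  have hφ1 : φ 1 = len lam γ := rfl
  by_cases hle : len lam γ ≤ s
  · refine ⟨z, ?_, ?_⟩
    · have := gdist_le_len (lam := lam) hγ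
      rw [h0, h1] at this
      exact this.trans hle
    · rw [gdist_self]; linarith
  · push Not at hle
    obtain ⟨t, ht, hts⟩ : s ∈ φ '' Icc 0 1 := by
      apply intermediate_value_Icc zero_le_one hφc.continuousOn
      rw [hφ0, hφ1]
      exact ⟨hs, hle.le⟩
    refine ⟨γ t, ?_, ?_⟩
    · have := gdist_le_part (lam := lam) hγ ht.1
      rw [h0] at this
      exact this.trans (le_of_eq hts)
    · have := gdist_le_part (lam := lam) hγ ht.2
      rw [h1] at this
      refine this.trans ?_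
      have e : φ 1 = φ t + ∫ r in t..1, Real.sqrt (lam (γ r)) * ‖deriv γ r‖ :=
        (intervalIntegral.integral_add_adjacent_intervals (hI 0 t) (hI t 1)).symm
      rw [hφ1, hts] at e
      linarith

/-- The plane with the distance `gdist lam`. -/
def GP (_ : ℂ → ℝ) : Type := ℂ

/-- the metric space `(ℂ, gdist lam)` -/
@[instance_reducible] noncomputable def gpMetric (h : IsMetric lam) : MetricSpace (GP lam) where
  dist := fun z w => gdist lam z w
  dist_self := fun z => gdist_self z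
  dist_comm := fun z w => gdist_comm z w
  dist_triangle := fun x y z => gdist_triangle h x y z
  eq_of_dist_eq_zero := fun h0 => eq_of_gdist h h0

lemma bounded_zero (h : IsMetric lam) (hC : Complete lam) (r : ℝ) :
    ∃ ρ : ℝ, ∀ z, gdist lam 0 z ≤ r → ‖z‖ ≤ ρ := by
  letI : MetricSpace (GP lam) := gpMetric h
  let toGP : ℂ → GP lam := fun z => z
  let ofGP : GP lam → ℂ := fun z => z
  have hdist : ∀ z w : GP lam, dist z w = gdist lam z w := fun _ _ => rfl
  have c1 : Continuous toGP := by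
    rw [Metric.continuous_iff]
    intro z ε hε
    obtain ⟨δ, hδ, hd⟩ := loc_upper h z hε
    refine ⟨δ, hδ, fun w hw => ?_⟩
    have hw' : ‖w - z‖ < δ := by rw [← dist_eq_norm]; exact hw
    have := hd w hw'
    rw [hdist, gdist_comm]
    exact this
  have c2 : Continuous ofGP := by
    rw [Metric.continuous_iff]
    intro z ε hε
    obtain ⟨δ, hδ, hd⟩ := loc_lower h z hε
    refine ⟨δ, hδ, fun w hw => ?_⟩
    rw [hdist, gdist_comm] at hw
    rw [dist_eq_norm]
    exact hd w hw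
  haveI : CompleteSpace (GP lam) := by
    refine Metric.complete_of_cauchySeq_tendsto fun u hu => ?_
    rw [Metric.cauchySeq_iff] at hu
    obtain ⟨z, hz⟩ := hC (fun n => u n) (fun ε hε => hu ε hε)
    exact ⟨z, tendsto_iff_dist_tendsto_zero.mpr hz⟩
  -- the two steps
  have step1 : ∀ r : ℝ, 0 ≤ r → (∃ ρ : ℝ, ∀ z, gdist lam 0 z ≤ r → ‖z‖ ≤ ρ) →
      ∃ η > 0, ∃ ρ : ℝ, ∀ z, gdist lam 0 z ≤ r + η → ‖z‖ ≤ ρ := by
    intro r hr ⟨ρ, hρ⟩
    obtain ⟨m, hm0, hm⟩ := exists_min h 0 (ρ + 1)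
    refine ⟨m / 4, by positivity, ρ + 1, fun z hz => ?_⟩
    obtain ⟨y, hy1, hy2⟩ := mid h (L := r + m / 2) (s := r)
      (show gdist lam 0 z < r + m / 2 by linarith) hr (by linarith)
    have hyρ := hρ y hy1
    have h3 := gdist_ge h hm0.le (z := y) (ρ := 1) (fun x hx => hm x (by
      calc ‖x - 0‖ = ‖(x - y) + y‖ := by congr 1; ring
        _ ≤ ‖x - y‖ + ‖y‖ := norm_add_le _ _
        _ ≤ ρ + 1 := by linarith)) z
    have h4 : m * min 1 ‖z - y‖ < m * 1 := by linarith
    have h5 : min 1 ‖z - y‖ < 1 := lt_of_mul_lt_mul_left h4 hm0.le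
    have h6 : ‖z - y‖ < 1 := by
      rcases min_lt_iff.mp h5 with h | h
      · exact absurd h (lt_irrefl _)
      · exact h
    calc ‖z‖ = ‖(z - y) + y‖ := by congr 1; ring
      _ ≤ ‖z - y‖ + ‖y‖ := norm_add_le _ _
      _ ≤ ρ + 1 := by linarith
  have step2 : ∀ r : ℝ, 0 < r → (∀ r' < r, ∃ ρ : ℝ, ∀ z, gdist lam 0 z ≤ r' → ‖z‖ ≤ ρ) →
      ∃ ρ : ℝ, ∀ z, gdist lam 0 z ≤ r → ‖z‖ ≤ ρ := by
    intro r hr hP
    let O : GP lam := toGP 0
    have hclosed : ∀ s : ℝ, IsClosed {z : GP lam | dist O z ≤ s} := fun s =>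
      isClosed_le (continuous_const.dist continuous_id) continuous_const
    have htb : TotallyBounded {z : GP lam | dist O z ≤ r} := by
      rw [Metric.totallyBounded_iff]
      intro ε hε
      set e := min (ε / 4) r with he
      have he0 : 0 < e := lt_min (by linarith) hr
      have he1 : e ≤ ε / 4 := min_le_left _ _
      have he2 : e ≤ r := min_le_right _ _
      obtain ⟨ρ, hρ⟩ := hP (r - e) (by linarith)
      have hcomp : IsCompact {z : GP lam | dist O z ≤ r - e} := by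
        have hk : IsCompact {z : ℂ | gdist lam 0 z ≤ r - e} := by
          refine Metric.isCompact_of_isClosed_isBounded ?_ ?_
          · exact (hclosed (r - e)).preimage c1
          · refine (Metric.isBounded_closedBall (x := (0 : ℂ)) (r := ρ)).subset fun z hz => ?_
            rw [mem_closedBall_zero_iff]
            exact hρ z hz
        have := hk.image c1
        convert this using 1
        ext z
        constructor
        · intro hz
          exact ⟨z, hz, rfl⟩
        · rintro ⟨y, hy, rfl⟩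
          exact hy
      obtain ⟨t, htf, ht⟩ := Metric.totallyBounded_iff.mp hcomp.totallyBounded (ε / 4)
        (by linarith)
      refine ⟨t, htf, fun z hz => ?_⟩
      obtain ⟨y, hy1, hy2⟩ := mid h (x := 0) (z := z) (L := r + e) (s := r - e)
        (by have : gdist lam 0 z ≤ r := hz
            linarith) (by linarith) (by linarith)
      have hy3 := ht (show toGP y ∈ {z : GP lam | dist O z ≤ r - e} from hy1)
      simp only [mem_iUnion, Metric.mem_ball] at hy3 ⊢
      obtain ⟨y', hy', hy4⟩ := hy3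
      refine ⟨y', hy', ?_⟩
      have h5 : dist z y' ≤ dist (toGP y) z + dist (toGP y) y' := by
        rw [dist_comm (toGP y) z]
        exact dist_triangle _ _ _
      have h6 : dist (toGP y) z ≤ 2 * e := by
        have h7 : gdist lam y z ≤ r + e - (r - e) := hy2
        have h8 : dist (toGP y) z = gdist lam y z := rfl
        rw [h8]
        linarith
      linarith
    have hK : IsCompact {z : GP lam | dist O z ≤ r} :=
      htb.isCompact_of_isClosed (hclosed r)
    obtain ⟨ρ, hρ⟩ := (hK.image c2).isBounded.exists_norm_le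
    exact ⟨ρ, fun z hz => hρ _ ⟨z, hz, rfl⟩⟩
  -- conclusion
  by_contra hcon
  set S : Set ℝ := {r | ¬ ∃ ρ : ℝ, ∀ z, gdist lam 0 z ≤ r → ‖z‖ ≤ ρ} with hS
  have hmem : r ∈ S := hcon
  have hpos : ∀ s ∈ S, 0 < s := by
    intro s hs
    by_contra hs0
    push Not at hs0
    refine hs ⟨0, fun z hz => ?_⟩
    have h1 : gdist lam 0 z = 0 := le_antisymm (hz.trans hs0) (gdist_nonneg _ _)
    rw [← eq_of_gdist h h1]
    simp
  have hbdd : BddBelow S := ⟨0, fun s hs => (hpos s hs).le⟩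
  have hmono : ∀ s s' : ℝ, s ≤ s' → s ∈ S → s' ∈ S := by
    intro s s' hss hs ⟨ρ, hρ⟩
    exact hs ⟨ρ, fun z hz => hρ z (hz.trans hss)⟩
  set r₀ := sInf S with hr₀
  have hlt : ∀ r' < r₀, r' ∉ S := fun r' hr' => notMem_of_lt_csInf hr' hbdd
  have hr0 : 0 ≤ r₀ := Real.sInf_nonneg fun s hs => (hpos s hs).le
  have hP0 : r₀ ∉ S := by
    rcases eq_or_lt_of_le hr0 with h0 | h0
    · rw [← h0]
      intro hs
      exact absurd (hpos _ hs) (lt_irrefl _)
    · have := step2 r₀ h0 (fun r' hr' => by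
        have := hlt r' hr'
        simpa only [hS, mem_ofPred_eq, not_not] using this)
      simpa only [hS, mem_ofPred_eq, not_not] using this
  obtain ⟨η, hη, hP1⟩ := step1 r₀ hr0 (by simpa only [hS, mem_ofPred_eq, not_not] using hP0)
  have hnot : r₀ + η ∉ S := by simpa only [hS, mem_ofPred_eq, not_not] using hP1
  obtain ⟨s, hs, hs2⟩ := exists_lt_of_csInf_lt ⟨r, hmem⟩
    (show sInf S < r₀ + η by rw [← hr₀]; linarith)
  exact hnot (hmono s _ hs2.le hs)

lemma bounded_ball (h : IsMetric lam) (hC : Complete lam) (x : ℂ) (r : ℝ) :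
    ∃ ρ : ℝ, ∀ z, gdist lam x z ≤ r → ‖z‖ ≤ ρ := by
  obtain ⟨ρ, hρ⟩ := bounded_zero h hC (r + gdist lam 0 x)
  exact ⟨ρ, fun z hz => hρ z (by linarith [gdist_triangle h 0 x z])⟩

lemma continuous_gdist (h : IsMetric lam) (x : ℂ) : Continuous fun z => gdist lam x z := by
  rw [Metric.continuous_iff]
  intro z ε hε
  obtain ⟨δ, hδ, hd⟩ := loc_upper h z hε
  refine ⟨δ, hδ, fun w hw => ?_⟩
  have h1 := hd w (by rw [← dist_eq_norm]; exact hw)
  have h2 := gdist_triangle h x z w
  have h3 := gdist_triangle h x w z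
  rw [gdist_comm w z] at h3
  rw [Real.dist_eq, abs_lt]
  constructor <;> linarith

end Pool.Agent.X154.HP
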