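import Pool.Agent.X154.HP.SV

/-! # The comparison density and four point sums -/

set_option autoImplicit false

open Filter Topology MeasureTheory Set
open scoped ContDiff

namespace Pool.Agent.X154.HP

variable {lam : ℂ → ℝ}

/-- the logarithm of the comparison density -/
noncomputable def psi (z : ℂ) : ℝ := -1 - 4 * Real.log ‖z‖ + 1 / ‖z‖ ^ 2

/-- the sum over the four directions minus four times the centre -/
noncomputable def four (F : ℂ → ℝ) (z : ℂ) (s : ℝ) : ℝ :=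
  F (z + (s : ℂ)) + F (z + Complex.I * s) + F (z + -(s : ℂ)) + F (z + -(Complex.I * s)) - 4 * F z

lemma exp_psi_le {z : ℂ} (hz : 1 ≤ ‖z‖) : Real.exp (psi z) ≤ 1 / ‖z‖ ^ 4 := by
  have h0 : 0 < ‖z‖ := by linarith
  unfold psi
  have h1 : 1 / ‖z‖ ^ 2 ≤ 1 := by
    rw [div_le_one (by positivity)]
    exact one_le_pow₀ hz
  have h2 : -1 - 4 * Real.log ‖z‖ + 1 / ‖z‖ ^ 2 ≤ -(4 * Real.log ‖z‖) := by linarith
  refine (Real.exp_le_exp.mpr h2).trans (le_of_eq ?_)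
  rw [Real.exp_neg, one_div]
  congr 1
  rw [show 4 * Real.log ‖z‖ = Real.log (‖z‖ ^ 4) by rw [Real.log_pow]; norm_num,
    Real.exp_log (by positivity)]

lemma le_exp_psi {z : ℂ} (hz : 1 ≤ ‖z‖) : Real.exp (-1) / ‖z‖ ^ 4 ≤ Real.exp (psi z) := by
  have h0 : 0 < ‖z‖ := by linarith
  unfold psi
  have h1 : 0 ≤ 1 / ‖z‖ ^ 2 := by positivity
  have e : Real.exp (-1) / ‖z‖ ^ 4 = Real.exp (-1 - 4 * Real.log ‖z‖) := by
    rw [Real.exp_sub]
    congr 1
    rw [show 4 * Real.log ‖z‖ = Real.log (‖z‖ ^ 4) by rw [Real.log_pow]; norm_num,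
      Real.exp_log (by positivity)]
  rw [e]
  exact Real.exp_le_exp.mpr (by linarith)

lemma inv_pair {N b : ℝ} (hN : 0 < N) (hb : b ^ 2 < N ^ 2) :
    2 / N + 2 * b ^ 2 / N ^ 3 ≤ 1 / (N + b) + 1 / (N - b) := by
  have h1 : |b| < N := abs_lt_of_sq_lt_sq hb hN.le
  have h2 := (abs_lt.mp h1).1
  have h3 := (abs_lt.mp h1).2
  have h4 : 0 < N + b := by linarith
  have h5 : 0 < N - b := by linarith
  have h6 : 1 / (N + b) + 1 / (N - b) - (2 / N + 2 * b ^ 2 / N ^ 3) =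
      2 * b ^ 4 / (N ^ 3 * (N + b) * (N - b)) := by
    field_simp
    ring
  have h7 : 0 ≤ 2 * b ^ 4 / (N ^ 3 * (N + b) * (N - b)) := by positivity
  linarith

lemma psi_four {z : ℂ} (hz : 1 ≤ ‖z‖) {s : ℝ} (hs : 0 < s) (hs1 : s ≤ 1 / 4) :
    2 * Real.exp (psi z) * s ^ 2 ≤ four psi z s := by
  have h0 : 0 < ‖z‖ := by linarith
  set R := ‖z‖ ^ 2 with hR
  have hR1 : 1 ≤ R := one_le_pow₀ hz
  have hR0 : 0 < R := by linarith
  have hRz : R = z.re ^ 2 + z.im ^ 2 := by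
    rw [hR, ← Complex.normSq_eq_norm_sq, Complex.normSq_apply]; ring
  -- nonvanishing
  have hne : ∀ w : ℂ, ‖w‖ = s → z + w ≠ 0 := by
    intro w hw hzw
    have : ‖z‖ = s := by
      rw [eq_neg_of_add_eq_zero_left hzw, norm_neg, hw]
    linarith
  have n0 : ‖(s : ℂ)‖ = s := by simp [abs_of_pos hs]
  have n1 : ‖Complex.I * (s : ℂ)‖ = s := by simp [abs_of_pos hs]
  have n2 : ‖-(s : ℂ)‖ = s := by simp [abs_of_pos hs]
  have n3 : ‖-(Complex.I * (s : ℂ))‖ = s := by simp [abs_of_pos hs]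
  -- the logarithms
  have hlog : Real.log ‖z + (s : ℂ)‖ + Real.log ‖z + Complex.I * s‖ + Real.log ‖z + -(s : ℂ)‖ +
      Real.log ‖z + -(Complex.I * s)‖ - 4 * Real.log ‖z‖ ≤ s ^ 4 / R ^ 2 := by
    have p0 := norm_pos_iff.mpr (hne _ n0)
    have p1 := norm_pos_iff.mpr (hne _ n1)
    have p2 := norm_pos_iff.mpr (hne _ n2)
    have p3 := norm_pos_iff.mpr (hne _ n3)
    rw [← Real.log_mul p0.ne' p1.ne', ← Real.log_mul (by positivity) p2.ne',
      ← Real.log_mul (by positivity) p3.ne', ← norm_mul, ← norm_mul, ← norm_mul]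
    have e : (z + (s : ℂ)) * (z + Complex.I * s) * (z + -(s : ℂ)) * (z + -(Complex.I * s)) =
        z ^ 4 - (s : ℂ) ^ 4 := by
      have hI : Complex.I ^ 2 = -1 := Complex.I_sq
      linear_combination (z ^ 2 - (s : ℂ) ^ 2) * (-(s : ℂ) ^ 2) * hI
    rw [e]
    have h4 : 4 * Real.log ‖z‖ = Real.log (‖z‖ ^ 4) := by rw [Real.log_pow]; norm_num
    have hne4 : z ^ 4 - (s : ℂ) ^ 4 ≠ 0 := by
      rw [← e]
      exact mul_ne_zero (mul_ne_zero (mul_ne_zero (hne _ n0) (hne _ n1)) (hne _ n2)) (hne _ n3)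
    have hp4 := norm_pos_iff.mpr hne4
    rw [h4, ← Real.log_div hp4.ne' (by positivity)]
    have h5 := Real.log_le_sub_one_of_pos (show 0 < ‖z ^ 4 - (s : ℂ) ^ 4‖ / ‖z‖ ^ 4 by positivity)
    have h6 : ‖z ^ 4 - (s : ℂ) ^ 4‖ ≤ ‖z‖ ^ 4 + s ^ 4 := by
      refine (norm_sub_le _ _).trans (le_of_eq ?_)
      rw [norm_pow, norm_pow, n0]
    have h7 : ‖z ^ 4 - (s : ℂ) ^ 4‖ / ‖z‖ ^ 4 ≤ (‖z‖ ^ 4 + s ^ 4) / ‖z‖ ^ 4 := by gcongr
    have h8 : (‖z‖ ^ 4 + s ^ 4) / ‖z‖ ^ 4 = 1 + s ^ 4 / R ^ 2 := by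
      rw [hR]; field_simp
    linarith
  -- the inverse squares
  set N := R + s ^ 2 with hN
  have hN0 : 0 < N := by positivity
  have sq0 : ‖z + (s : ℂ)‖ ^ 2 = N + 2 * z.re * s := by
    rw [← Complex.normSq_eq_norm_sq, Complex.normSq_apply, hN, hRz]
    simp only [Complex.add_re, Complex.add_im, Complex.ofReal_re, Complex.ofReal_im]
    ring
  have sq2 : ‖z + -(s : ℂ)‖ ^ 2 = N - 2 * z.re * s := by
    rw [← Complex.normSq_eq_norm_sq, Complex.normSq_apply, hN, hRz]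
    simp only [Complex.add_re, Complex.add_im, Complex.neg_re, Complex.neg_im, Complex.ofReal_re,
      Complex.ofReal_im]
    ring
  have sq1 : ‖z + Complex.I * s‖ ^ 2 = N + 2 * z.im * s := by
    rw [← Complex.normSq_eq_norm_sq, Complex.normSq_apply, hN, hRz]
    simp only [Complex.add_re, Complex.add_im, Complex.mul_re, Complex.mul_im, Complex.I_re,
      Complex.I_im, Complex.ofReal_re, Complex.ofReal_im]
    ring
  have sq3 : ‖z + -(Complex.I * s)‖ ^ 2 = N - 2 * z.im * s := by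
    rw [← Complex.normSq_eq_norm_sq, Complex.normSq_apply, hN, hRz]
    simp only [Complex.add_re, Complex.add_im, Complex.neg_re, Complex.neg_im, Complex.mul_re,
      Complex.mul_im, Complex.I_re, Complex.I_im, Complex.ofReal_re, Complex.ofReal_im]
    ring
  have hsR : s ^ 2 < R := by nlinarith
  have b0 : (2 * z.re * s) ^ 2 < N ^ 2 := by
    have : z.re ^ 2 ≤ R := by rw [hRz]; nlinarith [sq_nonneg z.im]
    have h5 : (2 * z.re * s) ^ 2 ≤ 4 * R * s ^ 2 := by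
      have := mul_le_mul_of_nonneg_right this (sq_nonneg s)
      nlinarith
    have h6 : N ^ 2 = (R - s ^ 2) ^ 2 + 4 * R * s ^ 2 := by rw [hN]; ring
    have h7 : 0 < (R - s ^ 2) ^ 2 := by
      have : 0 < R - s ^ 2 := by linarith
      positivity
    linarith
  have b1 : (2 * z.im * s) ^ 2 < N ^ 2 := by
    have : z.im ^ 2 ≤ R := by rw [hRz]; nlinarith [sq_nonneg z.re]
    have h5 : (2 * z.im * s) ^ 2 ≤ 4 * R * s ^ 2 := by
      have := mul_le_mul_of_nonneg_right this (sq_nonneg s)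
      nlinarith
    have h6 : N ^ 2 = (R - s ^ 2) ^ 2 + 4 * R * s ^ 2 := by rw [hN]; ring
    have h7 : 0 < (R - s ^ 2) ^ 2 := by
      have : 0 < R - s ^ 2 := by linarith
      positivity
    linarith
  have q0 := inv_pair hN0 b0
  have q1 := inv_pair hN0 b1
  have hsum : 4 / N + 8 * R * s ^ 2 / N ^ 3 ≤ 1 / (N + 2 * z.re * s) + 1 / (N + 2 * z.im * s) +
      1 / (N - 2 * z.re * s) + 1 / (N - 2 * z.im * s) := by
    have e : 4 / N + 8 * R * s ^ 2 / N ^ 3 = (2 / N + 2 * (2 * z.re * s) ^ 2 / N ^ 3) +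
        (2 / N + 2 * (2 * z.im * s) ^ 2 / N ^ 3) := by
      rw [hRz]; ring
    rw [e]
    linarith
  have hexp : Real.exp (psi z) ≤ 1 / R ^ 2 := by
    have := exp_psi_le hz
    rwa [show ‖z‖ ^ 4 = R ^ 2 by rw [hR]; ring] at this
  have hs2 : s ^ 2 ≤ 1 / 16 := by nlinarith
  -- the final inequality
  have fin : 2 * s ^ 2 / R ^ 2 ≤ -4 * (s ^ 4 / R ^ 2) + (4 / N + 8 * R * s ^ 2 / N ^ 3 - 4 / R) := by
    have k1 : -(4 * s ^ 2 / R ^ 2) ≤ 4 / N - 4 / R := by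
      have : 4 / N - 4 / R = -(4 * s ^ 2 / (R * N)) := by
        rw [hN]; field_simp; ring
      rw [this]
      have : 4 * s ^ 2 / (R * N) ≤ 4 * s ^ 2 / R ^ 2 := by
        have : R ^ 2 ≤ R * N := by rw [hN]; nlinarith
        gcongr
      linarith
    have k2 : (8 - 24 * s ^ 2) * s ^ 2 / R ^ 2 ≤ 8 * R * s ^ 2 / N ^ 3 := by
      rw [div_le_div_iff₀ (by positivity) (by positivity)]
      have hNR : N ≤ R * (1 + s ^ 2) := by rw [hN]; nlinarith
      have hN3 : N ^ 3 ≤ R ^ 3 * (1 + s ^ 2) ^ 3 := by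
        rw [← mul_pow]; exact pow_le_pow_left₀ hN0.le hNR 3
      have h9 : 0 ≤ 8 - 24 * s ^ 2 := by linarith
      have h10 : (8 - 24 * s ^ 2) * (1 + s ^ 2) ^ 3 ≤ 8 := by
        set v := s ^ 2
        have hv : 0 ≤ v := by positivity
        have : (8 - 24 * v) * (1 + v) ^ 3 = 8 - (48 * v ^ 2 + 64 * v ^ 3 + 24 * v ^ 4) := by ring
        rw [this]
        have : 0 ≤ 48 * v ^ 2 + 64 * v ^ 3 + 24 * v ^ 4 := by positivity
        linarith
      calc (8 - 24 * s ^ 2) * s ^ 2 * N ^ 3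
          ≤ (8 - 24 * s ^ 2) * s ^ 2 * (R ^ 3 * (1 + s ^ 2) ^ 3) := by gcongr
        _ = ((8 - 24 * s ^ 2) * (1 + s ^ 2) ^ 3) * (s ^ 2 * R ^ 3) := by ring
        _ ≤ 8 * (s ^ 2 * R ^ 3) := by gcongr
        _ = 8 * R * s ^ 2 * R ^ 2 := by ring
    have k3 : 2 * s ^ 2 / R ^ 2 + 4 * (s ^ 4 / R ^ 2) + 4 * s ^ 2 / R ^ 2 ≤
        (8 - 24 * s ^ 2) * s ^ 2 / R ^ 2 := by
      have : 2 * s ^ 2 / R ^ 2 + 4 * (s ^ 4 / R ^ 2) + 4 * s ^ 2 / R ^ 2 =
          (2 * s ^ 2 + 4 * s ^ 4 + 4 * s ^ 2) / R ^ 2 := by ring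
      rw [this]
      apply div_le_div_of_nonneg_right _ (by positivity)
      nlinarith [sq_nonneg s]
    linarith
  have hfin2 : 2 * Real.exp (psi z) * s ^ 2 ≤ 2 * s ^ 2 / R ^ 2 := by
    have := mul_le_mul_of_nonneg_right hexp (show 0 ≤ 2 * s ^ 2 by positivity)
    calc 2 * Real.exp (psi z) * s ^ 2 = Real.exp (psi z) * (2 * s ^ 2) := by ring
      _ ≤ 1 / R ^ 2 * (2 * s ^ 2) := this
      _ = 2 * s ^ 2 / R ^ 2 := by ring
  have hfour : four psi z s = -4 * (Real.log ‖z + (s : ℂ)‖ + Real.log ‖z + Complex.I * s‖ +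
      Real.log ‖z + -(s : ℂ)‖ + Real.log ‖z + -(Complex.I * s)‖ - 4 * Real.log ‖z‖) +
      (1 / (N + 2 * z.re * s) + 1 / (N + 2 * z.im * s) +
      1 / (N - 2 * z.re * s) + 1 / (N - 2 * z.im * s) - 4 / R) := by
    unfold four psi
    rw [sq0, sq1, sq2, sq3]
    ring
  rw [hfour]
  linarith

lemma U_four (h : IsMetric lam) (z : ℂ) : ∃ T : ℝ, 0 ≤ T ∧ ∀ s : ℝ, 0 < s → s ≤ 1 →
    four (U lam) z s ≤ s ^ 2 * lap (U lam) z + T * s ^ 3 := by
  obtain ⟨T, hT0, hT⟩ := taylor3 (U_smooth h) ‖z‖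
  refine ⟨4 * T, by positivity, fun s hs hs1 => ?_⟩
  have n0 : ‖(s : ℂ)‖ = s := by simp [abs_of_pos hs]
  have n1 : ‖Complex.I * (s : ℂ)‖ = s := by simp [abs_of_pos hs]
  have n2 : ‖-(s : ℂ)‖ = s := by simp [abs_of_pos hs]
  have n3 : ‖-(Complex.I * (s : ℂ))‖ = s := by simp [abs_of_pos hs]
  have t0 := (abs_le.mp (hT z (s : ℂ) le_rfl (by rw [n0]; exact hs1))).2
  have t1 := (abs_le.mp (hT z (Complex.I * s) le_rfl (by rw [n1]; exact hs1))).2
  have t2 := (abs_le.mp (hT z (-(s : ℂ)) le_rfl (by rw [n2]; exact hs1))).2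
  have t3 := (abs_le.mp (hT z (-(Complex.I * s)) le_rfl (by rw [n3]; exact hs1))).2
  rw [n0] at t0
  rw [n1] at t1
  rw [n2] at t2
  rw [n3] at t3
  have d0 : D2 (U lam) z (s : ℂ) (s : ℂ) = s ^ 2 * D2 (U lam) z 1 1 := by
    have e : (s : ℂ) = s • (1 : ℂ) := by rw [Complex.real_smul, mul_one]
    rw [e]
    simp only [D2, map_smul, smul_apply, smul_eq_mul]
    ring
  have d1 : D2 (U lam) z (Complex.I * s) (Complex.I * s) = s ^ 2 * D2 (U lam) z Complex.I Complex.I := by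
    have e : Complex.I * s = s • Complex.I := by rw [Complex.real_smul]; ring
    rw [e]
    simp only [D2, map_smul, smul_apply, smul_eq_mul]
    ring
  have d2 : D2 (U lam) z (-(s : ℂ)) (-(s : ℂ)) = s ^ 2 * D2 (U lam) z 1 1 := by
    have e : (-(s : ℂ)) = (-s) • (1 : ℂ) := by rw [Complex.real_smul]; push_cast; ring
    rw [e]
    simp only [D2, map_smul, smul_apply, smul_eq_mul]
    ring
  have d3 : D2 (U lam) z (-(Complex.I * s)) (-(Complex.I * s)) =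
      s ^ 2 * D2 (U lam) z Complex.I Complex.I := by
    have e : (-(Complex.I * s)) = (-s) • Complex.I := by
      rw [Complex.real_smul]; push_cast; ring
    rw [e]
    simp only [D2, map_smul, smul_apply, smul_eq_mul]
    ring
  rw [d0] at t0
  rw [d1] at t1
  rw [d2, map_neg] at t2
  rw [d3, map_neg] at t3
  unfold four lap
  linarith

end Pool.Agent.X154.HP
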