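import Pool.Agent.X112.HP.Stm

set_option autoImplicit false

namespace Pool.Agent.X154.HP

open Finset Pool.Agent.X112.HP

variable {n m : ℕ}

theorem P_append (A : Fin m → Matrix (Fin n) (Fin n) ℝ) (u v : List (Fin m)) :
    P A (u ++ v) = P A u * P A v := by
  simp [P]

theorem P_nonneg {A : Fin m → Matrix (Fin n) (Fin n) ℝ} (hA : ∀ k i j, 0 ≤ A k i j)
    (w : List (Fin m)) : ∀ i j, 0 ≤ P A w i j := by
  induction w with
  | nil =>
    intro i j
    unfold P
    rw [List.map_nil, List.prod_nil, Matrix.one_apply]
    split_ifs <;> norm_num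
  | cons k w ih =>
    intro i j
    have : P A (k :: w) = A k * P A w := by simp [P]
    rw [this, Matrix.mul_apply]
    exact Finset.sum_nonneg fun x _ => mul_nonneg (hA k i x) (ih x j)

theorem pos_split {A : Fin m → Matrix (Fin n) (Fin n) ℝ} (hA : ∀ k i j, 0 ≤ A k i j)
    {u v : List (Fin m)} {i j : Fin n} (h : 0 < P A (u ++ v) i j) :
    ∃ x, 0 < P A u i x ∧ 0 < P A v x j := by
  rw [P_append, Matrix.mul_apply] at h
  by_contra hcon
  push Not at hcon
  have : ∑ x, P A u i x * P A v x j ≤ 0 := by
    apply Finset.sum_nonpos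
    intro x _
    rcases (P_nonneg hA u i x).lt_or_eq with h1 | h1
    · have h2 := le_antisymm (hcon x h1) (P_nonneg hA v x j)
      rw [h2, mul_zero]
    · rw [← h1, zero_mul]
  linarith

theorem pos_join {A : Fin m → Matrix (Fin n) (Fin n) ℝ} (hA : ∀ k i j, 0 ≤ A k i j)
    {u v : List (Fin m)} {i x j : Fin n} (hu : 0 < P A u i x) (hv : 0 < P A v x j) :
    0 < P A (u ++ v) i j := by
  rw [P_append, Matrix.mul_apply]
  refine lt_of_lt_of_le (mul_pos hu hv) ?_
  exact Finset.single_le_sum (f := fun x => P A u i x * P A v x j)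
    (fun y _ => mul_nonneg (P_nonneg hA u i y) (P_nonneg hA v y j)) (Finset.mem_univ x)

theorem short {A : Fin m → Matrix (Fin n) (Fin n) ℝ} (hA : ∀ k i j, 0 ≤ A k i j) (i j : Fin n) :
    ∀ (L : ℕ) (w : List (Fin m)), w.length = L → 0 < P A w i j →
      ∃ w : List (Fin m), w.length < n ∧ 0 < P A w i j := by
  intro L
  induction L using Nat.strong_induction_on with
  | _ L ih =>
    intro w hw hpos
    by_cases hL : L < n
    · exact ⟨w, by omega, hpos⟩
    · have hv : ∀ t : Fin (L + 1), ∃ x, 0 < P A (w.take t) i x ∧ 0 < P A (w.drop t) x j := by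
        intro t
        apply pos_split hA
        rw [List.take_append_drop]
        exact hpos
      choose f hf1 hf2 using hv
      obtain ⟨s, t, hst, hfst⟩ := Fintype.exists_ne_map_eq_of_card_lt f (by
        rw [Fintype.card_fin, Fintype.card_fin]; omega)
      have key : ∀ s t : Fin (L + 1), s.1 < t.1 → f s = f t →
          ∃ w : List (Fin m), w.length < n ∧ 0 < P A w i j := by
        intro s t hlt hfe
        have h1 := hf1 s
        have h2 := hf2 t
        rw [hfe] at h1
        have h3 := pos_join hA h1 h2
        have hlen : (w.take s ++ w.drop t).length = s.1 + (L - t.1) := by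
          rw [List.length_append, List.length_take, List.length_drop, hw]
          have := s.2
          omega
        exact ih _ (by have := t.2; omega) (w.take s ++ w.drop t) hlen h3
      rcases lt_or_gt_of_ne (fun h => hst (Fin.ext h) : s.1 ≠ t.1) with h | h
      · exact key s t h hfst
      · exact key t s h hfst.symm

theorem t_SHO : S_SHO := by
  intro n m A hA i j ⟨w, hw⟩
  exact short hA i j w.length w rfl hw

end Pool.Agent.X154.HP
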