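import Pool.Agent.X154.HP.Pointwise

/-! # The second variation of the distance function -/

set_option autoImplicit false

open Filter Topology MeasureTheory Set
open scoped ContDiff

namespace Pool.Agent.X154.HP

variable {lam : ℂ → ℝ}

lemma prim_deriv {E : Type*} [NormedAddCommGroup E] [NormedSpace ℝ E] [CompleteSpace E]
    {f : ℝ → E} (hf : Continuous f) (t : ℝ) :
    HasDerivAt (fun t => ∫ τ in (0 : ℝ)..t, f τ) (f t) t :=
  intervalIntegral.integral_hasDerivAt_right (hf.intervalIntegrable _ _)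
    (hf.stronglyMeasurableAtFilter _ _) hf.continuousAt

lemma contDiff_one_of {E : Type*} [NormedAddCommGroup E] [NormedSpace ℝ E]
    {f f' : ℝ → E} (h : ∀ t, HasDerivAt f (f' t) t) (hc : Continuous f') : ContDiff ℝ 1 f := by
  rw [contDiff_one_iff_deriv]
  refine ⟨fun t => (h t).differentiableAt, ?_⟩
  have : deriv f = f' := funext fun t => (h t).deriv
  rw [this]; exact hc

lemma cont_G (h : IsMetric lam) : Continuous (G (U lam)) := by
  have h1 : Continuous (fderiv ℝ (U lam)) := (contDiff_fderiv (U_smooth h)).continuous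
  have h2 : Continuous fun z => fderiv ℝ (U lam) z 1 := h1.clm_apply continuous_const
  have h3 : Continuous fun z => fderiv ℝ (U lam) z Complex.I := h1.clm_apply continuous_const
  unfold G
  exact ((Complex.continuous_ofReal.comp h2).sub
    (continuous_const.mul (Complex.continuous_ofReal.comp h3))).div_const 2

lemma D2_bound {u : ℂ → ℝ} (hu : ContDiff ℝ ∞ u) (ρ : ℝ) : ∃ C : ℝ, 0 ≤ C ∧
    ∀ z v : ℂ, ‖z‖ ≤ ρ → |D2 u z v v| ≤ C * ‖v‖ ^ 2 := by
  have hcont : ∀ a b : ℂ, ContinuousOn (fun z => D2 u z a b) (Metric.closedBall (0 : ℂ) ρ) := by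
    intro a b
    have h2 : ContDiff ℝ ∞ (fun z => fderiv ℝ (fderiv ℝ u) z a) :=
      (contDiff_D2 hu).clm_apply contDiff_const
    exact (h2.clm_apply (contDiff_const (c := b))).continuous.continuousOn
  obtain ⟨C1, h1⟩ := (isCompact_closedBall (0 : ℂ) ρ).exists_bound_of_continuousOn (hcont 1 1)
  obtain ⟨C2, h2⟩ := (isCompact_closedBall (0 : ℂ) ρ).exists_bound_of_continuousOn
    (hcont 1 Complex.I)
  obtain ⟨C3, h3⟩ := (isCompact_closedBall (0 : ℂ) ρ).exists_bound_of_continuousOn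
    (hcont Complex.I Complex.I)
  refine ⟨|C1| + 2 * |C2| + |C3|, by positivity, fun z v hz => ?_⟩
  have hzb : z ∈ Metric.closedBall (0 : ℂ) ρ := mem_closedBall_zero_iff.mpr hz
  have e1 : v = v.re • (1 : ℂ) + v.im • Complex.I := by
    apply Complex.ext <;> simp
  have key : ∀ (z : ℂ) (x y : ℝ),
      D2 u z (x • (1 : ℂ) + y • Complex.I) (x • (1 : ℂ) + y • Complex.I) =
      x ^ 2 * D2 u z 1 1 + 2 * x * y * D2 u z 1 Complex.I + y ^ 2 * D2 u z Complex.I Complex.I := by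
    intro z x y
    have s := D2_symm hu z Complex.I 1
    simp only [D2] at s ⊢
    simp only [map_add, map_smul, add_apply, smul_apply, smul_eq_mul]
    rw [s]
    ring
  have k1 := key z v.re v.im
  rw [← e1] at k1
  rw [k1]
  have r1 : |v.re| ≤ ‖v‖ := Complex.abs_re_le_norm v
  have r2 : |v.im| ≤ ‖v‖ := Complex.abs_im_le_norm v
  have q1 : |D2 u z 1 1| ≤ |C1| := (h1 z hzb).trans (le_abs_self _)
  have q2 : |D2 u z 1 Complex.I| ≤ |C2| := (h2 z hzb).trans (le_abs_self _)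
  have q3 : |D2 u z Complex.I Complex.I| ≤ |C3| := (h3 z hzb).trans (le_abs_self _)
  have n0 : 0 ≤ ‖v‖ := norm_nonneg v
  calc _ ≤ |v.re ^ 2 * D2 u z 1 1| + |2 * v.re * v.im * D2 u z 1 Complex.I| +
      |v.im ^ 2 * D2 u z Complex.I Complex.I| := abs_add_three _ _ _
    _ = |v.re| ^ 2 * |D2 u z 1 1| + 2 * |v.re| * |v.im| * |D2 u z 1 Complex.I| +
      |v.im| ^ 2 * |D2 u z Complex.I Complex.I| := by
        rw [abs_mul, abs_mul, abs_mul, abs_mul, abs_mul, abs_pow, abs_pow, abs_two]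
    _ ≤ ‖v‖ ^ 2 * |C1| + 2 * ‖v‖ * ‖v‖ * |C2| + ‖v‖ ^ 2 * |C3| := by gcongr
    _ = (|C1| + 2 * |C2| + |C3|) * ‖v‖ ^ 2 := by ring

lemma sv_curve (h : IsMetric lam) {γ : ℝ → ℂ} (hγ : ContDiff ℝ 1 γ) (hℓ : 0 < len lam γ) :
    ∃ a q : ℝ → ℂ, ContDiff ℝ 1 a ∧ a 0 = 0 ∧ a 1 = 1 ∧
      (∀ t, deriv a t = q t * deriv γ t - G (U lam) (γ t) * deriv γ t * a t) ∧
      (∀ t ∈ Icc (0 : ℝ) 1, ‖a t‖ ≤ Real.sqrt (lam (γ 1)) / Real.sqrt (lam (γ t))) ∧
      (∀ t ∈ Icc (0 : ℝ) 1, ‖q t‖ ≤ Real.sqrt (lam (γ 1)) / len lam γ) := by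
  set ℓ := len lam γ with hℓdef
  set sp : ℝ → ℝ := fun t => Real.sqrt (lam (γ t)) * ‖deriv γ t‖ with hsp
  have hspc : Continuous sp := cont_speed h hγ
  have hsp0 : ∀ t, 0 ≤ sp t := fun t => by positivity
  set S : ℝ → ℝ := fun t => ∫ τ in (0 : ℝ)..t, sp τ with hS
  have hSd : ∀ t, HasDerivAt S (sp t) t := fun t => prim_deriv hspc t
  have hS0 : S 0 = 0 := by simp [hS]
  have hS1 : S 1 = ℓ := rfl
  have hSmono : Monotone S := monotone_of_hasDerivAt_nonneg hSd hsp0
  set gg : ℝ → ℂ := fun t => G (U lam) (γ t) * deriv γ t with hgg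
  have hggc : Continuous gg := ((cont_G h).comp hγ.continuous).mul (cont_deriv hγ)
  set J : ℝ → ℂ := fun t => ∫ τ in (0 : ℝ)..t, gg τ with hJ
  have hJd : ∀ t, HasDerivAt J (gg t) t := fun t => prim_deriv hggc t
  -- the modulus of the exponential factor
  have hmod : ∀ t, ‖Complex.exp (J 1 - J t)‖ = Real.sqrt (lam (γ 1)) / Real.sqrt (lam (γ t)) := by
    intro t
    have hd : ∀ τ, HasDerivAt (fun τ => U lam (γ τ) - 2 * (J τ).re) 0 τ := by
      intro τ
      have h1 : HasDerivAt (fun τ => U lam (γ τ)) (fderiv ℝ (U lam) (γ τ) (deriv γ τ)) τ :=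
        (hasD1 (U_smooth h) (γ τ)).comp_hasDerivAt τ (hasDeriv hγ τ)
      have h2 : HasDerivAt (fun τ => (J τ).re) (gg τ).re τ :=
        Complex.reCLM.hasFDerivAt.comp_hasDerivAt τ (hJd τ)
      have h3 := h1.sub (h2.const_mul 2)
      convert! h3 using 1
      rw [fderiv_eq, hgg]; simp only []; ring
    have hconst : ∀ x y, (fun τ => U lam (γ τ) - 2 * (J τ).re) x =
        (fun τ => U lam (γ τ) - 2 * (J τ).re) y :=
      is_const_of_deriv_eq_zero (fun τ => (hd τ).differentiableAt) (fun τ => (hd τ).deriv)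
    have e := hconst 1 t
    simp only [] at e
    rw [Complex.norm_exp, sqrt_eq h, sqrt_eq h, ← Real.exp_sub]
    congr 1
    rw [Complex.sub_re]
    linarith
  set a : ℝ → ℂ := fun t => Complex.exp (J 1 - J t) * ((S t : ℝ) / ℓ : ℝ) with ha
  set q : ℝ → ℂ := fun t => Complex.exp (J 1 - J t) * (((sp t / ℓ : ℝ) : ℂ) / deriv γ t) with hq
  have hqg : ∀ t, q t * deriv γ t = Complex.exp (J 1 - J t) * ((sp t / ℓ : ℝ) : ℂ) := by
    intro t
    simp only [hq]
    by_cases h0 : deriv γ t = 0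
    · have : sp t = 0 := by simp only [hsp]; rw [h0]; simp
      rw [this, h0]; simp
    · rw [mul_assoc, div_mul_cancel₀ _ h0]
  have had : ∀ t, HasDerivAt a (q t * deriv γ t - G (U lam) (γ t) * deriv γ t * a t) t := by
    intro t
    have h1 : HasDerivAt (fun t => Complex.exp (J 1 - J t)) (Complex.exp (J 1 - J t) * (0 - gg t)) t := by
      have := ((hasDerivAt_const t (J 1)).sub (hJd t))
      exact this.cexp
    have h2 : HasDerivAt (fun t => (((S t : ℝ) / ℓ : ℝ) : ℂ)) ((sp t / ℓ : ℝ) : ℂ) t :=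
      ((hSd t).div_const ℓ).ofReal_comp
    have h3 := h1.mul h2
    convert! h3 using 1
    rw [hqg, ha, hgg]
    simp only []
    ring
  have hqc : Continuous (fun t => q t * deriv γ t - G (U lam) (γ t) * deriv γ t * a t) := by
    have e : (fun t => q t * deriv γ t - G (U lam) (γ t) * deriv γ t * a t) =
        fun t => Complex.exp (J 1 - J t) * ((sp t / ℓ : ℝ) : ℂ) - gg t * a t := by
      funext t; rw [hqg]
    rw [e]
    have hJc : Continuous J := continuous_iff_continuousAt.mpr fun t => (hJd t).continuousAt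
    have hac : Continuous a := continuous_iff_continuousAt.mpr fun t => (had t).continuousAt
    have hE : Continuous fun t => Complex.exp (J 1 - J t) :=
      Complex.continuous_exp.comp (continuous_const.sub hJc)
    exact (hE.mul (Complex.continuous_ofReal.comp (hspc.div_const ℓ))).sub (hggc.mul hac)
  refine ⟨a, q, contDiff_one_of had hqc, ?_, ?_, fun t => (had t).deriv, ?_, ?_⟩
  · simp [ha, hS0]
  · simp only [ha]
    rw [hS1, div_self hℓ.ne']
    simp
  · intro t ht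
    simp only [ha]
    rw [norm_mul, hmod, Complex.norm_real, Real.norm_eq_abs]
    have h1 : 0 ≤ S t := by rw [← hS0]; exact hSmono ht.1
    have h2 : S t ≤ ℓ := by rw [← hS1]; exact hSmono ht.2
    have h3 : |S t / ℓ| ≤ 1 := by
      rw [abs_of_nonneg (by positivity), div_le_one hℓ]; exact h2
    have h4 : 0 ≤ Real.sqrt (lam (γ 1)) / Real.sqrt (lam (γ t)) := by positivity
    calc _ ≤ Real.sqrt (lam (γ 1)) / Real.sqrt (lam (γ t)) * 1 :=
          mul_le_mul_of_nonneg_left h3 h4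
      _ = _ := mul_one _
  · intro t ht
    simp only [hq]
    rw [norm_mul, hmod, norm_div, Complex.norm_real, Real.norm_eq_abs,
      abs_of_nonneg (by have := hsp0 t; positivity : 0 ≤ sp t / ℓ)]
    by_cases h0 : deriv γ t = 0
    · rw [h0]; simp only [norm_zero, div_zero, mul_zero]; positivity
    · have h1 : 0 < ‖deriv γ t‖ := norm_pos_iff.mpr h0
      have h2 := h.sqrt_pos (γ t)
      simp only [hsp]
      apply le_of_eq
      field_simp

theorem sv (h : IsMetric lam) (hC : Complete lam) {c : ℝ} (hc : 0 ≤ c)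
    (hK : ∀ z, lap (U lam) z ≤ 2 * c * lam z) {z0 z1 : ℂ} (hne : z0 ≠ z1) {ε : ℝ} (hε : 0 < ε) :
    ∃ s0 > 0, ∀ s : ℝ, 0 < s → s < s0 →
      gdist lam z0 (z1 + (s : ℂ)) + gdist lam z0 (z1 + Complex.I * s) +
        gdist lam z0 (z1 + -(s : ℂ)) + gdist lam z0 (z1 + -(Complex.I * s)) ≤
      4 * gdist lam z0 z1 + s ^ 2 * (lam z1 * (2 / gdist lam z0 z1 + c * gdist lam z0 z1) + ε) := by
  set d := gdist lam z0 z1 with hd
  have hd0 : 0 < d := by
    rcases (gdist_nonneg (lam := lam) z0 z1).lt_or_eq with h1 | h1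
    · exact h1
    · exact absurd (eq_of_gdist h h1.symm) hne
  have hu := U_smooth h
  obtain ⟨ρ, hρ⟩ := bounded_ball h hC z0 (d + 1)
  obtain ⟨m, hm0, hm⟩ := exists_min h 0 ρ
  obtain ⟨T, hT0, hT⟩ := taylor3 hu ρ
  obtain ⟨g, hg⟩ := (isCompact_closedBall (0 : ℂ) ρ).exists_bound_of_continuousOn
    (cont_G h).continuousOn
  obtain ⟨C2, hC20, hC2⟩ := D2_bound hu ρ
  have hρ0 : 0 ≤ ρ := (norm_nonneg z0).trans (hρ z0 (by rw [gdist_self]; linarith))
  have hg0 : 0 ≤ g := (norm_nonneg _).trans (hg 0 (by simpa using hρ0))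
  set l1 := Real.sqrt (lam z1) with hl1
  have hl10 : 0 < l1 := h.sqrt_pos z1
  have hl1sq : l1 ^ 2 = lam z1 := Real.sq_sqrt (h.pos z1).le
  set a0 := l1 / m with ha0
  have ha00 : 0 < a0 := by positivity
  set B := 1 + g * a0 + l1 / d + C2 * a0 ^ 2 + T * a0 ^ 3 with hB
  have hB1 : 1 ≤ B := by
    have : 0 ≤ g * a0 + l1 / d + C2 * a0 ^ 2 + T * a0 ^ 3 := by positivity
    linarith
  set Big := 4 + c * lam z1 + 800 * B ^ 3 * (d + 1) with hBig
  have hBig0 : 0 < Big := by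
    have := (h.pos z1).le
    positivity
  refine ⟨min 1 (min (1 / (4 * B)) (min (1 / (a0 + 1)) (ε / Big))), by positivity, ?_⟩
  intro s hs hs0
  have hs1 : s < 1 := hs0.trans_le (min_le_left _ _)
  have hs2 : s < 1 / (4 * B) := hs0.trans_le ((min_le_right _ _).trans (min_le_left _ _))
  have hs3 : s < 1 / (a0 + 1) := hs0.trans_le ((min_le_right _ _).trans
    ((min_le_right _ _).trans (min_le_left _ _)))
  have hs4 : s < ε / Big := hs0.trans_le ((min_le_right _ _).trans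
    ((min_le_right _ _).trans (min_le_right _ _)))
  have hs2' : 4 * B * s ≤ 1 := by
    rw [lt_div_iff₀ (by positivity)] at hs2; linarith
  have hs3' : a0 * s ≤ 1 := by
    rw [lt_div_iff₀ (by positivity)] at hs3; nlinarith
  have hs4' : s * Big ≤ ε := by
    rw [lt_div_iff₀ (by positivity)] at hs4; linarith
  have hs3pos : 0 < s ^ 3 := by positivity
  have hs3le : s ^ 3 ≤ 1 := pow_le_one₀ hs.le hs1.le
  obtain ⟨γ, hγ, g0, g1, hlen⟩ := exists_curve (lam := lam) z0 z1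
    (show gdist lam z0 z1 < d + s ^ 3 by linarith)
  set ℓ := len lam γ with hℓ
  have hdℓ : d ≤ ℓ := by
    have := gdist_le_len (lam := lam) hγ
    rwa [g0, g1] at this
  have hℓ0 : 0 < ℓ := hd0.trans_le hdℓ
  have hℓ1 : ℓ ≤ d + 1 := by linarith
  obtain ⟨a, q, hac, haz, hao, had, hab, hqb⟩ := sv_curve h hγ hℓ0
  have hspc := cont_speed h hγ
  have hin : ∀ t ∈ Icc (0 : ℝ) 1, ‖γ t‖ ≤ ρ := by
    intro t ht
    apply hρ
    have h1 := gdist_le_part (lam := lam) hγ ht.1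
    rw [g0] at h1
    have h2 : ∫ t in (0 : ℝ)..t, Real.sqrt (lam (γ t)) * ‖deriv γ t‖ ≤ ℓ :=
      intervalIntegral.integral_mono_interval le_rfl ht.1 ht.2
        (Eventually.of_forall fun x => by positivity) (hspc.intervalIntegrable _ _)
    linarith
  -- the comparison curves
  have hcurve : ∀ w : ℂ, gdist lam z0 (z1 + w) ≤ ∫ t in (0 : ℝ)..1,
      Real.sqrt (lam (γ t + a t * w)) *
        ‖deriv γ t + (q t * deriv γ t - G (U lam) (γ t) * deriv γ t * a t) * w‖ := by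
    intro w
    have hcc : ContDiff ℝ 1 (fun t => γ t + a t * w) := hγ.add (hac.mul contDiff_const)
    have h1 := gdist_le_len (lam := lam) hcc
    simp only [g0, g1, haz, hao, zero_mul, add_zero, one_mul] at h1
    refine h1.trans (le_of_eq ?_)
    unfold len
    have hdd : ∀ t, deriv (fun t => γ t + a t * w) t =
        deriv γ t + (q t * deriv γ t - G (U lam) (γ t) * deriv γ t * a t) * w := by
      intro t
      have hh : HasDerivAt (fun t => γ t + a t * w) (deriv γ t + deriv a t * w) t :=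
        (hasDeriv hγ t).add ((hasDeriv hac t).mul_const w)
      rw [hh.deriv, had]
    simp only [hdd]
  have hint : ∀ w : ℂ, IntervalIntegrable (fun t => Real.sqrt (lam (γ t + a t * w)) *
        ‖deriv γ t + (q t * deriv γ t - G (U lam) (γ t) * deriv γ t * a t) * w‖) volume 0 1 := by
    intro w
    have hcc : ContDiff ℝ 1 (fun t => γ t + a t * w) := hγ.add (hac.mul contDiff_const)
    have h1 := cont_speed h hcc
    have hdd : ∀ t, deriv (fun t => γ t + a t * w) t =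
        deriv γ t + (q t * deriv γ t - G (U lam) (γ t) * deriv γ t * a t) * w := by
      intro t
      have hh : HasDerivAt (fun t => γ t + a t * w) (deriv γ t + deriv a t * w) t :=
        (hasDeriv hγ t).add ((hasDeriv hac t).mul_const w)
      rw [hh.deriv, had]
    simp only [hdd] at h1
    exact h1.intervalIntegrable _ _
  set K0 := 4 + 2 * s ^ 2 * (l1 / ℓ) ^ 2 + s ^ 2 * (2 * c * lam z1) / 2 + 800 * B ^ 3 * s ^ 3
    with hK0
  have hpt : ∀ t ∈ Icc (0 : ℝ) 1,
      Real.sqrt (lam (γ t + a t * (s : ℂ))) *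
        ‖deriv γ t + (q t * deriv γ t - G (U lam) (γ t) * deriv γ t * a t) * (s : ℂ)‖ +
      Real.sqrt (lam (γ t + a t * (Complex.I * s))) *
        ‖deriv γ t + (q t * deriv γ t - G (U lam) (γ t) * deriv γ t * a t) * (Complex.I * s)‖ +
      Real.sqrt (lam (γ t + a t * (-(s : ℂ)))) *
        ‖deriv γ t + (q t * deriv γ t - G (U lam) (γ t) * deriv γ t * a t) * (-(s : ℂ))‖ +
      Real.sqrt (lam (γ t + a t * (-(Complex.I * s)))) *
        ‖deriv γ t + (q t * deriv γ t - G (U lam) (γ t) * deriv γ t * a t) * (-(Complex.I * s))‖ ≤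
      (Real.sqrt (lam (γ t)) * ‖deriv γ t‖) * K0 := by
    intro t ht
    have hz := hin t ht
    have hzb : γ t ∈ Metric.closedBall (0 : ℂ) ρ := mem_closedBall_zero_iff.mpr hz
    have ha1 : ‖a t‖ ≤ l1 / Real.sqrt (lam (γ t)) := by
      have := hab t ht
      rwa [g1] at this
    have hmm : m ≤ Real.sqrt (lam (γ t)) := hm _ (by simpa using hz)
    have ha2 : ‖a t‖ ≤ a0 := ha1.trans (by rw [ha0]; gcongr)
    have hq1 : ‖q t‖ ≤ l1 / ℓ := by
      have := hqb t ht
      rwa [g1] at this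
    have hq2 : ‖q t‖ ≤ l1 / d := hq1.trans (by gcongr)
    have hGa : ‖G (U lam) (γ t) * a t‖ ≤ g * a0 := by
      rw [norm_mul]
      exact mul_le_mul (hg _ hzb) ha2 (norm_nonneg _) hg0
    have hA : ‖G (U lam) (γ t) * a t‖ ≤ B := by
      have : 0 ≤ 1 + l1 / d + C2 * a0 ^ 2 + T * a0 ^ 3 := by positivity
      linarith
    have hP : ‖q t - G (U lam) (γ t) * a t‖ ≤ B := by
      refine (norm_sub_le _ _).trans ?_
      have : 0 ≤ 1 + C2 * a0 ^ 2 + T * a0 ^ 3 := by positivity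
      linarith
    have hDD : ∀ b : ℂ, ‖b‖ ≤ a0 → |D2 (U lam) (γ t) b b| ≤ B := by
      intro b hb
      have h1 : |D2 (U lam) (γ t) b b| ≤ C2 * a0 * a0 := by
        calc |D2 (U lam) (γ t) b b| ≤ C2 * ‖b‖ ^ 2 := hC2 _ _ hz
          _ ≤ C2 * a0 ^ 2 := by gcongr
          _ = C2 * a0 * a0 := by ring
      have : 0 ≤ 1 + g * a0 + l1 / d + T * a0 ^ 3 := by positivity
      nlinarith
    have hTa : T * ‖a t‖ ^ 3 ≤ B := by
      have h1 : T * ‖a t‖ ^ 3 ≤ T * a0 ^ 3 := by gcongr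
      have : 0 ≤ 1 + g * a0 + l1 / d + C2 * a0 ^ 2 := by positivity
      linarith
    have hpw := pointwise h (g' := deriv γ t) (q := q t) (a := a t) hT hz hB1 hP hA
      (hDD _ ha2) (hDD _ (by rw [norm_mul, Complex.norm_I, one_mul]; exact ha2)) hTa hs hs2'
      ((mul_le_mul_of_nonneg_right ha2 hs.le).trans hs3')
    refine hpw.trans (mul_le_mul_of_nonneg_left ?_ (by positivity))
    rw [hK0]
    have hq3 : ‖q t‖ ^ 2 ≤ (l1 / ℓ) ^ 2 := pow_le_pow_left₀ (norm_nonneg _) hq1 2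
    have hlap : ‖a t‖ ^ 2 * lap (U lam) (γ t) ≤ 2 * c * lam z1 := by
      have hlp := h.pos (γ t)
      have hsq : ‖a t‖ ^ 2 ≤ lam z1 / lam (γ t) := by
        calc ‖a t‖ ^ 2 ≤ (l1 / Real.sqrt (lam (γ t))) ^ 2 :=
              pow_le_pow_left₀ (norm_nonneg _) ha1 2
          _ = lam z1 / lam (γ t) := by
              rw [div_pow, hl1sq, Real.sq_sqrt hlp.le]
      calc ‖a t‖ ^ 2 * lap (U lam) (γ t) ≤ ‖a t‖ ^ 2 * (2 * c * lam (γ t)) :=
            mul_le_mul_of_nonneg_left (hK _) (by positivity)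
        _ ≤ (lam z1 / lam (γ t)) * (2 * c * lam (γ t)) :=
            mul_le_mul_of_nonneg_right hsq (by positivity)
        _ = 2 * c * lam z1 := by field_simp
    have h2s : 0 ≤ s ^ 2 := by positivity
    have e1 : 2 * s ^ 2 * ‖q t‖ ^ 2 ≤ 2 * s ^ 2 * (l1 / ℓ) ^ 2 := by gcongr
    have e2 : s ^ 2 * (‖a t‖ ^ 2 * lap (U lam) (γ t)) ≤ s ^ 2 * (2 * c * lam z1) := by gcongr
    linarith
  have hsum : gdist lam z0 (z1 + (s : ℂ)) + gdist lam z0 (z1 + Complex.I * s) +
        gdist lam z0 (z1 + -(s : ℂ)) + gdist lam z0 (z1 + -(Complex.I * s)) ≤ ℓ * K0 := by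
    refine (add_le_add (add_le_add (add_le_add (hcurve _) (hcurve _)) (hcurve _))
      (hcurve _)).trans ?_
    rw [← intervalIntegral.integral_add (hint _) (hint _),
      ← intervalIntegral.integral_add ((hint _).add (hint _)) (hint _),
      ← intervalIntegral.integral_add (((hint _).add (hint _)).add (hint _)) (hint _)]
    have e : ℓ * K0 = ∫ t in (0 : ℝ)..1, (Real.sqrt (lam (γ t)) * ‖deriv γ t‖) * K0 := by
      rw [intervalIntegral.integral_mul_const]
      rfl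
    rw [e]
    exact intervalIntegral.integral_mono_on zero_le_one
      ((((hint _).add (hint _)).add (hint _)).add (hint _))
      ((hspc.mul continuous_const).intervalIntegrable _ _) hpt
  refine hsum.trans ?_
  have hlz := h.pos z1
  have eK : ℓ * K0 = 4 * ℓ + 2 * s ^ 2 * lam z1 / ℓ + s ^ 2 * (c * lam z1) * ℓ +
      800 * B ^ 3 * s ^ 3 * ℓ := by
    rw [hK0, ← hl1sq]
    field_simp
  rw [eK]
  have i1 : 2 * s ^ 2 * lam z1 / ℓ ≤ 2 * s ^ 2 * lam z1 / d := by gcongr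
  have i2 : s ^ 2 * (c * lam z1) * ℓ ≤ s ^ 2 * (c * lam z1) * (d + s ^ 3) := by gcongr
  have i3 : 800 * B ^ 3 * s ^ 3 * ℓ ≤ 800 * B ^ 3 * s ^ 3 * (d + 1) := by gcongr
  have i4 : s ^ 2 * (c * lam z1) * s ^ 3 ≤ s ^ 3 * (c * lam z1) := by
    have h5 : s ^ 2 ≤ 1 := pow_le_one₀ hs.le hs1.le
    have h6 : s ^ 2 * s ^ 3 ≤ 1 * s ^ 3 := mul_le_mul_of_nonneg_right h5 hs3pos.le
    have hcl : 0 ≤ c * lam z1 := by positivity
    calc s ^ 2 * (c * lam z1) * s ^ 3 = (s ^ 2 * s ^ 3) * (c * lam z1) := by ring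
      _ ≤ (1 * s ^ 3) * (c * lam z1) := mul_le_mul_of_nonneg_right h6 hcl
      _ = s ^ 3 * (c * lam z1) := by ring
  have i5 : s ^ 3 * Big ≤ s ^ 2 * ε := by
    have : s ^ 3 * Big = s ^ 2 * (s * Big) := by ring
    rw [this]; gcongr
  have e6 : 2 * s ^ 2 * lam z1 / d = s ^ 2 * (lam z1 * (2 / d)) := by ring
  rw [e6] at i1
  rw [hBig] at i5
  linarith

end Pool.Agent.X154.HP
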