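import Pool.Agent.X154.HP.Proper

/-! # Taylor expansion of `u = log lam` and an elementary inequality -/

set_option autoImplicit false

open Filter Topology MeasureTheory Set
open scoped ContDiff

namespace Pool.Agent.X154.HP

section Taylor

variable {u : ℂ → ℝ}

/-- second derivative -/
noncomputable abbrev D2 (u : ℂ → ℝ) (z v w : ℂ) : ℝ := fderiv ℝ (fderiv ℝ u) z v w

/-- the Laplacian -/
noncomputable def lap (u : ℂ → ℝ) (z : ℂ) : ℝ := D2 u z 1 1 + D2 u z Complex.I Complex.I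

/-- `∂u/∂z` -/
noncomputable def G (u : ℂ → ℝ) (z : ℂ) : ℂ :=
  ((fderiv ℝ u z 1 : ℝ) - Complex.I * (fderiv ℝ u z Complex.I : ℝ)) / 2

lemma fderiv_eq (z v : ℂ) : fderiv ℝ u z v = 2 * (G u z * v).re := by
  have e : v = v.re • (1 : ℂ) + v.im • Complex.I := by
    apply Complex.ext <;> simp
  conv_lhs => rw [e]
  rw [map_add, map_smul, map_smul, smul_eq_mul, smul_eq_mul]
  unfold G
  simp
  ring

lemma contDiff_fderiv (hu : ContDiff ℝ ∞ u) : ContDiff ℝ ∞ (fderiv ℝ u) :=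
  hu.fderiv_right (by norm_cast)

lemma contDiff_D2 (hu : ContDiff ℝ ∞ u) : ContDiff ℝ ∞ (fderiv ℝ (fderiv ℝ u)) :=
  (contDiff_fderiv hu).fderiv_right (by norm_cast)

lemma hasD1 (hu : ContDiff ℝ ∞ u) (z : ℂ) : HasFDerivAt u (fderiv ℝ u z) z :=
  (hu.differentiable (by norm_cast)).differentiableAt.hasFDerivAt

lemma hasD2 (hu : ContDiff ℝ ∞ u) (z : ℂ) :
    HasFDerivAt (fderiv ℝ u) (fderiv ℝ (fderiv ℝ u) z) z :=
  ((contDiff_fderiv hu).differentiable (by norm_cast)).differentiableAt.hasFDerivAt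

lemma D2_symm (hu : ContDiff ℝ ∞ u) (z v w : ℂ) : D2 u z v w = D2 u z w v := by
  have h1 : ∀ᶠ y in 𝓝 z, HasFDerivAt u (fderiv ℝ u y) y := Eventually.of_forall fun y => hasD1 hu y
  exact second_derivative_symmetric_of_eventually h1 (hasD2 hu z) v w

/-- the trace is invariant under rotations -/
lemma lap_rot (hu : ContDiff ℝ ∞ u) (z a : ℂ) :
    D2 u z a a + D2 u z (Complex.I * a) (Complex.I * a) = ‖a‖ ^ 2 * lap u z := by
  have e1 : a = a.re • (1 : ℂ) + a.im • Complex.I := by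
    apply Complex.ext <;> simp
  have e2 : Complex.I * a = (-a.im) • (1 : ℂ) + a.re • Complex.I := by
    apply Complex.ext <;> simp
  have n : ‖a‖ ^ 2 = a.re ^ 2 + a.im ^ 2 := by
    rw [← Complex.normSq_eq_norm_sq, Complex.normSq_apply]; ring
  have s := D2_symm hu z Complex.I 1
  have key : ∀ x y : ℝ, D2 u z (x • (1 : ℂ) + y • Complex.I) (x • (1 : ℂ) + y • Complex.I) =
      x ^ 2 * D2 u z 1 1 + 2 * x * y * D2 u z 1 Complex.I + y ^ 2 * D2 u z Complex.I Complex.I := by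
    intro x y
    simp only [D2] at s ⊢
    simp only [map_add, map_smul, ContinuousLinearMap.add_apply, ContinuousLinearMap.smul_apply,
      smul_eq_mul]
    rw [s]
    ring
  have k1 := key a.re a.im
  rw [← e1] at k1
  have k2 := key (-a.im) a.re
  rw [← e2] at k2
  rw [k1, k2, n]
  unfold lap
  ring

lemma lip_D2 (hu : ContDiff ℝ ∞ u) (ρ : ℝ) (a b : ℂ) : ∃ C : ℝ, 0 ≤ C ∧
    ∀ z w : ℂ, ‖z‖ ≤ ρ → ‖w‖ ≤ ρ → |D2 u w a b - D2 u z a b| ≤ C * ‖w - z‖ := by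
  have h1 : ContDiff ℝ ∞ (fun z => D2 u z a b) := by
    have h2 : ContDiff ℝ ∞ (fun z => fderiv ℝ (fderiv ℝ u) z a) :=
      (contDiff_D2 hu).clm_apply contDiff_const
    exact h2.clm_apply contDiff_const
  have hc : Continuous (fderiv ℝ (fun z => D2 u z a b)) := h1.continuous_fderiv (by norm_cast)
  obtain ⟨C, hC⟩ := (isCompact_closedBall (0 : ℂ) ρ).exists_bound_of_continuousOn
    hc.continuousOn
  refine ⟨max C 0, le_max_right _ _, fun z w hz hw => ?_⟩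
  have h1 := (convex_closedBall (0 : ℂ) ρ).norm_image_sub_le_of_norm_fderiv_le
      (𝕜 := ℝ) (f := fun z => D2 u z a b) (C := max C 0)
      (fun x _ => (h1.differentiable (by norm_cast)).differentiableAt)
      (fun x hx => (hC x hx).trans (le_max_left _ _))
      (mem_closedBall_zero_iff.mpr hz) (mem_closedBall_zero_iff.mpr hw)
  rwa [Real.norm_eq_abs] at h1

lemma lip_D2' (hu : ContDiff ℝ ∞ u) (ρ : ℝ) : ∃ C : ℝ, 0 ≤ C ∧
    ∀ z w v : ℂ, ‖z‖ ≤ ρ → ‖w‖ ≤ ρ →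
      |D2 u w v v - D2 u z v v| ≤ C * ‖w - z‖ * ‖v‖ ^ 2 := by
  obtain ⟨C1, hC1, h1⟩ := lip_D2 hu ρ 1 1
  obtain ⟨C2, hC2, h2⟩ := lip_D2 hu ρ 1 Complex.I
  obtain ⟨C3, hC3, h3⟩ := lip_D2 hu ρ Complex.I Complex.I
  refine ⟨C1 + 2 * C2 + C3, by positivity, fun z w v hz hw => ?_⟩
  have e1 : v = v.re • (1 : ℂ) + v.im • Complex.I := by
    apply Complex.ext <;> simp
  have key : ∀ (z : ℂ) (x y : ℝ),
      D2 u z (x • (1 : ℂ) + y • Complex.I) (x • (1 : ℂ) + y • Complex.I) =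
      x ^ 2 * D2 u z 1 1 + 2 * x * y * D2 u z 1 Complex.I + y ^ 2 * D2 u z Complex.I Complex.I := by
    intro z x y
    have s := D2_symm hu z Complex.I 1
    simp only [D2] at s ⊢
    simp only [map_add, map_smul, ContinuousLinearMap.add_apply, ContinuousLinearMap.smul_apply,
      smul_eq_mul]
    rw [s]
    ring
  have k1 := key z v.re v.im
  have k2 := key w v.re v.im
  rw [← e1] at k1 k2
  rw [k1, k2]
  have r1 : |v.re| ≤ ‖v‖ := Complex.abs_re_le_norm v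
  have r2 : |v.im| ≤ ‖v‖ := Complex.abs_im_le_norm v
  have q1 := h1 z w hz hw
  have q2 := h2 z w hz hw
  have q3 := h3 z w hz hw
  have e : v.re ^ 2 * D2 u w 1 1 + 2 * v.re * v.im * D2 u w 1 Complex.I +
      v.im ^ 2 * D2 u w Complex.I Complex.I -
      (v.re ^ 2 * D2 u z 1 1 + 2 * v.re * v.im * D2 u z 1 Complex.I +
      v.im ^ 2 * D2 u z Complex.I Complex.I) =
      v.re ^ 2 * (D2 u w 1 1 - D2 u z 1 1) +
      2 * v.re * v.im * (D2 u w 1 Complex.I - D2 u z 1 Complex.I) +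
      v.im ^ 2 * (D2 u w Complex.I Complex.I - D2 u z Complex.I Complex.I) := by ring
  rw [e]
  have n0 : 0 ≤ ‖v‖ := norm_nonneg v
  have n1 : 0 ≤ ‖w - z‖ := norm_nonneg _
  calc _ ≤ |v.re ^ 2 * (D2 u w 1 1 - D2 u z 1 1)| +
      |2 * v.re * v.im * (D2 u w 1 Complex.I - D2 u z 1 Complex.I)| +
      |v.im ^ 2 * (D2 u w Complex.I Complex.I - D2 u z Complex.I Complex.I)| := abs_add_three _ _ _
    _ = |v.re| ^ 2 * |D2 u w 1 1 - D2 u z 1 1| +
      2 * |v.re| * |v.im| * |D2 u w 1 Complex.I - D2 u z 1 Complex.I| +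
      |v.im| ^ 2 * |D2 u w Complex.I Complex.I - D2 u z Complex.I Complex.I| := by
        rw [abs_mul, abs_mul, abs_mul, abs_mul, abs_mul, abs_pow, abs_pow, abs_two]
    _ ≤ ‖v‖ ^ 2 * (C1 * ‖w - z‖) + 2 * ‖v‖ * ‖v‖ * (C2 * ‖w - z‖) +
        ‖v‖ ^ 2 * (C3 * ‖w - z‖) := by gcongr
    _ = (C1 + 2 * C2 + C3) * ‖w - z‖ * ‖v‖ ^ 2 := by ring

lemma taylor3 (hu : ContDiff ℝ ∞ u) (ρ : ℝ) : ∃ C : ℝ, 0 ≤ C ∧ ∀ z v : ℂ, ‖z‖ ≤ ρ → ‖v‖ ≤ 1 →
    |u (z + v) - u z - fderiv ℝ u z v - D2 u z v v / 2| ≤ C * ‖v‖ ^ 3 := by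
  obtain ⟨C', hC0, hC⟩ := lip_D2' hu (ρ + 1)
  refine ⟨C', hC0, fun z v hz hv => ?_⟩
  have hin : ∀ s ∈ Icc (0 : ℝ) 1, ‖z + s • v‖ ≤ ρ + 1 := by
    intro s hs
    calc ‖z + s • v‖ ≤ ‖z‖ + ‖s • v‖ := norm_add_le _ _
      _ = ‖z‖ + s * ‖v‖ := by rw [norm_smul, Real.norm_eq_abs, abs_of_nonneg hs.1]
      _ ≤ ρ + 1 := by nlinarith [hs.1, hs.2, norm_nonneg v]
  have hline : ∀ s : ℝ, HasDerivAt (fun s : ℝ => z + s • v) v s := by
    intro s
    simpa using ((hasDerivAt_id s).smul_const v).const_add z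
  have hF : ∀ s : ℝ, HasDerivAt (fun s : ℝ => fderiv ℝ u (z + s • v) v - fderiv ℝ u z v
      - s * D2 u z v v) (D2 u (z + s • v) v v - D2 u z v v) s := by
    intro s
    have h1 : HasDerivAt (fun s : ℝ => fderiv ℝ u (z + s • v))
      (fderiv ℝ (fderiv ℝ u) (z + s • v) v) s := (hasD2 hu (z + s • v)).comp_hasDerivAt s (hline s)
    have h2 : HasDerivAt (fun s : ℝ => fderiv ℝ u (z + s • v) v)
        (fderiv ℝ (fderiv ℝ u) (z + s • v) v v) s := by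
      have := h1.clm_apply (hasDerivAt_const s v)
      simpa using this
    have h3 : HasDerivAt (fun s : ℝ => s * D2 u z v v) (D2 u z v v) s := by
      simpa using (hasDerivAt_id s).mul_const (D2 u z v v)
    exact (h2.sub_const (fderiv ℝ u z v)).sub h3
  have hFb : ∀ s ∈ Icc (0 : ℝ) 1, |fderiv ℝ u (z + s • v) v - fderiv ℝ u z v
      - s * D2 u z v v| ≤ C' * ‖v‖ ^ 3 := by
    intro s hs
    have hb : ∀ r ∈ Icc (0 : ℝ) 1, ‖D2 u (z + r • v) v v - D2 u z v v‖ ≤ C' * ‖v‖ ^ 3 := by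
      intro r hr
      have h1 := hC z (z + r • v) v (by linarith) (hin r hr)
      rw [add_sub_cancel_left, norm_smul, Real.norm_eq_abs, abs_of_nonneg hr.1] at h1
      rw [Real.norm_eq_abs]
      refine h1.trans ?_
      have h3 : r * ‖v‖ ≤ 1 * ‖v‖ := mul_le_mul_of_nonneg_right hr.2 (norm_nonneg _)
      calc C' * (r * ‖v‖) * ‖v‖ ^ 2 ≤ C' * (1 * ‖v‖) * ‖v‖ ^ 2 := by gcongr
        _ = C' * ‖v‖ ^ 3 := by ring
    have := (convex_Icc (0 : ℝ) 1).norm_image_sub_le_of_norm_hasDerivWithin_le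
      (fun r _ => (hF r).hasDerivWithinAt) hb (left_mem_Icc.mpr zero_le_one) hs
    simp only [zero_smul, add_zero, sub_self, zero_mul, sub_zero, Real.norm_eq_abs] at this
    refine this.trans ?_
    rw [abs_of_nonneg hs.1]
    have h4 : 0 ≤ C' * ‖v‖ ^ 3 := by positivity
    nlinarith [hs.2]
  have hR : ∀ s : ℝ, HasDerivAt (fun s : ℝ => u (z + s • v) - u z - s * fderiv ℝ u z v
      - s ^ 2 / 2 * D2 u z v v) (fderiv ℝ u (z + s • v) v - fderiv ℝ u z v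
      - s * D2 u z v v) s := by
    intro s
    have h1 : HasDerivAt (fun s : ℝ => u (z + s • v)) (fderiv ℝ u (z + s • v) v) s :=
      (hasD1 hu (z + s • v)).comp_hasDerivAt s (hline s)
    have h2 : HasDerivAt (fun s : ℝ => s * fderiv ℝ u z v) (fderiv ℝ u z v) s := by
      simpa using (hasDerivAt_id s).mul_const (fderiv ℝ u z v)
    have h3 : HasDerivAt (fun s : ℝ => s ^ 2 / 2 * D2 u z v v) (s * D2 u z v v) s := by
      have := ((hasDerivAt_pow 2 s).div_const 2).mul_const (D2 u z v v)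
      convert! this using 1
      norm_num
    exact ((h1.sub_const (u z)).sub h2).sub h3
  have := (convex_Icc (0 : ℝ) 1).norm_image_sub_le_of_norm_hasDerivWithin_le
      (fun r _ => (hR r).hasDerivWithinAt) (fun r hr => by
        rw [Real.norm_eq_abs]; exact hFb r hr)
      (left_mem_Icc.mpr zero_le_one) (right_mem_Icc.mpr zero_le_one)
  simp only [zero_smul, add_zero, sub_self, zero_mul, sub_zero, Real.norm_eq_abs, one_smul,
    one_mul, one_pow, abs_one, mul_one] at this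
  have e : (0 : ℝ) ^ 2 / 2 * D2 u z v v = 0 := by norm_num
  rw [e] at this
  simp only [sub_zero] at this
  convert this using 2
  ring

end Taylor

/-- the elementary inequality for one direction -/
lemma one_term {B : ℝ} (hB : 1 ≤ B) {p a α R h N : ℝ} (hp : |p| ≤ B * h) (ha : |a| ≤ B * h)
    (hα : |α| ≤ B) (hR : |R| ≤ B * h ^ 3) (hN0 : 0 ≤ N) (hN : N ≤ B ^ 2) (h0 : 0 < h)
    (h1 : 4 * B * h ≤ 1) (hS : 0 ≤ 1 + 2 * p + N * h ^ 2) :
    (1 + 2 * p + N * h ^ 2) * Real.exp (2 * a + h ^ 2 * α / 2 + R) ≤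
      1 + 2 * p + N * h ^ 2 + 2 * a + h ^ 2 * α / 2 + 2 * a ^ 2 + 4 * p * a
        + 400 * B ^ 3 * h ^ 3 := by
  set e := h ^ 2 * α / 2 + R with he
  set x := 2 * a + e with hx
  have hh1 : h ≤ 1 := by nlinarith
  have hBh : B * h ≤ 1 / 4 := by linarith
  have hB0 : 0 < B := by linarith
  have h2 : 0 < h ^ 2 := by positivity
  have h3 : 0 < h ^ 3 := by positivity
  have heb : |e| ≤ 3 / 2 * (B * h ^ 2) := by
    have a1 : |h ^ 2 * α / 2| ≤ B * h ^ 2 / 2 := by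
      rw [abs_div, abs_mul, abs_of_pos h2, abs_two]
      have := mul_le_mul_of_nonneg_left hα h2.le
      linarith
    have a2 : B * h ^ 3 ≤ B * h ^ 2 := by
      have : h ^ 3 ≤ h ^ 2 := pow_le_pow_of_le_one h0.le hh1 (by norm_num)
      nlinarith
    have := abs_add_le (h ^ 2 * α / 2) R
    rw [← he] at this
    linarith
  have heb' : |e| ≤ 3 / 2 * (B * h) := by
    have : B * h ^ 2 ≤ B * h := by nlinarith
    linarith
  have hxb : |x| ≤ 4 * (B * h) := by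
    have := abs_add_le (2 * a) e
    rw [← hx] at this
    rw [abs_mul, abs_two] at this
    linarith [abs_nonneg a]
  have hx1 : |x| ≤ 1 := by linarith
  have hexp : Real.exp x ≤ 1 + x + x ^ 2 / 2 + |x| ^ 3 := by
    have := Real.exp_bound hx1 (n := 3) (by norm_num)
    rw [abs_le] at this
    have h2 := this.2
    simp only [Finset.sum_range_succ, Finset.sum_range_zero, Nat.factorial] at h2
    norm_num at h2
    have : 0 ≤ |x| ^ 3 := by positivity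
    linarith
  have e1 : 2 * a + h ^ 2 * α / 2 + R = x := by rw [hx, he]; ring
  rw [e1]
  have main : (1 + 2 * p + N * h ^ 2) * Real.exp x ≤
      (1 + 2 * p + N * h ^ 2) * (1 + x + x ^ 2 / 2 + |x| ^ 3) :=
    mul_le_mul_of_nonneg_left hexp hS
  refine main.trans ?_
  -- the error terms
  set b := B * h with hb
  have hb0 : 0 < b := by positivity
  have hx3 : |x| ^ 3 ≤ 64 * b ^ 3 := by
    calc |x| ^ 3 ≤ (4 * b) ^ 3 := pow_le_pow_left₀ (abs_nonneg _) hxb 3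
      _ = 64 * b ^ 3 := by ring
  have hx2 : x ^ 2 ≤ 16 * b ^ 2 := by
    rw [← sq_abs]
    calc |x| ^ 2 ≤ (4 * b) ^ 2 := pow_le_pow_left₀ (abs_nonneg _) hxb 2
      _ = 16 * b ^ 2 := by ring
  have hBh2 : B * h ^ 2 ≤ b ^ 2 := by
    rw [hb]; nlinarith
  have heb2 : |e| ≤ 3 / 2 * b ^ 2 := heb.trans (by linarith)
  have hRb : R ≤ b ^ 3 := by
    have : B * h ^ 3 ≤ b ^ 3 := by
      rw [hb, mul_pow]
      have : B ≤ B ^ 3 := by nlinarith [sq_nonneg B]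
      nlinarith
    exact (le_abs_self R).trans (hR.trans this)
  have t1 : 2 * a * e ≤ 3 * b ^ 3 := by
    calc 2 * a * e ≤ |2 * a * e| := le_abs_self _
      _ = 2 * |a| * |e| := by rw [abs_mul, abs_mul, abs_two]
      _ ≤ 2 * b * (3 / 2 * b ^ 2) := by gcongr
      _ = 3 * b ^ 3 := by ring
  have t2 : e ^ 2 / 2 ≤ 2 * b ^ 3 := by
    have : e ^ 2 ≤ (3 / 2 * b ^ 2) ^ 2 := by
      rw [← sq_abs]; exact pow_le_pow_left₀ (abs_nonneg _) heb2 2
    have hb4 : b ^ 4 ≤ b ^ 3 := pow_le_pow_of_le_one hb0.le (by linarith) (by norm_num)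
    nlinarith
  have t3 : 2 * p * e ≤ 3 * b ^ 3 := by
    calc 2 * p * e ≤ |2 * p * e| := le_abs_self _
      _ = 2 * |p| * |e| := by rw [abs_mul, abs_mul, abs_two]
      _ ≤ 2 * b * (3 / 2 * b ^ 2) := by gcongr
      _ = 3 * b ^ 3 := by ring
  have t4 : 2 * p * (x ^ 2 / 2) ≤ 16 * b ^ 3 := by
    calc 2 * p * (x ^ 2 / 2) = p * x ^ 2 := by ring
      _ ≤ |p| * x ^ 2 := mul_le_mul_of_nonneg_right (le_abs_self _) (sq_nonneg _)
      _ ≤ b * (16 * b ^ 2) := by gcongr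
      _ = 16 * b ^ 3 := by ring
  have t5 : 2 * p * |x| ^ 3 ≤ 32 * b ^ 3 := by
    calc 2 * p * |x| ^ 3 ≤ 2 * |p| * |x| ^ 3 := by
          have := le_abs_self p
          have h5 : 0 ≤ |x| ^ 3 := by positivity
          nlinarith
      _ ≤ 2 * b * (64 * b ^ 3) := by gcongr
      _ ≤ 32 * b ^ 3 := by
          have : 0 < b ^ 3 := by positivity
          nlinarith
  have hNh : N * h ^ 2 ≤ b ^ 2 := by
    rw [hb, mul_pow]
    exact mul_le_mul_of_nonneg_right hN h2.le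
  have hNh0 : 0 ≤ N * h ^ 2 := by positivity
  have t6 : N * h ^ 2 * (x + x ^ 2 / 2 + |x| ^ 3) ≤ 90 * b ^ 3 := by
    have hq : x + x ^ 2 / 2 + |x| ^ 3 ≤ 90 * b := by
      have := le_abs_self x
      have hb2 : b ^ 2 ≤ b := by nlinarith
      have hb3 : b ^ 3 ≤ b := by nlinarith
      linarith
    have hq0 : 0 ≤ 90 * b := by positivity
    calc N * h ^ 2 * (x + x ^ 2 / 2 + |x| ^ 3) ≤ N * h ^ 2 * (90 * b) :=
          mul_le_mul_of_nonneg_left hq hNh0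
      _ ≤ b ^ 2 * (90 * b) := mul_le_mul_of_nonneg_right hNh hq0
      _ = 90 * b ^ 3 := by ring
  have hB3 : b ^ 3 = B ^ 3 * h ^ 3 := by rw [hb, mul_pow]
  have expand : (1 + 2 * p + N * h ^ 2) * (1 + x + x ^ 2 / 2 + |x| ^ 3) =
      1 + 2 * p + N * h ^ 2 + 2 * a + h ^ 2 * α / 2 + 2 * a ^ 2 + 4 * p * a +
        (R + 2 * a * e + e ^ 2 / 2 + |x| ^ 3 + 2 * p * e + 2 * p * (x ^ 2 / 2) +
          2 * p * |x| ^ 3 + N * h ^ 2 * (x + x ^ 2 / 2 + |x| ^ 3)) := by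
    have ee : h ^ 2 * α / 2 = e - R := by rw [he]; ring
    rw [ee, hx]
    ring
  rw [expand]
  have hb3 : 0 < b ^ 3 := by positivity
  nlinarith

/-- The sum over the four directions `h, ih, -h, -ih`. -/
lemma four_terms {B : ℝ} (hB : 1 ≤ B) {P A : ℂ} {α β h R₀ R₁ R₂ R₃ : ℝ} (hP : ‖P‖ ≤ B)
    (hA : ‖A‖ ≤ B) (hα : |α| ≤ B) (hβ : |β| ≤ B) (h0 : 0 < h) (h1 : 4 * B * h ≤ 1)
    (hR₀ : |R₀| ≤ B * h ^ 3) (hR₁ : |R₁| ≤ B * h ^ 3) (hR₂ : |R₂| ≤ B * h ^ 3)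
    (hR₃ : |R₃| ≤ B * h ^ 3) :
    ‖1 + P * (h : ℂ)‖ * Real.exp ((2 * (A * (h : ℂ)).re + h ^ 2 * α / 2 + R₀) / 2) +
    ‖1 + P * (Complex.I * h)‖ * Real.exp ((2 * (A * (Complex.I * h)).re + h ^ 2 * β / 2 + R₁) / 2) +
    ‖1 + P * (-(h : ℂ))‖ * Real.exp ((2 * (A * (-(h : ℂ))).re + h ^ 2 * α / 2 + R₂) / 2) +
    ‖1 + P * (-(Complex.I * h))‖ *
      Real.exp ((2 * (A * (-(Complex.I * h))).re + h ^ 2 * β / 2 + R₃) / 2) ≤
    4 + 2 * h ^ 2 * ‖P + A‖ ^ 2 + h ^ 2 * (α + β) / 2 + 800 * B ^ 3 * h ^ 3 := by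
  have hP1 : |P.re| ≤ B := (Complex.abs_re_le_norm P).trans hP
  have hP2 : |P.im| ≤ B := (Complex.abs_im_le_norm P).trans hP
  have hA1 : |A.re| ≤ B := (Complex.abs_re_le_norm A).trans hA
  have hA2 : |A.im| ≤ B := (Complex.abs_im_le_norm A).trans hA
  have hN : ‖P‖ ^ 2 ≤ B ^ 2 := pow_le_pow_left₀ (norm_nonneg _) hP 2
  have nP : ‖P‖ ^ 2 = P.re ^ 2 + P.im ^ 2 := by
    rw [← Complex.normSq_eq_norm_sq, Complex.normSq_apply]; ring
  have nPA : ‖P + A‖ ^ 2 = (P.re + A.re) ^ 2 + (P.im + A.im) ^ 2 := by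
    rw [← Complex.normSq_eq_norm_sq, Complex.normSq_apply]
    simp only [Complex.add_re, Complex.add_im]; ring
  have amgm : ∀ n x : ℝ, 0 ≤ n → n * Real.exp (x / 2) ≤ (1 + n ^ 2 * Real.exp x) / 2 := by
    intro n x _
    have : Real.exp x = Real.exp (x / 2) ^ 2 := by
      rw [← Real.exp_nat_mul]; congr 1; push_cast; ring
    rw [this]
    nlinarith [sq_nonneg (1 - n * Real.exp (x / 2))]
  have sq : ∀ w : ℂ, ‖1 + P * w‖ ^ 2 = 1 + 2 * (P * w).re + ‖P‖ ^ 2 * ‖w‖ ^ 2 := by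
    intro w
    have e1 : ‖P‖ ^ 2 * ‖w‖ ^ 2 = ‖P * w‖ ^ 2 := by rw [norm_mul]; ring
    rw [e1, ← Complex.normSq_eq_norm_sq, ← Complex.normSq_eq_norm_sq, Complex.normSq_apply,
      Complex.normSq_apply]
    simp only [Complex.add_re, Complex.add_im, Complex.one_re, Complex.one_im]
    ring
  have term : ∀ (w : ℂ) (γ R : ℝ), ‖w‖ = h → |γ| ≤ B → |R| ≤ B * h ^ 3 →
      ‖1 + P * w‖ * Real.exp ((2 * (A * w).re + h ^ 2 * γ / 2 + R) / 2) ≤
      (2 + 2 * (P * w).re + ‖P‖ ^ 2 * h ^ 2 + 2 * (A * w).re + h ^ 2 * γ / 2 +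
        2 * (A * w).re ^ 2 + 4 * (P * w).re * (A * w).re + 400 * B ^ 3 * h ^ 3) / 2 := by
    intro w γ R hw hγ hR
    refine (amgm _ _ (norm_nonneg _)).trans ?_
    rw [sq w, hw]
    have b1 : |(P * w).re| ≤ B * h := by
      refine (Complex.abs_re_le_norm _).trans ?_
      rw [norm_mul, hw]
      exact mul_le_mul_of_nonneg_right hP h0.le
    have b2 : |(A * w).re| ≤ B * h := by
      refine (Complex.abs_re_le_norm _).trans ?_
      rw [norm_mul, hw]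
      exact mul_le_mul_of_nonneg_right hA h0.le
    have b3 : 0 ≤ 1 + 2 * (P * w).re + ‖P‖ ^ 2 * h ^ 2 := by
      have := sq w
      rw [hw] at this
      rw [← this]; positivity
    have := one_term hB b1 b2 hγ hR (by positivity : 0 ≤ ‖P‖ ^ 2) hN h0 h1 b3
    linarith
  have T0 := term (h : ℂ) α R₀ (by simp [abs_of_pos h0]) hα hR₀
  have T1 := term (Complex.I * h) β R₁ (by simp [abs_of_pos h0]) hβ hR₁
  have T2 := term (-(h : ℂ)) α R₂ (by simp [abs_of_pos h0]) hα hR₂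
  have T3 := term (-(Complex.I * h)) β R₃ (by simp [abs_of_pos h0]) hβ hR₃
  have r0 : ∀ Q : ℂ, (Q * (h : ℂ)).re = Q.re * h := by intro Q; simp
  have r1 : ∀ Q : ℂ, (Q * (Complex.I * h)).re = -(Q.im * h) := by intro Q; simp
  have r2 : ∀ Q : ℂ, (Q * (-(h : ℂ))).re = -(Q.re * h) := by intro Q; simp
  have r3 : ∀ Q : ℂ, (Q * (-(Complex.I * h))).re = Q.im * h := by intro Q; simp
  rw [r0, r0] at T0
  rw [r1, r1] at T1
  rw [r2, r2] at T2
  rw [r3, r3] at T3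
  rw [r0, r1, r2, r3]
  refine (add_le_add (add_le_add (add_le_add T0 T1) T2) T3).trans (le_of_eq ?_)
  rw [nP, nPA]
  ring

end Pool.Agent.X154.HP
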